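import Pool.Agent.MP_735563_an.H34.Spec4

set_option autoImplicit false

/-! Assembly of the measure layer. -/

open MeasureTheory Filter Topology

namespace Pool.Agent.MP_735563_an.H2

namespace Asm

variable {p : ℕ} [NeZero p]

omit [NeZero p] in
theorem FamM_mono {i n r r' : ℕ} {V : Type} {ι : Gam p → V} {y : (V → Fin n) → MS p} {M : MS p}
    (h : FamM i n r' ι y M) (hr : r ≤ r') : FamM i n r ι y M :=
  ⟨fun u v a b => h.cls u v (a.trans hr) (b.trans hr), h.inv, h.grp, h.oth,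
    fun β u a => h.mark β u (a.trans hr)⟩

omit [NeZero p] in
theorem condB {N : Fin 3 → Subgroup (Gam p)} {i n r r' : ℕ} {Φ : MS p → ℝ} {c : ℝ}
    (h : Cond i n r Φ c) (hr : r ≤ r') : CondB N i n r' Φ c :=
  fun V _ _ ι y M _ hF => h V ι y M (FamM_mono hF hr)

theorem loc_pw {i r : ℕ} {ψ : MS p → ℝ} (h : LocA i r ψ) (m : ℕ) : LocA i (m + r) (PwM m ψ) := by
  intro M M' a
  unfold PwM
  congr 1
  funext w
  have hw : len (wprod w) ≤ m := by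
    classical
    exact mem_ball.1 (Finset.mem_image.2 ⟨w, Finset.mem_univ _, rfl⟩)
  exact h _ _ (a.trM (by omega))

omit [NeZero p] in
theorem loc_ind {i r : ℕ} {C : MS p → Prop} (h : LocA i r C) : LocA i r (ind C) :=
  fun M M' a => by unfold ind; rw [h M M' a]

/-- what is recorded at each level -/
def Q (N : Fin 3 → Subgroup (Gam p)) (T : ℕ → MS p → Fin 4 → Gam p) (η : ℝ) (i : ℕ)
    (B A : Lev p) : Prop :=
  ∃ q : Obs p × ℕ, ObsOK i (η / (i + 1) / 2 ^ (i + 2)) q.1 ∧ A.nE = q.1.n ∧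
    2 * (q.2 + q.1.r) + B.δ ≤ A.θ ∧
    CondB N i q.1.n A.θ (fun M => max (PwM q.2 q.1.ψ M) 0 ^ 2) (η ^ 2 / 2 ^ (i + 2)) ∧
    Kill A.cen A.nb q.1 (T i) η

end Asm

open Asm in
theorem final_of_stage (hG : GrpStmt) (h1 : OneStmt) (hC : CongStmt) (hT : ThStmt) (hA : AllStmt)
    (hF : FamStmt) (hM : ModelStmt) (hS : StageStmt) (hma : MargStmt) (hin : InvBStmt)
    (hsu : SupStmt) (hre : RelStmt) (hva : VarStmt) (hli : LimStmt) (her : ErgStmt)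
    (hat : AtomStmt) (hta : TaskStmt) (hfr : FreeStmt) (hrec : RecStmt) : Final := by
  obtain ⟨g₁, h1⟩ := h1
  obtain ⟨p, _, N, hN⟩ := hG g₁
  obtain ⟨η, hη, hS⟩ := hS p
  obtain ⟨T, l, hl, hta⟩ := hta p
  obtain ⟨𝔇, hO, hL, hQ⟩ := hrec p N (Q N T η) (h1 p N hN) (by
    intro 𝔇 i hi hO hL
    obtain ⟨O, hO1, hO2⟩ := hS 𝔇 i (T i) (l i) (η / (i + 1) / 2 ^ (i + 2)) hi (hT p 𝔇 _ hO)
      (hl i).1 (hl i).2 (by positivity)
    obtain ⟨m, hm⟩ := hva p N g₁ hN O.r O.b (η ^ 2 / 2 ^ (i + 2)) (by positivity)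
    obtain ⟨A, a1, a2, a3, a4⟩ := hO2 (2 * (m + O.r) + (𝔇 (i - 1)).δ)
    have hL' : L1 (Function.update 𝔇 i A) N := by
      unfold L1
      rw [Function.update_of_ne (by omega)]
      exact hL
    obtain ⟨A', b1, b2, -⟩ := hM p N g₁ _ i hN hL' a3
    rw [Function.update_idem] at b2
    have hn : 0 < O.n := by
      have := a3.rule.nE_pos
      rwa [Function.update_self, a1] at this
    obtain ⟨j, rfl⟩ : ∃ j, i = j + 1 := ⟨i - 1, by omega⟩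
    have hAg : Ag (Function.update 𝔇 (j + 1) A) j (Function.update 𝔇 (j + 1) A') := by
      intro k hk
      rw [Function.update_of_ne (by omega), Function.update_of_ne (by omega)]
    have c := (hC p _ _ j hAg).2.2.2 (by rw [Function.update_self (j + 1) A' 𝔇]; exact b1)
    rw [Function.update_self] at b1
    obtain ⟨-, -, -, -, -, e1, -, -, e2, e3, e4⟩ := b1
    refine ⟨A', ⟨c.2.2.2.2.2.2.2.2.2.1 a3.rule, c.2.2.2.2.2.2.2.2.2.2.1 a3.const, b2⟩,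
      (O, m), hO1, e2 ▸ a1, e1 ▸ a2, ?_, e3 ▸ e4 ▸ a4⟩
    exact hm _ _ _ _ hn hO1.locψ hO1.bd hO1.exp (by rw [← e1]; omega))
  have hTh : ∀ n, Th 𝔇 n := fun n => hT p 𝔇 n (hO n)
  have hfam : ∀ t R, (∀ s ∈ famB 𝔇 t R, IsBall 𝔇 t R s) ∧ (∀ s, IsBall 𝔇 t R s → Inc s) ∧
      ∑ s ∈ famB 𝔇 t R, (W 𝔇 s : ℝ) = 1 := fun t R => by
    obtain ⟨ℱ, f1, f2, -, f4, -⟩ := hF p 𝔇 t (hTh t) (hA p 𝔇 t).2.2.1 R
    rw [mem_famB f1]
    exact ⟨fun s hs => (f1 s).1 hs, fun s hs => f2 s ((f1 s).2 hs), by exact_mod_cast f4⟩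
  obtain ⟨hcl, hsup⟩ := hsu p N 𝔇
  have hcl' : ∀ j, IsCl (CW N 𝔇 j) := fun j => hcl j fun hj => ((hO j).2.1 j (by omega) le_rfl).1
  let 𝒳 : XD p := ⟨Bd 𝔇, fun M => ∀ j, CW N 𝔇 j M, by
    rintro ⟨_ | i, c⟩ h
    · rfl
    · simp only [rk] at h
      omega, isCl_forall hcl'⟩
  let R : ℕ → ℕ := fun t => 2 * t + (𝔇 (t + 1)).δ + 1
  obtain ⟨μ, _, hμ, hlim⟩ := hli p 𝒳 (CW N 𝔇) (St p) (fun t => famB 𝔇 (t + 1) (R t))
    (fun s => W 𝔇 s) (fun s => (s, Kall 𝔇 s)) hcl' (fun M h => h)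
    (fun t s hs => by
      have b := (hfam _ _).1 s hs
      have c := hsup _ _ s (by omega) (hTh _) hL b ((hfam _ _).2.1 s b)
      exact ⟨by exact_mod_cast (W_pos (hO _) b.1).le, c.2.1, c.2.2.1⟩)
    (fun t => (hfam _ _).2.2)
    (fun j g => by
      filter_upwards [eventually_ge_atTop (j + len g)] with t ht s hs
      have b := (hfam _ _).1 s hs
      exact (hsup _ _ s (by omega) (hTh _) hL b ((hfam _ _).2.1 s b)).2.2.2 j g (by omega)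
        (by simp only [R]; omega))
    (fun i r Φ g hΦ hg => by
      filter_upwards [eventually_ge_atTop (i + r)] with t ht
      exact hin hA p 𝔇 (t + 1) (hTh _) r (R t) Φ g (hΦ.mono (by omega) le_rfl)
        (by simp only [R]; omega) hg)
  have key : ∀ j r (Φ : MS p → ℝ) c, 2 ≤ j → LocA j r Φ → 2 * r + (𝔇 (j - 1)).δ ≤ (𝔇 j).θ →
      CondB N j (𝔇 j).nE (𝔇 j).θ Φ c → ∫ x, Φ x.1 ∂μ ≤ c := by
    intro j r Φ c hj hΦ hr hc
    obtain ⟨i, rfl⟩ : ∃ i, j = i + 1 := ⟨j - 1, by omega⟩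
    refine hlim _ r Φ c hΦ ?_
    filter_upwards [eventually_ge_atTop i] with t ht
    refine (hma hA p 𝔇 hTh i r Φ hΦ hr (t + 1) (R t) (by omega)).le.trans ?_
    exact hre hA p N 𝔇 i _ Φ c (hTh i) (fun s b =>
      (hsup _ _ s (by omega) (hTh _) hL b ((hfam _ _).2.1 s b)).1) hc
  have : Nonempty (Obs p × ℕ) := ⟨(⟨fun _ => 0, fun _ => False, 0, 0, 0⟩, 0)⟩
  choose! q q1 q2 q3 q4 q5 using hQ
  obtain ⟨ν, _, hν, herg, hsm⟩ := her p 𝒳 μ hμ (fun j => (q j).1) (fun j => (q j).2) η hη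
    fun j hj => ⟨(q1 j hj).locψ, (q1 j hj).locC,
      key j _ _ _ hj ((loc_pw (q1 j hj).locψ _).comp fun t => max t 0 ^ 2) (q3 j hj)
        (q2 j hj ▸ q4 j hj),
      key j _ _ _ hj (loc_ind (q1 j hj).locC) (by have := q3 j hj; omega)
        (q2 j hj ▸ condB (q1 j hj).col (by have := q3 j hj; omega))⟩
  obtain ⟨hst, hna⟩ := hat p 𝒳 ν hν (fun j => (q j).1.Cl) η (fun x R => (XS.prop x R).2.1)
    fun j hj => ⟨(hsm j hj).2, (q1 j hj).sep⟩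
  refine final_of p N hN.pair (XS 𝒳) ν hν
    (fun c n hn x => XS.smul_of_mem ((XS.prop x 0).1 c hn)) herg hna ?_
  by_contra hF2
  obtain ⟨N₀, a, τ, f1, f2, f3⟩ := hfr p 𝒳 ν hν hst hF2 η hη
  obtain ⟨i, hi, hτ⟩ := hta 𝒳 τ f2
  have k := q5 i hi 𝒳 ν hν (𝔇 i).D (fun x => (XS.prop x i).2.2 hi) N₀ a f1
    (by simpa only [hτ] using f3)
    ((hsm i hi).2.trans (div_le_self hη.le (by have : (0 : ℝ) ≤ i := Nat.cast_nonneg i; linarith)))
  exact absurd (hsm i hi).1 (not_le.2 k)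

end Pool.Agent.MP_735563_an.H2
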