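import Pool.Agent.MP_735563_an.H34.Spec4
import Pool.Agent.MP_735563_an.H2.GenM

set_option autoImplicit false

/-! Rows Erg and Atom. -/

open MeasureTheory Filter Topology
open scoped BigOperators

namespace Pool.Agent.MP_735563_an.H2

namespace Erg

open GenM

variable {p : ℕ} [NeZero p] {𝒳 : XD p}

theorem pw_eq (m : ℕ) (ψ : MS p → ℝ) (x : XS 𝒳) : PwM m ψ x.1 =
    (∑ w : Fin m → Fin 3 × ZMod p, ψ ((wprod w)⁻¹ • x).1) /
      Fintype.card (Fin m → Fin 3 × ZMod p) := by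
  rw [PwM, Fintype.expect_eq_sum_div_card]
  rfl

theorem pw_cont (m : ℕ) {ψ : MS p → ℝ} (h : Continuous fun x : XS 𝒳 => ψ x.1) :
    Continuous fun x : XS 𝒳 => PwM m ψ x.1 := by
  simp only [pw_eq]
  exact (continuous_finsetSum _ fun w _ => h.comp (XS.cont_smul _)).div_const _

theorem pw_int (m : ℕ) {ψ : MS p → ℝ} (h : Continuous fun x : XS 𝒳 => ψ x.1)
    (ν : Measure (XS 𝒳)) [IsProbabilityMeasure ν]
    (hinv : ∀ g : Gam p, MeasurePreserving (fun x : XS 𝒳 => g • x) ν ν) :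
    ∫ x, PwM m ψ x.1 ∂ν = ∫ x, ψ x.1 ∂ν := by
  simp only [pw_eq]
  rw [integral_div, integral_finsetSum (f := fun (w : Fin m → Fin 3 × ZMod p) (x : XS 𝒳) =>
    ψ ((wprod w)⁻¹ • x).1) _ fun w _ => integ (h.comp (XS.cont_smul _)) ν]
  have h3 : ∀ w : Fin m → Fin 3 × ZMod p,
      ∫ x, ψ ((wprod w)⁻¹ • x).1 ∂ν = ∫ x, ψ x.1 ∂ν := fun w => by
    have := integral_map (μ := ν) (hinv (wprod w)⁻¹).measurable.aemeasurable
      h.aestronglyMeasurable
    rw [(hinv _).map_eq] at this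
    exact this.symm
  have hp : (0 : ℝ) < Fintype.card (Fin m → Fin 3 × ZMod p) := Nat.cast_pos.2 Fintype.card_pos
  simp only [h3, Finset.sum_const, Finset.card_univ, nsmul_eq_mul]
  field_simp

theorem ind_int {i r : ℕ} {C : MS p → Prop} (h : LocA i r C) (ν : Measure (XS 𝒳)) :
    ∫ x, ind C x.1 ∂ν = ν.real {x | C x.1} := by
  rw [← integral_indicator_one (XS.clopen h).isOpen.measurableSet]
  refine integral_congr_ae (Eventually.of_forall fun x => ?_)
  by_cases hx : C x.1 <;> simp [ind, hx]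

omit [NeZero p] in
theorem ind_nonneg (C : MS p → Prop) (M : MS p) : 0 ≤ ind C M := by
  unfold ind
  split_ifs <;> norm_num

theorem ind_cont {i r : ℕ} {C : MS p → Prop} (h : LocA i r C) :
    Continuous fun x : XS 𝒳 => ind C x.1 := by
  classical
  exact XS.cont (f := ind C) fun M M' a => by unfold ind; rw [h M M' a]

end Erg

open GenM Erg in
theorem ergS : ErgStmt := by
  intro p _ 𝒳 μ _ hμ O m η hη hO
  have hψ : ∀ j, 2 ≤ j → Continuous fun x : XS 𝒳 => (O j).ψ x.1 := fun j hj =>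
    XS.cont (hO j hj).1
  have hA : ∀ j, 2 ≤ j → Continuous fun x : XS 𝒳 => max (PwM (m j) (O j).ψ x.1) 0 :=
    fun j hj => (pw_cont _ (hψ j hj)).max continuous_const
  have hB : ∀ j, 2 ≤ j → Continuous fun x : XS 𝒳 => ind (O j).Cl x.1 := fun j hj =>
    ind_cont (hO j hj).2.1
  set g : ℕ → XS 𝒳 → ℝ := fun j x => if 2 ≤ j then
    max (PwM (m j) (O j).ψ x.1) 0 ^ 2 / η ^ 2 + ind (O j).Cl x.1 / (η / (j + 1)) else 0 with hg
  have hgc : ∀ j, Continuous (g j) := fun j => by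
    by_cases hj : 2 ≤ j
    · simp only [hg, if_pos hj]
      exact (((hA j hj).pow 2).div_const _).add ((hB j hj).div_const _)
    · simp only [hg, if_neg hj]
      exact continuous_const
  have hg0 : ∀ j x, 0 ≤ g j x := fun j x => by
    have := ind_nonneg (O j).Cl x.1
    simp only [hg]
    split_ifs
    · positivity
    · exact le_rfl
  have hint : ∀ (ν : Measure (XS 𝒳)) [IsProbabilityMeasure ν] (j : ℕ), 2 ≤ j → ∫ x, g j x ∂ν =
      (∫ x, max (PwM (m j) (O j).ψ x.1) 0 ^ 2 ∂ν) / η ^ 2 +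
        (∫ x, ind (O j).Cl x.1 ∂ν) / (η / (j + 1)) := by
    intro ν _ j hj
    simp only [hg, if_pos hj]
    rw [← integral_div, ← integral_div]
    exact integral_add (integ (((hA j hj).pow 2).div_const _) ν)
      (integ ((hB j hj).div_const _) ν)
  have hμ1 : Phi g μ ≤ 1 := by
    have h1 : ∀ j, ∫⁻ x, ENNReal.ofReal (g j x) ∂μ ≤ 2⁻¹ * (2⁻¹ : ENNReal) ^ j := by
      intro j
      rw [← ofReal_integral_eq_lintegral_ofReal (integ (hgc j) _) (Eventually.of_forall (hg0 j))]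
      have h2 : ∫ x, g j x ∂μ ≤ 2⁻¹ * 2⁻¹ ^ j := by
        by_cases hj : 2 ≤ j
        · rw [hint μ j hj]
          obtain ⟨-, -, a1, a2⟩ := hO j hj
          have b1 := div_le_div_of_nonneg_right a1 (pow_pos hη 2).le
          have b2 := div_le_div_of_nonneg_right a2 (show 0 ≤ η / (j + 1) by positivity)
          refine (add_le_add b1 b2).trans (le_of_eq ?_)
          rw [inv_pow, pow_add]
          field_simp
          norm_num
        · simp only [hg, if_neg hj, integral_zero]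
          positivity
      refine (ENNReal.ofReal_le_ofReal h2).trans (le_of_eq ?_)
      rw [ENNReal.ofReal_mul (by norm_num), ENNReal.ofReal_pow (by norm_num),
        ENNReal.ofReal_inv_of_pos (by norm_num), ENNReal.ofReal_ofNat]
    refine (ENNReal.tsum_le_tsum h1).trans (le_of_eq ?_)
    rw [ENNReal.tsum_mul_left, ENNReal.tsum_geometric, ENNReal.one_sub_inv_two, inv_inv,
      ENNReal.inv_mul_cancel (by norm_num) (by norm_num)]
  have : TopologicalSpace.MetrizableSpace (XS 𝒳) :=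
    TopologicalSpace.metrizableSpace_of_t3_secondCountable _
  obtain ⟨ν, hν, hinv, herg, hΦ⟩ :=
    ex_erg XS.cont_smul μ hμ g hgc hg0 (ne_top_of_le_ne_top ENNReal.one_ne_top hμ1)
  refine ⟨ν, hν, hinv, herg, fun j hj => ?_⟩
  have h1 : ∫⁻ x, ENNReal.ofReal (g j x) ∂ν ≤ 1 :=
    (ENNReal.le_tsum (f := fun j => ∫⁻ x, ENNReal.ofReal (g j x) ∂ν) j).trans (hΦ.trans hμ1)
  rw [← ofReal_integral_eq_lintegral_ofReal (integ (hgc j) _) (Eventually.of_forall (hg0 j)),
    ENNReal.ofReal_le_one, hint ν j hj] at h1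
  have a1 : 0 ≤ ∫ x, max (PwM (m j) (O j).ψ x.1) 0 ^ 2 ∂ν :=
    integral_nonneg fun x => sq_nonneg _
  have a2 : 0 ≤ ∫ x, ind (O j).Cl x.1 ∂ν := integral_nonneg fun x => ind_nonneg _ _
  have a3 : 0 < η / (j + 1) := by positivity
  have b1 : (∫ x, max (PwM (m j) (O j).ψ x.1) 0 ^ 2 ∂ν) / η ^ 2 ≤ 1 :=
    (le_add_of_nonneg_right (div_nonneg a2 a3.le)).trans h1
  have b2 : (∫ x, ind (O j).Cl x.1 ∂ν) / (η / (j + 1)) ≤ 1 :=
    (le_add_of_nonneg_left (div_nonneg a1 (pow_pos hη 2).le)).trans h1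
  rw [div_le_one (pow_pos hη 2)] at b1
  rw [div_le_one a3, ind_int (hO j hj).2.1] at b2
  refine ⟨?_, b2⟩
  rw [← pw_int (m j) (hψ j hj) ν hinv]
  exact (integral_mono (integ (pw_cont _ (hψ j hj)) ν) (integ (hA j hj) ν)
    fun x => le_max_left _ _).trans (abs_le_of_sq_le_sq' ((sq_le (hA j hj) ν).trans b1) hη.le).2

theorem atomS : AtomStmt := by
  intro p _ 𝒳 ν _ hinv Cl η hF hC
  have h1 : ∀ᵐ x ∂ν, ∀ u : Gam p, u • x = x → u ∈ x.1.2 := by
    refine ae_all_iff.2 fun u => ?_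
    rw [ae_iff, ← measureReal_eq_zero_iff]
    refine le_antisymm ?_ measureReal_nonneg
    have ht : Tendsto (fun j : ℕ => η / ((j : ℝ) + 1)) atTop (𝓝 0) :=
      tendsto_const_nhds.div_atTop (tendsto_atTop_add_const_right _ _ tendsto_natCast_atTop_atTop)
    refine ge_of_tendsto ht ?_
    filter_upwards [eventually_ge_atTop (len u + 2)] with j hj
    refine le_trans (measureReal_mono fun x hx => ?_) (hC j (by omega)).1
    obtain ⟨a1, a2⟩ := Classical.not_imp.1 hx
    by_contra a3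
    refine a2 ((hC j (by omega)).2 x.1 u (by omega) ?_ a3)
    have a4 : u⁻¹ • x = x := by rw [inv_smul_eq_iff, a1]
    exact congrArg Subtype.val a4
  refine ⟨h1, fun x => ?_⟩
  by_contra h0
  have hx : ∀ u : Gam p, u • x = x → u ∈ x.1.2 := by
    by_contra hx
    exact h0 (measure_mono_null (Set.singleton_subset_iff.2 hx) (ae_iff.1 h1))
  have hfin : {y : XS 𝒳 | ν {x} ≤ ν {y}}.Finite :=
    Measure.finite_const_le_meas_of_disjoint_iUnion ν (pos_iff_ne_zero.2 h0)
      (As := fun y : XS 𝒳 => {y}) (fun y => measurableSet_singleton y)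
      (fun y z hyz => Set.disjoint_singleton.2 hyz) (measure_ne_top _ _)
  have horb : ∀ g : Gam p, ν {x} ≤ ν {g⁻¹ • x} := fun g => by
    rw [← (hinv g).measure_preimage (measurableSet_singleton x).nullMeasurableSet]
    refine measure_mono fun y hy => ?_
    have a1 : g • y = x := hy
    rw [Set.mem_singleton_iff, eq_inv_smul_iff, a1]
  have hr : ∀ y : XS 𝒳, ∃ g' : Gam p, ∀ g : Gam p, g⁻¹ • x = y → g'⁻¹ • x = y := fun y => by
    by_cases h : ∃ g : Gam p, g⁻¹ • x = y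
    · obtain ⟨g, hg⟩ := h
      exact ⟨g, fun _ _ => hg⟩
    · exact ⟨1, fun g hg => absurd ⟨g, hg⟩ h⟩
  choose ρ hρ using hr
  obtain ⟨g, hg⟩ := hF x (hfin.toFinset.sup fun y => len (ρ y))
  have a1 := hρ _ g rfl
  have a2 : ρ (g⁻¹ • x) * g⁻¹ ∈ x.1.2 := hx _ (by rw [mul_smul, ← eq_inv_smul_iff, a1])
  have a3 := hg _ a2
  rw [inv_mul_cancel_right] at a3
  exact absurd (Finset.le_sup (f := fun y => len (ρ y)) (hfin.mem_toFinset.2 (horb g))) a3.not_ge

end Pool.Agent.MP_735563_an.H2
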