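import Pool.Agent.MP_735563_an.H34.Spec7

set_option autoImplicit false

/-! Row KComp: final edges are at most as frequent as flags. -/

open MeasureTheory

namespace Pool.Agent.MP_735563_an.H2

namespace KComp

variable {p : ℕ} [NeZero p] {P : RP p} {ρ : ℕ}

/-- neighbours along a final edge -/
def Sp (P : RP p) (M : MS p) (a b : Gam p) : Prop :=
  ∃ e, Cnt.Step (P.FE M) (cls M a) e (cls M b)

/-- elementary relation -/
def El (P : RP p) (M : MS p) (a b : Gam p) : Prop := b * a⁻¹ ∈ M.2 ∨ Sp P M a b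

/-- ends of chains -/
def Ch (P : RP p) (ρ : ℕ) (M : MS p) : ℕ → Set (Gam p)
  | 0 => {1}
  | n + 1 => {u | ∃ a w, a ∈ Ch P ρ M n ∧ P.cen (pt M a) 0 ∧ w ∈ P.nb ρ (pt M a) 0 ∧ u = a * w}

theorem sp_iff {M : MS p} {a b : Gam p} : Sp P M a b ↔
    ∃ k, P.FE M (cls M a, k) (cls M b) ∨ P.FE M (cls M b, k) (cls M a) := by
  constructor
  · rintro ⟨⟨q, k⟩, ⟨rfl, h⟩ | ⟨rfl, h⟩⟩
    · exact ⟨k, Or.inl h⟩
    · exact ⟨k, Or.inr h⟩
  · rintro ⟨k, h | h⟩
    · exact ⟨(_, k), Or.inl ⟨rfl, h⟩⟩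
    · exact ⟨(_, k), Or.inr ⟨rfl, h⟩⟩

theorem el_symm {M : MS p} {a b : Gam p} (h : El P M a b) : El P M b a := by
  rcases h with h | h
  · exact Or.inl (by simpa using inv_mem h)
  · obtain ⟨k, h⟩ := sp_iff.1 h
    exact Or.inr (sp_iff.2 ⟨k, h.symm⟩)

theorem rtg_symm {M : MS p} {a b : Gam p} (h : Relation.ReflTransGen (El P M) a b) :
    Relation.ReflTransGen (El P M) b a := by
  induction h with
  | refl => exact .refl
  | tail _ h ih => exact .head (el_symm h) ih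

theorem el_pt (h2 : EqvStmt) {M : MS p} (hM : Inv M) (u a b : Gam p) :
    El P (pt M u) a b ↔ El P M (u * a) (u * b) := by
  simp only [El, sp_iff, h2 p P M hM u, mem_pt, mul_inv_rev, mul_assoc]

theorem rtg_pt (h2 : EqvStmt) {M : MS p} (hM : Inv M) (u v : Gam p) :
    Relation.ReflTransGen (El P (pt M u)) 1 v ↔ Relation.ReflTransGen (El P M) u (u * v) := by
  constructor
  · intro h
    simpa [Function.onFun] using h.lift (fun a => u * a) fun a b hab => (el_pt h2 hM u a b).1 hab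
  · intro h
    simpa [Function.onFun] using h.lift (p := El P (pt M u)) (fun a => u⁻¹ * a) fun a b hab =>
      (el_pt h2 hM u _ _).2 (by simpa using hab)

theorem rtg_iff (h1 : AdjStmt) (hB : P.Bas) (hT : P.TrP ρ) {M : MS p} (hM : Inv M) (u : Gam p) :
    Relation.ReflTransGen (El P M) 1 u ↔ ∃ n a, a ∈ Ch P ρ M n ∧ u * a⁻¹ ∈ M.2 := by
  constructor
  · intro h
    induction h with
    | refl => exact ⟨0, 1, rfl, by simp [one_mem]⟩
    | @tail b c _ h ih =>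
      obtain ⟨n, a, ha, hb⟩ := ih
      rcases h with h | h
      · exact ⟨n, a, ha, by simpa [mul_assoc] using mul_mem h hb⟩
      · rw [Sp, ← cls_eq.2 hb] at h
        obtain ⟨e1, w, e2, e3⟩ := ((h1 p P ρ hB hT M hM a).2 c 0).2 ⟨rfl, h⟩
        exact ⟨n + 1, a * w, ⟨a, w, ha, e1, e2, rfl⟩, e3⟩
  · rintro ⟨n, a, ha, hu⟩
    refine Relation.ReflTransGen.tail ?_ (Or.inl hu)
    clear hu
    induction n generalizing a with
    | zero => rw [show a = 1 from ha]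
    | succ n ih =>
      obtain ⟨b, w, hb, e1, e2, rfl⟩ := ha
      exact (ih b hb).tail
        (Or.inr (((h1 p P ρ hB hT M hM b).2 (b * w) 0).1 ⟨e1, w, e2, by simp [one_mem]⟩).2)

theorem ch_seq {M : MS p} : ∀ (n : ℕ) (a : Gam p), a ∈ Ch P ρ M n → ∃ ξ : ℕ → Gam p,
    ξ 0 = 1 ∧ ξ n = a ∧ ∀ t < n, P.cen (trM (ξ t)⁻¹ M) 0 ∧
      ∃ w ∈ P.nb ρ (trM (ξ t)⁻¹ M) 0, ξ (t + 1) = ξ t * w
  | 0, _, h => ⟨fun _ => 1, rfl, h.symm, fun _ ht => absurd ht (Nat.not_lt_zero _)⟩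
  | n + 1, _, ⟨a, w, ha, e1, e2, rfl⟩ => by
    obtain ⟨ξ, h0, hn, h⟩ := ch_seq n a ha
    refine ⟨fun t => if t ≤ n then ξ t else a * w, by simp [h0], by simp, fun t ht => ?_⟩
    have h1 : t ≤ n := by omega
    by_cases h2 : t + 1 ≤ n
    · simpa only [if_pos h1, if_pos h2] using h t h2
    · obtain rfl : t = n := by omega
      simp only [if_pos h1, if_neg h2, hn]
      exact ⟨e1, w, e2, rfl⟩

theorem ch_meas {𝒳 : XD p} (hc : LocA P.i ρ P.cen) (hn : LocA P.i ρ (P.nb ρ)) :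
    ∀ (n : ℕ) (u : Gam p), MeasurableSet {x : XS 𝒳 | u ∈ Ch P ρ x.1 n}
  | 0, u => MeasurableSet.const (u ∈ ({1} : Set (Gam p)))
  | n + 1, u => by
    have : {x : XS 𝒳 | u ∈ Ch P ρ x.1 (n + 1)} = ⋃ a, ⋃ w, {x : XS 𝒳 | a ∈ Ch P ρ x.1 n} ∩
        ({x | P.cen (trM a⁻¹ x.1) 0} ∩ ({x | w ∈ P.nb ρ (trM a⁻¹ x.1) 0} ∩ {_x | u = a * w})) := by
      ext x
      simp only [Set.mem_iUnion]
      exact Iff.rfl
    rw [this]
    exact MeasurableSet.iUnion fun a => MeasurableSet.iUnion fun w => (ch_meas hc hn n a).inter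
      ((XS.clopen ((hc.comp fun C => C 0).trM a⁻¹)).isOpen.measurableSet.inter
        ((XS.clopen ((hn.comp fun C => w ∈ C 0).trM a⁻¹)).isOpen.measurableSet.inter
          (MeasurableSet.const _)))

omit [NeZero p] in
theorem out_smul {𝒳 : XD p} (x : XS 𝒳) (u : Gam p) : (cls x.1 u).out⁻¹ • x = u⁻¹ • x := by
  have h := XS.smul_of_mem (out_cls (M := x.1) u)
  rw [mul_smul] at h
  rw [eq_inv_smul_iff, h]

theorem count (h1 : AdjStmt) (h4 : KForStmt) (hB : P.Bas) (hT : P.TrP ρ) (hk : 3 ≤ P.k₂)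
    {𝒳 : XD p} {ν : Measure (XS 𝒳)} {N₀ : Set (XS 𝒳)} {a : FreeGroup (Fin 2) → XS 𝒳 → XS 𝒳}
    (hF : FreeOn ν N₀ a) {G : Set (XS 𝒳)}
    (hG : ∀ x ∈ G, ∀ w : List (Fin 4), w.length ≤ P.m → (P.pos x.1 w)⁻¹ • x = a (fw w) x)
    {x : XS 𝒳} (hx : x ∈ N₀) (T : Finset (Gam p))
    (t1 : ∀ t ∈ T, Relation.ReflTransGen (El P x.1) 1 t)
    (t2 : ∀ t ∈ T, ∀ t' ∈ T, t' * t⁻¹ ∈ x.1.2 → t = t')
    (t3 : ∀ u, Relation.ReflTransGen (El P x.1) 1 u → ∃ t ∈ T, t * u⁻¹ ∈ x.1.2) :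
    ∑ t ∈ T, (G.indicator (fun x => P.nfo ρ x.1) (t⁻¹ • x) - ind P.fl (t⁻¹ • x).1) ≤ 0 := by
  classical
  have hM : Inv x.1 := x.2.1
  set E' := (T ×ˢ (Finset.univ : Finset (Fin P.L))).filter
    fun q => q.1⁻¹ • x ∈ G ∧ P.Fo ρ (pt x.1 q.1) q.2 with hE'
  set C' := T.filter fun t => P.fl (pt x.1 t) with hC'
  have key : (E'.image fun q => (cls x.1 q.1, q.2)).card ≤ (C'.image (cls x.1)).card := by
    refine h4 (Cls x.1) (XS 𝒳) P.n P.L P.m P.k₁ P.k₂ (P.st x.1) (P.β x.1)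
      (fun k q q' => dC x.1 q q' ≤ 1000 * k) (fun q q' => dC x.1 q q' ≤ P.U) a N₀
      (fun q => q.out⁻¹ • x) hk hF.inv hF.one hF.mul hF.free (fun q q' h => ?_)
      (fun q => hF.smul _ x hx) _ _ fun e he => ?_
    · have h5 : (q'.out * q.out⁻¹) • x = x := by
        rw [mul_smul, show q.out⁻¹ • x = q'.out⁻¹ • x from h, smul_inv_smul]
      rw [← cls_out q, ← cls_out q']
      exact cls_eq.2 (hF.stab x hx _ h5)
    · obtain ⟨⟨t, k⟩, hq, rfl⟩ := Finset.mem_image.1 he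
      obtain ⟨hq1, hq2, hq3⟩ := Finset.mem_filter.1 hq
      have ht : t ∈ T := (Finset.mem_product.1 hq1).1
      have hfe := ((h1 p P ρ hB hT x.1 hM t).1 k).1 hq3
      obtain ⟨f1, f2, -⟩ := (RP.raw_cls hM).1 hfe.1
      obtain ⟨t', ht', h5⟩ := t3 _ ((t1 t ht).tail (Or.inr (sp_iff.2 ⟨k, Or.inl hfe⟩)))
      refine ⟨Finset.mem_image_of_mem _ (Finset.mem_filter.2 ⟨ht, f1⟩),
        ⟨_, Finset.mem_image.2 ⟨t', Finset.mem_filter.2 ⟨ht', ?_⟩, (cls_eq.2 h5).symm⟩, hfe⟩,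
        fun w hw z hz => ?_⟩
      · rwa [hM.pt_eq h5]
      · obtain ⟨-, rfl⟩ := (RP.run_cls hM w).1 hz
        simp only [out_smul]
        rw [mul_inv_rev, mul_smul]
        exact hG _ hq2 w hw
  rw [Finset.card_image_of_injOn] at key
  · have e1 : ∑ t ∈ T, G.indicator (fun x => P.nfo ρ x.1) (t⁻¹ • x) = (E'.card : ℝ) := by
      rw [hE', Finset.card_filter, Finset.sum_product, Nat.cast_sum]
      refine Finset.sum_congr rfl fun t _ => ?_
      by_cases h : t⁻¹ • x ∈ G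
      · rw [Set.indicator_of_mem h, RP.nfo, Finset.card_filter]
        simp only [h, true_and]
        rfl
      · simp [h]
    have e2 : ∑ t ∈ T, ind P.fl (t⁻¹ • x).1 = (C'.card : ℝ) := by
      rw [hC', Finset.card_filter, Nat.cast_sum]
      refine Finset.sum_congr rfl fun t _ => ?_
      by_cases h : P.fl (pt x.1 t)
      · rw [if_pos h, Nat.cast_one]; exact if_pos h
      · rw [if_neg h, Nat.cast_zero]; exact if_neg h
    rw [Finset.sum_sub_distrib, e1, e2, sub_nonpos]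
    exact_mod_cast key.trans Finset.card_image_le
  · rintro ⟨t, k⟩ hq ⟨t', k'⟩ hq' h
    obtain ⟨h5, h6⟩ := Prod.ext_iff.1 h
    exact Prod.ext (t2 t (Finset.mem_product.1 (Finset.mem_filter.1 hq).1).1 t'
      (Finset.mem_product.1 (Finset.mem_filter.1 hq').1).1 (cls_eq.1 h5)) h6

end KComp

theorem kcomp (h0 : RLocStmt) (h1 : AdjStmt) (h2 : EqvStmt) (h3 : KAvgStmt) (h4 : KForStmt) :
    KCompStmt := by
  intro p _ P ρ hB hT hk 𝒳 ν _ hmp D hD N₀ a hF G hGm hG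
  obtain ⟨-, l2, l3, l4⟩ := (h0 p P hB).2.2.2 ρ
  have l5 : LocA P.i ρ (ind P.fl) := fun M M' h => by
    have : P.fl M ↔ P.fl M' := by simpa [RP.cen] using congrFun (l3 M M' h) 0
    unfold ind
    rw [propext this]
  refine h3 p (XS 𝒳) ν hmp (fun x => x.1.2) (fun _ _ => rfl)
    (fun u => (XS.clopen_mem u).isOpen.measurableSet) (fun x k hk => XS.smul_of_mem hk)
    (fun x => {u | Relation.ReflTransGen (KComp.El P x.1) 1 u}) D (fun u => ?_)
    (fun x => Relation.ReflTransGen.refl)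
    (fun x k hk u hu => Relation.ReflTransGen.tail hu (Or.inl (by simpa using hk)))
    (fun x u hu v => ?_) (fun x u hu => ?_) _ (P.L + 1) ?_ (fun x => ?_) ?_
  · have : {x : XS 𝒳 | u ∈ {u | Relation.ReflTransGen (KComp.El P x.1) 1 u}} =
        ⋃ n, ⋃ a, {x : XS 𝒳 | a ∈ KComp.Ch P ρ x.1 n} ∩ {x | u * a⁻¹ ∈ x.1.2} := by
      ext x
      simp only [Set.mem_iUnion]
      exact KComp.rtg_iff h1 hB hT x.2.1 u
    rw [this]
    exact MeasurableSet.iUnion fun n => MeasurableSet.iUnion fun a =>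
      (KComp.ch_meas l3 l4 n a).inter (XS.clopen_mem _).isOpen.measurableSet
  · exact (KComp.rtg_pt h2 x.2.1 u v).trans
      ⟨fun h => Relation.ReflTransGen.trans hu h, fun h => (KComp.rtg_symm hu).trans h⟩
  · obtain ⟨n, b, hb, hub⟩ := (KComp.rtg_iff h1 hB hT x.2.1 u).1 hu
    obtain ⟨ξ, e0, rfl, e1⟩ := KComp.ch_seq n b hb
    obtain ⟨k, hk, e2⟩ := hD x ξ n e0 e1
    exact ⟨k * (u * (ξ n)⁻¹)⁻¹, mul_mem hk (inv_mem hub), by simpa [mul_assoc] using e2⟩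
  · exact ((XS.cont l2).measurable.indicator hGm).sub (XS.cont l5).measurable
  · have a1 : 0 ≤ G.indicator (fun x => P.nfo ρ x.1) x :=
      Set.indicator_nonneg (fun _ _ => Nat.cast_nonneg _) x
    have a2 : G.indicator (fun x => P.nfo ρ x.1) x ≤ P.L :=
      Set.indicator_apply_le' (fun _ => by
        classical
        unfold RP.nfo
        exact_mod_cast (Finset.card_filter_le _ _).trans (by simp)) fun _ => Nat.cast_nonneg _
    have a3 : 0 ≤ ind P.fl x.1 ∧ ind P.fl x.1 ≤ 1 := by unfold ind; split_ifs <;> norm_num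
    rw [abs_le]
    constructor <;> linarith [a3.1, a3.2, (Nat.cast_nonneg P.L : (0 : ℝ) ≤ _)]
  · have : ∀ᵐ x ∂ν, x ∈ N₀ := hF.full
    filter_upwards [this] with x hx T t1 t2 t3
    exact KComp.count h1 h4 hB hT hk hF hG hx T t1 t2 t3

end Pool.Agent.MP_735563_an.H2
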