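import Pool.Agent.MP_735563_an.H34.Spec7
import Pool.Agent.MP_735563_an.H20.ForC

set_option autoImplicit false

/-! Row KFor. -/

namespace Pool.Agent.MP_735563_an.H2

theorem fw_snoc (w : List (Fin 4)) (i : Fin 4) : fw (w ++ [i]) = fg i * fw w := by
  induction w with
  | nil => simp [fw]
  | cons b w ih => simp [fw, ih, mul_assoc]

theorem kfor' : KForStmt := by
  classical
  intro V Y n L m k₁ k₂ st β Tg Cl a N₀ j hk h1 h2 h3 h4 hj hN C E hE
  rcases C.eq_empty_or_nonempty with rfl | hC
  · rw [Finset.eq_empty_of_forall_notMem fun e he => Finset.notMem_empty _ (hE e he).1]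
    simp
  refine le_trans (Finset.card_le_card fun e he => ?_) (Cnt.forest_cnt (β := β) (Tg := Tg)
    (Cl := Cl) (k₁ := k₁) (G := fun v => ∀ i z, st v i = some z → j z = a (fg i) (j v))
    h1 h2 h3 h4 hj (fun v i z h => h i z) hk C hC fun v _ => hN v).le
  obtain ⟨g1, ⟨y, g2, g3⟩, g4⟩ := hE e he
  rw [@Finset.mem_filter _ _ (_)]
  refine ⟨by simpa using g1, y, g2, g3, fun s hs z hz i z' hz' => ?_⟩
  have g5 : ((Cnt.wd β e).take s).length ≤ s := List.length_take_le _ _
  rw [g4 _ (by omega) z hz, ← h3 _ _ _ (hN _), ← fw_snoc]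
  exact g4 _ (by simp only [List.length_append, List.length_singleton]; omega) z'
    (by simp [Cnt.run_append, hz, run, hz'])

theorem kfor (_h1 : ForestStmt) (_h2 : TreeStmt) : KForStmt := kfor'

end Pool.Agent.MP_735563_an.H2
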