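import Pool.Agent.MP_735563_an.H34.Spec7
import Pool.Agent.MP_735563_an.H2.MTP

set_option autoImplicit false

/-! Most points follow the free action; averaging over a finite subrelation. -/

open MeasureTheory

namespace Pool.Agent.MP_735563_an.H2

namespace KGood

/-- the points whose words of length at most `j` avoid `B` -/
def Gd {X : Type} (a : Fin 4 → X → X) (B : Set X) : ℕ → Set X
  | 0 => Bᶜ
  | j + 1 => Bᶜ ∩ ⋂ i, a i ⁻¹' Gd a B j

theorem Gd_sub {X : Type} {a : Fin 4 → X → X} {B : Set X} {j : ℕ} {x : X} (h : x ∈ Gd a B j) :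
    x ∉ B := by
  cases j with
  | zero => exact h
  | succ j => exact h.1

theorem Gd_meas {X : Type} [MeasurableSpace X] {ν : Measure X} [IsFiniteMeasure ν]
    {a : Fin 4 → X → X} (ha : ∀ i, MeasurePreserving (a i) ν ν) {B : Set X}
    (hB : MeasurableSet B) (j : ℕ) :
    MeasurableSet (Gd a B j) ∧ ν.real (Gd a B j)ᶜ ≤ 5 ^ j * ν.real B := by
  induction j with
  | zero => exact ⟨hB.compl, by simp [Gd]⟩
  | succ j ih =>
    refine ⟨hB.compl.inter (MeasurableSet.iInter fun i => (ha i).measurable ih.1), ?_⟩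
    rw [Gd, Set.compl_inter, compl_compl, Set.compl_iInter]
    have h1 := measureReal_union_le (μ := ν) B (⋃ i, (a i ⁻¹' Gd a B j)ᶜ)
    have h2 := measureReal_iUnion_fintype_le (μ := ν) fun i => (a i ⁻¹' Gd a B j)ᶜ
    have h3 : ∀ i, ν.real (a i ⁻¹' Gd a B j)ᶜ = ν.real (Gd a B j)ᶜ := fun i =>
      (ha i).measureReal_preimage ih.1.compl.nullMeasurableSet
    simp only [h3, Finset.sum_const, Finset.card_univ, Fintype.card_fin, nsmul_eq_mul,
      Nat.cast_ofNat] at h2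
    have h4 : ν.real B ≤ 5 ^ j * ν.real B :=
      le_mul_of_one_le_left measureReal_nonneg (one_le_pow₀ (by norm_num))
    rw [pow_succ]
    linarith [ih.2]

theorem fg_inv (i : Fin 4) : fg (i + 2) * fg i = 1 := by
  fin_cases i
  exacts [inv_mul_cancel _, inv_mul_cancel _, mul_inv_cancel _, mul_inv_cancel _]

variable {p : ℕ} [NeZero p]

/-- a transversal of `S` for the cosets of `K` -/
def Trv (K : Subgroup (Gam p)) (S : Set (Gam p)) (T : Finset (Gam p)) : Prop :=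
  (∀ t ∈ T, t ∈ S) ∧ (∀ t ∈ T, ∀ t' ∈ T, t' * t⁻¹ ∈ K → t = t') ∧ ∀ u ∈ S, ∃ t ∈ T, t * u⁻¹ ∈ K

theorem ex_trv {K : Subgroup (Gam p)} {S : Set (Gam p)} {D : ℕ}
    (h1 : ∀ k ∈ K, ∀ u ∈ S, k * u ∈ S) (h2 : ∀ u ∈ S, ∃ k ∈ K, len (k * u) ≤ D) :
    ∃ T, Trv K S T := by
  classical
  let o : Gam p → Gam p := fun v => (Quotient.mk (QuotientGroup.rightRel K) v).out
  have ho : ∀ v, o v * v⁻¹ ∈ K := fun v => by
    simpa using inv_mem (QuotientGroup.rightRel_apply.1 (Quotient.mk_out v))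
  refine ⟨((ball p D).filter (· ∈ S)).image o, fun t ht => ?_, fun t ht t' ht' h => ?_,
    fun u hu => ?_⟩
  · obtain ⟨v, hv, rfl⟩ := Finset.mem_image.1 ht
    simpa using h1 _ (ho v) v (Finset.mem_filter.1 hv).2
  · obtain ⟨v, -, rfl⟩ := Finset.mem_image.1 ht
    obtain ⟨v', -, rfl⟩ := Finset.mem_image.1 ht'
    have h3 := Quotient.sound (QuotientGroup.rightRel_apply.2 h)
    rw [Quotient.out_eq, Quotient.out_eq] at h3
    exact congrArg Quotient.out h3
  · obtain ⟨k, hk, h3⟩ := h2 u hu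
    refine ⟨o (k * u), Finset.mem_image_of_mem _
      (Finset.mem_filter.2 ⟨mem_ball.2 h3, h1 k hk u hu⟩), ?_⟩
    simpa [mul_assoc] using mul_mem (ho (k * u)) hk

open Classical in
theorem csum_trv (h : CsumStmt) {K : Subgroup (Gam p)} {S : Set (Gam p)} {D : ℕ}
    (h1 : ∀ k ∈ K, ∀ u ∈ S, k * u ∈ S) (h2 : ∀ u ∈ S, ∃ k ∈ K, len (k * u) ≤ D)
    {T : Finset (Gam p)} (hT : Trv K S T) {g : Gam p → ℝ} (hg : ∀ k ∈ K, ∀ u, g (k * u) = g u) :
    csum K D (fun u => if u ∈ S then g u else 0) = ∑ t ∈ T, g t := by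
  rw [h p K D _ T (fun k hk u => if_congr ⟨fun h3 => by simpa using h1 _ (inv_mem hk) _ h3,
    h1 k hk u⟩ (hg k hk u) rfl) hT.2.1 (fun u _ hu => hT.2.2 u (by_contra fun h3 => hu (if_neg h3)))
    fun t ht _ => (h2 t (hT.1 t ht)).elim fun k hk => ⟨k * t, hk.2, by simpa using hk.1⟩]
  exact Finset.sum_congr rfl fun t ht => if_pos (hT.1 t ht)

end KGood

open KGood

theorem kgood (_h1 : RLocStmt) : KGoodStmt := by
  intro p _ P _ 𝒳 ν _ N₀ a hF
  set B : Set (XS 𝒳) := {x | ∃ k, a (fg k) x ≠ (P.τ x.1 k)⁻¹ • x}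
  set C : Set (XS 𝒳) := {x | P.Coll x.1}
  set K : Set (XS 𝒳) := {x | P.Pack x.1}
  set B' := toMeasurable ν (B ∪ C ∪ K ∪ N₀ᶜ)
  obtain ⟨h2, h3⟩ := Gd_meas (a := fun i => a (fg i)) (fun i => hF.mp _)
    (measurableSet_toMeasurable ν (B ∪ C ∪ K ∪ N₀ᶜ)) P.m
  have h4 : ν.real B' ≤ ν.real B + ν.real C + ν.real K := by
    have e1 : ν.real B' = ν.real (B ∪ C ∪ K ∪ N₀ᶜ) :=
      congrArg ENNReal.toReal (measure_toMeasurable _)
    have e2 : ν.real N₀ᶜ = 0 := by rw [Measure.real, hF.full]; rfl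
    linarith [measureReal_union_le (μ := ν) (B ∪ C ∪ K) N₀ᶜ,
      measureReal_union_le (μ := ν) (B ∪ C) K, measureReal_union_le (μ := ν) B C]
  have h5 : ∀ {j x}, x ∈ Gd (fun i => a (fg i)) B' j →
      (∀ k, a (fg k) x = (P.τ x.1 k)⁻¹ • x) ∧ ¬ P.Out x.1 ∧ x ∈ N₀ := by
    intro j x hx
    have h6 : x ∉ B ∪ C ∪ K ∪ N₀ᶜ := fun h => Gd_sub hx (subset_toMeasurable ν _ h)
    exact ⟨fun k => by_contra fun h => h6 (Or.inl (Or.inl (Or.inl ⟨k, h⟩))),
      fun h => h6 (Or.inl (h.elim (fun h => Or.inl (Or.inr h)) Or.inr)),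
      by_contra fun h => h6 (Or.inr h)⟩
  have key : ∀ (w : List (Fin 4)) j x, w.length ≤ j → x ∈ Gd (fun i => a (fg i)) B' j →
      P.runs x.1 w ∧ (P.pos x.1 w)⁻¹ • x = a (fw w) x := by
    intro w
    induction w with
    | nil =>
      intro j x _ hx
      exact ⟨trivial, by rw [RP.pos, fw, inv_one, one_smul, hF.one x (h5 hx).2.2]⟩
    | cons i w ih =>
      intro j x hj hx
      obtain ⟨j, rfl⟩ : ∃ j', j = j' + 1 := ⟨j - 1, by rw [List.length_cons] at hj; omega⟩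
      obtain ⟨a1, a2, a3⟩ := h5 hx
      have hy : a (fg i) x ∈ Gd (fun i => a (fg i)) B' j := Set.mem_iInter.1 hx.2 i
      obtain ⟨b1, b2, -⟩ := h5 hy
      obtain ⟨c1, c2⟩ := ih j _ (by rw [List.length_cons] at hj; omega) hy
      have b3 := b1 (i + 2)
      rw [← hF.mul _ _ x a3, fg_inv, hF.one x a3, a1, ← mul_smul, ← mul_inv_rev] at b3
      rw [← hF.mul _ _ x a3, a1, ← mul_smul, ← mul_inv_rev] at c2
      rw [a1] at b2 c1
      exact ⟨⟨⟨inv_mem_iff.1 (hF.stab x a3 _ b3.symm), a2, b2⟩, c1⟩, c2⟩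
  exact ⟨_, h2, h3.trans (mul_le_mul_of_nonneg_left h4 (by positivity)), fun x hx =>
    ⟨fun w => (key _ _ x (by simp) hx).1, fun w hw => (key w _ x hw hx).2⟩⟩

theorem kavg (h1 : CsumStmt) (h2 : MTPStmt) : KAvgStmt := by
  intro p _ X _ _ ν _ hν 𝒦 hK hm hfix R D hR h0 hk hsh hD f b hf hb hae
  classical
  let N : X → ℝ := fun x => csum (𝒦 x) D fun u => if u ∈ R x then 1 else 0
  have hN : ∀ x T, Trv (𝒦 x) (R x) T → N x = T.card := fun x T hT => by
    simpa using csum_trv h1 (hk x) (hD x) hT (g := fun _ => 1) fun _ _ _ => rfl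
  have hNm : Measurable N := Finset.measurable_sum _ fun u _ =>
    (Measurable.ite (hR u) measurable_const measurable_const).div (MTP.meas_ncl 𝒦 hm D u)
  have hNs : ∀ x, ∀ u ∈ R x, N (u⁻¹ • x) = N x := fun x u hu => by
    obtain ⟨T, hT⟩ := ex_trv (hk x) (hD x)
    rw [hN x T hT, hN _ (T.image (u⁻¹ * ·)) ⟨?_, ?_, fun v hv => ?_⟩,
      Finset.card_image_of_injective _ (mul_right_injective _)]
    · simp only [Finset.forall_mem_image]
      intro t ht
      simpa [hsh x u hu] using hT.1 t ht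
    · simp only [Finset.forall_mem_image]
      intro t ht t' ht' h
      rw [hT.2.1 t ht t' ht' (by simpa [hK, mem_cjs, mul_assoc] using h)]
    · obtain ⟨t, ht, h⟩ := hT.2.2 _ ((hsh x u hu v).1 hv)
      exact ⟨_, Finset.mem_image_of_mem _ ht, by simpa [hK, mem_cjs, mul_assoc] using h⟩
  have key := h2 p X ν hν 𝒦 hK hm (fun x u => if u ∈ R x then f (u⁻¹ • x) / N x else 0) b D
    (fun u => Measurable.ite (hR u) ((hf.comp (hν u⁻¹).measurable).div hNm) measurable_const)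
    fun x u => by
      obtain ⟨T, hT⟩ := ex_trv (hk x) (hD x)
      split_ifs
      · rw [hN x T hT]
        exact MTP.abs_div_le (hb _) _
      · rw [abs_zero]
        exact (abs_nonneg _).trans (hb x)
  have e : ∀ x, (csum (𝒦 x) D fun u => if u⁻¹ ∈ R (u⁻¹ • x) then
      f (u⁻¹⁻¹ • u⁻¹ • x) / N (u⁻¹ • x) else 0) = f x := fun x => by
    obtain ⟨T, hT⟩ := ex_trv (hk x) (hD x)
    have e1 : (fun u : Gam p => if u⁻¹ ∈ R (u⁻¹ • x) then
        f (u⁻¹⁻¹ • u⁻¹ • x) / N (u⁻¹ • x) else 0) =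
        fun u => if u ∈ R x then f x / N x else 0 := by
      funext u
      by_cases hu : u ∈ R x
      · rw [if_pos hu, if_pos ((hsh x u hu _).2 (by simpa using h0 x)), hNs x u hu,
          inv_smul_smul]
      · rw [if_neg hu, if_neg fun h => hu (by simpa [h0] using hsh _ _ h u)]
    obtain ⟨t, ht, -⟩ := hT.2.2 1 (h0 x)
    have e2 : (T.card : ℝ) ≠ 0 := Nat.cast_ne_zero.2 (Finset.card_ne_zero.2 ⟨t, ht⟩)
    rw [e1, csum_trv h1 (hk x) (hD x) hT fun _ _ _ => rfl, Finset.sum_const, nsmul_eq_mul,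
      hN x T hT, mul_div_cancel₀ _ e2]
  simp only [e] at key
  rw [← key]
  refine integral_nonpos_of_ae (hae.mono fun x hx => ?_)
  obtain ⟨T, hT⟩ := ex_trv (hk x) (hD x)
  change csum _ _ _ ≤ 0
  rw [csum_trv h1 (hk x) (hD x) hT fun k hk u => by
    rw [mul_inv_rev, mul_smul, hfix x _ (inv_mem hk)], ← Finset.sum_div, hN x T hT]
  exact div_nonpos_of_nonpos_of_nonneg (hx T hT.1 hT.2.1 hT.2.2) (Nat.cast_nonneg _)

end Pool.Agent.MP_735563_an.H2
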