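import Pool.Agent.MP_735563_an.H34.Spec7

set_option autoImplicit false

/-! Row KPack: few points are packed. -/

open MeasureTheory

namespace Pool.Agent.MP_735563_an.H2

namespace KPack

variable {p : ℕ} [NeZero p] {P : RP p} {𝒳 : XD p} {ν : Measure (XS 𝒳)} {N₀ : Set (XS 𝒳)}
  {a : FreeGroup (Fin 2) → XS 𝒳 → XS 𝒳}

theorem meas_bad {i r : ℕ} (hτ : LocA i r P.τ) (hF : FreeOn ν N₀ a) :
    MeasurableSet {x : XS 𝒳 | ∃ k, a (fg k) x ≠ (P.τ x.1 k)⁻¹ • x} := by
  have e : {x : XS 𝒳 | ∃ k, a (fg k) x ≠ (P.τ x.1 k)⁻¹ • x} = ⋃ k, ⋃ u : Gam p,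
      {x : XS 𝒳 | P.τ x.1 k = u} ∩ {x : XS 𝒳 | a (fg k) x = u⁻¹ • x}ᶜ := by
    ext x
    simp
  rw [e]
  exact MeasurableSet.iUnion fun k => MeasurableSet.iUnion fun u =>
    (XS.clopen (hτ.comp fun t => t k = u)).isOpen.measurableSet.inter
      (measurableSet_eq_fun (hF.mp _).measurable (XS.cont_smul _).measurable).compl

open Classical in
theorem count (h2 : FreeCntStmt) (hF : FreeOn ν N₀ a) {x : XS 𝒳} (hx : x ∈ N₀)
    {σ : Finset (Gam p)} (hd : P.Dense x.1 σ) :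
    σ.card ≤ 4 * (σ.filter fun s =>
      s⁻¹ • x ∈ {x : XS 𝒳 | ∃ k, a (fg k) x ≠ (P.τ x.1 k)⁻¹ • x}).card := by
  have h3 := h2 _ a N₀ hF.inv hF.one hF.mul hF.free (σ.image fun s => s⁻¹ • x) fun y hy => by
    obtain ⟨s, -, rfl⟩ := Finset.mem_image.1 hy
    exact hF.smul _ x hx
  have h4 : ((σ ×ˢ (Finset.univ : Finset (Fin 4))).filter fun q =>
      a (fg q.2) (q.1⁻¹ • x) ∈ σ.image fun s => s⁻¹ • x).card ≤ 2 * σ.card := by
    refine le_trans (Finset.card_le_card_of_injOn (fun q => (q.1⁻¹ • x, q.2)) ?_ ?_)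
      (h3.trans (Nat.mul_le_mul_left 2 Finset.card_image_le))
    · intro q hq
      have hq' := Finset.mem_filter.1 hq
      exact Finset.mem_filter.2 ⟨Finset.mem_product.2 ⟨Finset.mem_image_of_mem _
        (Finset.mem_product.1 hq'.1).1, Finset.mem_univ _⟩, hq'.2⟩
    · intro q hq q' hq' e
      have e1 : q.1⁻¹ • x = q'.1⁻¹ • x := congrArg Prod.fst e
      have e2 : q.2 = q'.2 := (Prod.ext_iff.1 e).2
      refine Prod.ext (hd.1 _ (Finset.mem_product.1 (Finset.mem_filter.1 hq).1).1 _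
        (Finset.mem_product.1 (Finset.mem_filter.1 hq').1).1 (hF.stab x hx _ ?_)) e2
      rw [mul_smul, e1, smul_inv_smul]
  have h5 := hd.2.trans_le ((Finset.card_le_card (t := ((σ ×ˢ (Finset.univ : Finset (Fin 4))).filter
      fun q => a (fg q.2) (q.1⁻¹ • x) ∈ σ.image fun s => s⁻¹ • x) ∪ (σ.filter fun s =>
      s⁻¹ • x ∈ {x : XS 𝒳 | ∃ k, a (fg k) x ≠ (P.τ x.1 k)⁻¹ • x}) ×ˢ Finset.univ) ?_).trans
      (Finset.card_union_le _ _))
  · rw [Finset.card_product, Finset.card_univ, Fintype.card_fin] at h5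
    omega
  · intro q hq
    obtain ⟨q1, -, t, ht, q2⟩ := Finset.mem_filter.1 hq
    by_cases hb : q.1⁻¹ • x ∈ {x : XS 𝒳 | ∃ k, a (fg k) x ≠ (P.τ x.1 k)⁻¹ • x}
    · exact Finset.mem_union_right _ (Finset.mem_product.2
        ⟨Finset.mem_filter.2 ⟨(Finset.mem_product.1 q1).1, hb⟩, Finset.mem_univ _⟩)
    · refine Finset.mem_union_left _ (Finset.mem_filter.2 ⟨q1, Finset.mem_image.2 ⟨t, ht, ?_⟩⟩)
      rw [not_not.1 fun h => hb ⟨q.2, h⟩, ← mul_smul, ← mul_inv_rev, inv_smul_eq_iff, ← mul_smul]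
      exact (XS.smul_of_mem q2).symm

theorem integ (h2 : FreeCntStmt) (hF : FreeOn ν N₀ a) {i r : ℕ} (hτ : LocA i r P.τ)
    {σ : Finset (Gam p)} {A : Set (XS 𝒳)} (hA : MeasurableSet A) (hd : ∀ x ∈ A, P.Dense x.1 σ) :
    σ.card * ν A ≤ 4 * ∑ s ∈ σ, ν (A ∩ (fun x => s⁻¹ • x) ⁻¹'
      {x : XS 𝒳 | ∃ k, a (fg k) x ≠ (P.τ x.1 k)⁻¹ • x}) := by
  classical
  have hm : ∀ s : Gam p, MeasurableSet (A ∩ (fun x => s⁻¹ • x) ⁻¹'
      {x : XS 𝒳 | ∃ k, a (fg k) x ≠ (P.τ x.1 k)⁻¹ • x}) := fun s =>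
    hA.inter ((XS.cont_smul _).measurable (meas_bad hτ hF))
  simp_rw [← lintegral_indicator_one (hm _)]
  rw [← lintegral_indicator_const hA,
    ← lintegral_finsetSum _ fun s _ => measurable_one.indicator (hm s),
    ← lintegral_const_mul' _ _ (by simp)]
  refine lintegral_mono_ae ?_
  filter_upwards [show ∀ᵐ x ∂ν, x ∈ N₀ from hF.full] with x hx
  by_cases hxA : x ∈ A
  · have h := count h2 hF hx (hd x hxA)
    rw [Finset.card_filter] at h
    rw [Set.indicator_of_mem hxA]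
    refine (Nat.cast_le.2 h).trans (le_of_eq ?_)
    push_cast
    congr 1
    refine Finset.sum_congr rfl fun s _ => ?_
    simp [Set.indicator_apply, hxA]
  · rw [Set.indicator_of_notMem hxA]
    exact bot_le

end KPack

open KPack in
theorem kpack (h1 : RLocStmt) (h2 : FreeCntStmt) : KPackStmt := by
  intro p _ P hP 𝒳 ν _ hν N₀ a hF
  obtain ⟨⟨r, hτ, -⟩, -, hL, -⟩ := h1 p P hP
  have hB := meas_bad hτ hF
  have hint := fun σ A => integ (σ := σ) (A := A) h2 hF hτ
  generalize {x : XS 𝒳 | ∃ k, a (fg k) x ≠ (P.τ x.1 k)⁻¹ • x} = B at hB hint ⊢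
  have key : ∀ L : List (ℕ × Finset (Gam p)), (∀ q ∈ L, ∀ s ∈ q.2, len s ≤ P.R) →
      ν {x | P.Cov L x.1} ≤ 4 * ν (B ∩ {x | P.Cov L x.1}) := by
    intro L
    induction L with
    | nil => intro _; simp [RP.Cov]
    | cons q L ih =>
      intro hq
      obtain ⟨r', l1, l2⟩ := hL L q
      have hC : MeasurableSet {x : XS 𝒳 | P.Cov L x.1} := (XS.clopen l1).isOpen.measurableSet
      have hA : MeasurableSet {x : XS 𝒳 | P.Act q (P.Cov L) x.1} :=
        (XS.clopen l2).isOpen.measurableSet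
      set A := {x : XS 𝒳 | P.Act q (P.Cov L) x.1}
      have hAs : ∀ s : Gam p, MeasurableSet ((fun x : XS 𝒳 => s • x) ⁻¹' A) := fun s =>
        (hν s).measurable hA
      have e : {x : XS 𝒳 | P.Cov (q :: L) x.1} =
          {x : XS 𝒳 | P.Cov L x.1} ∪ ⋃ s ∈ q.2, (fun x : XS 𝒳 => s • x) ⁻¹' A := by
        ext x
        simp [RP.Cov, A, pt, XS.smul_val]
      have d1 : Disjoint (B ∩ {x : XS 𝒳 | P.Cov L x.1})
          (⋃ s ∈ q.2, B ∩ (fun x : XS 𝒳 => s • x) ⁻¹' A) := by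
        refine Set.disjoint_left.2 fun x hx hx' => ?_
        obtain ⟨s, hs, -, h⟩ := Set.mem_iUnion₂.1 hx'
        refine h.2.2.2 s hs ?_
        change P.Cov L (s⁻¹ • s • x).1
        rw [inv_smul_smul]
        exact hx.2
      have d2 : Set.PairwiseDisjoint (↑q.2 : Set (Gam p))
          fun s => B ∩ (fun x : XS 𝒳 => s • x) ⁻¹' A := by
        intro s hs t ht hne
        refine Set.disjoint_left.2 fun x hx hx' => hne ?_
        have a1 : P.Act q (P.Cov L) (s • x).1 := hx.2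
        have a2 : P.Act q (P.Cov L) (t • x).1 := hx'.2
        refine (a1.2.2.1.1 t ht s hs (not_not.1 fun h => a1.2.1 ⟨_, ?_, h, ?_⟩)).symm
        · have := len_mul_le s t⁻¹
          have := hq q List.mem_cons_self s hs
          have := hq q List.mem_cons_self t ht
          rw [len_inv] at *
          omega
        · change P.col ((s * t⁻¹)⁻¹ • s • x).1 = _
          rw [← mul_smul, mul_inv_rev, inv_inv, inv_mul_cancel_right, a1.1, a2.1]
      have e2 : ∀ s : Gam p, ν (A ∩ (fun x => s⁻¹ • x) ⁻¹' B) =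
          ν (B ∩ (fun x : XS 𝒳 => s • x) ⁻¹' A) := fun s => by
        rw [← (hν s).measure_preimage (hA.inter ((hν _).measurable hB)).nullMeasurableSet]
        congr 1
        ext x
        simp [and_comm]
      have h3 := hint q.2 A hA fun x hx => hx.2.2.1
      simp_rw [e2] at h3
      rw [e, Set.inter_union_distrib_left, Set.inter_iUnion₂, measure_union d1
        (Finset.measurableSet_biUnion _ fun s _ => hB.inter (hAs s)),
        measure_biUnion_finset d2 fun s _ => hB.inter (hAs s), mul_add]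
      refine (measure_union_le _ _).trans (add_le_add
        (ih fun q' hq' => hq q' (List.mem_cons_of_mem _ hq'))
        ((measure_biUnion_finset_le _ _).trans (le_trans (le_of_eq ?_) h3)))
      rw [Finset.sum_congr rfl fun s _ => (hν s).measure_preimage hA.nullMeasurableSet,
        Finset.sum_const, nsmul_eq_mul]
  have h3 := (key P.rounds fun q hq s hs => mem_ball.1 (Finset.mem_powerset.1
    (Finset.mem_product.1 (Finset.mem_toList.1 hq)).2 hs)).trans
    (mul_le_mul_right (measure_mono Set.inter_subset_left) 4)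
  have h4 := ENNReal.toReal_mono (ENNReal.mul_ne_top (by simp) (measure_ne_top _ _)) h3
  rw [ENNReal.toReal_mul] at h4
  exact h4.trans (le_of_eq (by simp [Measure.real]))

end Pool.Agent.MP_735563_an.H2
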