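import Pool.Agent.MP_735563_an.H34.Spec4

set_option autoImplicit false

/-! Row Lim: the limit measure. -/

open MeasureTheory Filter Topology
open scoped BigOperators

namespace Pool.Agent.MP_735563_an.H2

namespace Lim

variable {p : ℕ}

/-- the space without the closed condition -/
def big (𝒳 : XD p) : XD p := ⟨𝒳.B, fun _ => True, 𝒳.low, fun _ _ => trivial⟩

/-- the inclusion -/
def inc (𝒳 : XD p) (x : XS 𝒳) : XS (big 𝒳) := ⟨x.1, x.2.1, x.2.2.1, fun _ => trivial⟩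

theorem inc_emb [NeZero p] (𝒳 : XD p) : MeasurableEmbedding (inc 𝒳) :=
  Continuous.measurableEmbedding (XS.isEmb.continuous_iff.2 XS.isEmb.continuous)
    fun _ _ h => Subtype.ext (congrArg (fun y : XS (big 𝒳) => y.1) h)

theorem loc_agree (i r : ℕ) (M : MS p) : LocA i r (Agree i r M) := fun _ _ h =>
  propext ⟨fun a => a.trans h, fun a => a.trans h.symm⟩

theorem exists_big [NeZero p] (𝒳 : XD p) {S : Type} (ℱ : ℕ → Finset S) (w : S → ℝ)
    (e : S → MS p) (h1 : ∀ t, ∀ s ∈ ℱ t, 0 ≤ w s ∧ Inv (e s) ∧ ∀ x κ, (e s).1 x κ ≤ 𝒳.B κ)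
    (h2 : ∀ t, ∑ s ∈ ℱ t, w s = 1) : ∃ μ : Measure (XS (big 𝒳)), IsProbabilityMeasure μ ∧
      ∀ (i r : ℕ) (Φ : MS p → ℝ) (c : ℝ), LocA i r Φ →
        (∀ᶠ t in atTop, ∑ s ∈ ℱ t, w s * Φ (e s) ≤ c) → ∫ x, Φ x.1 ∂μ ≤ c := by
  let pt : ∀ t, ℱ t → XS (big 𝒳) := fun t s =>
    ⟨e s, (h1 t s s.2).2.1, (h1 t s s.2).2.2, fun _ => trivial⟩
  let μs : ℕ → Measure (XS (big 𝒳)) := fun t =>
    ∑ s ∈ (ℱ t).attach, ENNReal.ofReal (w s) • Measure.dirac (pt t s)
  have hp : ∀ t, IsProbabilityMeasure (μs t) := fun t => ⟨by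
    simp only [μs, Measure.coe_finsetSum, Finset.sum_apply, Measure.smul_apply, measure_univ,
      smul_eq_mul, mul_one]
    rw [Finset.sum_attach (ℱ t) fun s => ENNReal.ofReal (w s),
      ← ENNReal.ofReal_sum_of_nonneg fun s hs => (h1 t s hs).1, h2, ENNReal.ofReal_one]⟩
  obtain ⟨μ, hμ, h⟩ := Gen1.exists_lim μs
  refine ⟨μ, hμ, fun i r Φ c hΦ hc => h _ c (XS.cont hΦ) (hc.mono fun t ht => ?_)⟩
  rw [integral_finsetSum_measure fun s _ =>
    (Gen1.integ (XS.cont hΦ) _).smul_measure ENNReal.ofReal_ne_top]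
  refine le_of_eq_of_le ?_ ht
  rw [← Finset.sum_attach (ℱ t)]
  refine Finset.sum_congr rfl fun s _ => ?_
  rw [integral_smul_measure, integral_dirac, ENNReal.toReal_ofReal (h1 t s s.2).1, smul_eq_mul]

theorem mp_all [NeZero p] {𝒳 : XD p} {μ : Measure (XS 𝒳)}
    (h : ∀ g : Gam p, len g ≤ 1 → MeasurePreserving (fun x : XS 𝒳 => g • x) μ μ) (g : Gam p) :
    MeasurePreserving (fun x : XS 𝒳 => g • x) μ μ := by
  obtain ⟨l, -, rfl⟩ := exists_len g
  induction l with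
  | nil => exact h _ (by rw [lprod_nil, len_one]; exact Nat.zero_le _)
  | cons q l ih =>
    have := (h _ (len_gen_le q.1 q.2)).comp ih
    rw [lprod_cons]
    simpa only [Function.comp_def, mul_smul] using this

end Lim

theorem limS : LimStmt := by
  intro p _ 𝒳 C S ℱ w e hC hX h1 h2 h3 h4
  classical
  obtain ⟨μ, hμ, key⟩ := Lim.exists_big 𝒳 ℱ w e h1 h2
  have hinv : ∀ g : Gam p, MeasurePreserving (fun x : XS (Lim.big 𝒳) => g • x) μ μ := by
    refine Lim.mp_all fun g hg => Gen1.mp_of_clopen μ (XS.cont_smul g) fun D hD => ?_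
    obtain ⟨r, hr⟩ := XS.exists_loc (τ := fun x => x ∈ D) (by
      refine (IsLocallyConstant.iff_eventually_eq _).2 fun x => ?_
      by_cases hx : x ∈ D
      · exact mem_of_superset (hD.isOpen.mem_nhds hx) fun y hy => propext (iff_of_true hy hx)
      · exact mem_of_superset (hD.compl.isOpen.mem_nhds hx) fun y hy =>
          propext (iff_of_false hy hx))
    let Φ : MS p → ℝ := ind fun M => ∃ x ∈ D, Agree r r x.1 M
    have hΦ : LocA r r Φ := fun M M' a => by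
      have : (∃ x ∈ D, Agree r r x.1 M) ↔ ∃ x ∈ D, Agree r r x.1 M' :=
        ⟨fun ⟨x, hx, b⟩ => ⟨x, hx, b.trans a⟩, fun ⟨x, hx, b⟩ => ⟨x, hx, b.trans a.symm⟩⟩
      simp only [Φ, ind, this]
    have hΦ' : ∀ y : XS (Lim.big 𝒳), D.indicator (fun _ => (1 : ℝ)) y = Φ y.1 := fun y => by
      have : (∃ x ∈ D, Agree r r x.1 y.1) ↔ y ∈ D :=
        ⟨fun ⟨x, hx, b⟩ => hr x y b ▸ hx, fun hy => ⟨y, hy, Agree.refl _ _ _⟩⟩
      simp only [Φ, ind, this, Set.indicator_apply]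
    simp only [hΦ', XS.smul_val]
    refine key r (len g + r) (fun M => Φ (trM g M) - Φ M) 0 (fun M M' a => ?_)
      ((h4 r r Φ g hΦ hg).mono fun t ht => ?_)
    · have a1 := hΦ.trM g M M' a
      have a2 := hΦ.mono le_rfl (Nat.le_add_left r (len g)) M M' a
      simp only at a1 ⊢
      rw [a1, a2]
    · simp only [mul_sub, Finset.sum_sub_distrib, ht, sub_self, le_refl]
  have hnull : ∀ j g, ∀ᵐ x ∂μ, C j (trM g x.1) := by
    intro j g
    refine measure_null_of_locally_null _ fun x hx => ?_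
    have hx' : ¬ ∀ i r, ∃ M', Agree i r x.1 M' ∧ C j (trM g M') := fun h =>
      hx ((hC j).trM g x.1 h)
    push Not at hx'
    obtain ⟨i, r, hir⟩ := hx'
    refine ⟨{y | Agree i r x.1 y.1}, mem_nhdsWithin_of_mem_nhds (XS.agree_nhds i r x), ?_⟩
    have hm : MeasurableSet {y : XS (Lim.big 𝒳) | Agree i r x.1 y.1} :=
      (XS.clopen (Lim.loc_agree i r x.1)).isOpen.measurableSet
    have h5 := key i r (ind (Agree i r x.1)) 0
      (fun M M' a => by simp only [ind, Lim.loc_agree i r x.1 M M' a])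
      ((h3 j g).mono fun t ht => (Finset.sum_eq_zero fun s hs => by
        have : ¬ Agree i r x.1 (e s) := fun a => hir _ a (ht s hs)
        simp [ind, this]).le)
    have h6 : (fun y : XS (Lim.big 𝒳) => ind (Agree i r x.1) y.1) =
        {y : XS (Lim.big 𝒳) | Agree i r x.1 y.1}.indicator fun _ => (1 : ℝ) := by
      funext y
      simp only [ind, Set.indicator_apply, Set.mem_ofPred_eq]
    rw [h6, integral_indicator_const _ hm, smul_eq_mul, mul_one] at h5
    exact (measureReal_eq_zero_iff (measure_ne_top _ _)).1 (le_antisymm h5 measureReal_nonneg)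
  have hι := Lim.inc_emb 𝒳
  have hr : ∀ᵐ x ∂μ, x ∈ Set.range (Lim.inc 𝒳) := by
    filter_upwards [ae_all_iff.2 fun j => ae_all_iff.2 fun g => hnull j g] with x hx
    exact ⟨⟨x.1, x.2.1, x.2.2.1, fun g => hX _ fun j => hx j g⟩, rfl⟩
  have hmap : (μ.comap (Lim.inc 𝒳)).map (Lim.inc 𝒳) = μ := by
    rw [hι.map_comap, Measure.restrict_eq_self_of_ae_mem hr]
  refine ⟨μ.comap (Lim.inc 𝒳), hι.isProbabilityMeasure_comap hr, fun g => ?_,
    fun i r Φ c hΦ hc => ?_⟩
  · have hg := (XS.cont_smul (𝒳 := 𝒳) g).measurable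
    refine ⟨hg, hι.map_injective ?_⟩
    rw [Measure.map_map hι.measurable hg, hmap]
    have : Lim.inc 𝒳 ∘ (fun x : XS 𝒳 => g • x) = (fun x => g • x) ∘ Lim.inc 𝒳 := rfl
    rw [this, ← Measure.map_map (hinv g).measurable hι.measurable, hmap, (hinv g).map_eq]
  · have h5 := key i r Φ c hΦ hc
    rw [← hmap, hι.integral_map] at h5
    exact h5

end Pool.Agent.MP_735563_an.H2
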