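import Pool.Agent.MP_735563_an.H34.Spec4
import Pool.Agent.MP_735563_an.H2.Ball

set_option autoImplicit false

/-! Row Marg: consistency of the marginals and approximate invariance. -/

namespace Pool.Agent.MP_735563_an.H2

namespace Marg

variable {p : ℕ} {𝔇 : ℕ → Lev p}

/-- refinement of a family of pairwise conflicting states -/
theorem refine_sum (F G : Finset (St p)) (e : St p → St p) (w : St p → ℚ) (Φ Ψ : St p → ℝ)
    (hF : ∀ a ∈ F, ∀ b ∈ F, a ≠ b → Incomp (e a) (e b)) (h1 : ∑ s ∈ F, w s = 1)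
    (h2 : ∑ s ∈ G, w s = 1) (h0 : ∀ s ∈ G, 0 ≤ w s)
    (h : ∀ s ∈ F, ∃ H : Finset (St p), (∀ o ∈ H, o ∈ G ∧ Le (e s) o ∧ Φ o = Ψ s) ∧
      ∑ o ∈ H, w o = w s) :
    ∑ o ∈ G, (w o : ℝ) * Φ o = ∑ s ∈ F, (w s : ℝ) * Ψ s := by
  classical
  choose! H hH hs using h
  have hd : (F : Set (St p)).PairwiseDisjoint H := fun a ha b hb hab =>
    Finset.disjoint_left.2 fun o h3 h4 =>
      not_incomp (hH a ha o h3).2.1 (hH b hb o h4).2.1 (hF a ha b hb hab)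
  have hU : F.biUnion H ⊆ G := fun o ho => by
    obtain ⟨s, h3, h4⟩ := Finset.mem_biUnion.1 ho
    exact (hH s h3 o h4).1
  have h3 : ∑ o ∈ F.biUnion H, w o = 1 := by
    rw [Finset.sum_biUnion hd, ← h1]; exact Finset.sum_congr rfl hs
  have h4 : ∑ o ∈ G \ F.biUnion H, w o = 0 := by
    have := Finset.sum_sdiff (f := w) hU
    linarith
  have h5 := (Finset.sum_eq_zero_iff_of_nonneg fun o ho => h0 o (Finset.mem_sdiff.1 ho).1).1 h4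
  rw [← Finset.sum_sdiff hU, Finset.sum_eq_zero fun o ho => by rw [h5 o ho]; simp, zero_add,
    Finset.sum_biUnion hd]
  refine Finset.sum_congr rfl fun s h6 => ?_
  rw [← hs s h6, Rat.cast_sum, Finset.sum_mul]
  exact Finset.sum_congr rfl fun o ho => by rw [(hH s h6 o ho).2.2]

/-- a complete ball looks the same in every extension -/
theorem agree (hI : IRStmt) {N t r : ℕ} (hT : Th 𝔇 t) (hN : N ≤ t) {s o : St p}
    (hs : ValZ 𝔇 N s) (ho : Good 𝔇 t o) (hl : Le s o)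
    (hc : ∀ u, len u ≤ 2 * r + (𝔇 N).δ → Comp 𝔇 N s u) (hg : N < t → 4 * r < (𝔇 (N + 1)).g) :
    Agree (N + 1) r (s, Kall 𝔇 s) (o, Kall 𝔇 o) := by
  have hG := hT.2.1 N hN
  have ho' : ValZ 𝔇 N o := ho.1.1.mono hN
  refine ⟨fun u hu κ h1 h2 => ((hG.2.1 s o hs ho' hl u (hc u (by omega))).2 κ h1 (by omega)).symm,
    fun u hu => ⟨fun h => Kall_mono hl h, fun h => ?_⟩⟩
  have h1 : u ∈ K 𝔇 t o := by rw [← Kall_eq ho.2.1]; exact h
  have h2 : u ∈ K 𝔇 N o := by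
    rcases Nat.eq_or_lt_of_le hN with rfl | h3
    · exact h1
    · refine hI p 𝔇 t (N + 1) hT (by omega) h3 o ho.1.1 1 u h1 ?_
      have h4 := dj_le_len (𝔇 := 𝔇) N o 1 u
      have h5 := hg h3
      rw [one_mul] at h4
      rw [mul_one, Nat.add_sub_cancel]
      omega
  have h3 := hG.2.2.1 s o hs ho' hl 1 u (fun v hv => by rw [one_mul]; exact hc v (by omega))
    (by simpa using h2)
  exact K_le_Kall N s (by simpa using h3)

/-- the same at one level -/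
theorem agree0 {N r : ℕ} (hT : Th 𝔇 N) {s o : St p}
    (hs : ValZ 𝔇 N s) (ho : Good 𝔇 N o) (hl : Le s o)
    (hc : ∀ u, len u ≤ 2 * r + (𝔇 N).δ → Comp 𝔇 N s u) :
    Agree (N + 1) r (s, Kall 𝔇 s) (o, Kall 𝔇 o) := by
  have hG := hT.2.1 N le_rfl
  refine ⟨fun u hu κ h1 h2 =>
    ((hG.2.1 s o hs ho.1.1 hl u (hc u (by omega))).2 κ h1 (by omega)).symm,
    fun u hu => ⟨fun h => Kall_mono hl h, fun h => ?_⟩⟩
  have h1 : u ∈ K 𝔇 N o := by rw [← Kall_eq ho.2.1]; exact h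
  have h3 := hG.2.2.1 s o hs ho.1.1 hl 1 u (fun v hv => by rw [one_mul]; exact hc v (by omega))
    (by simpa using h1)
  exact K_le_Kall N s (by simpa using h3)

theorem ball_comp {N R : ℕ} {s : St p} (hs : IsBall 𝔇 N R s) {u : Gam p} (hu : len u ≤ R) :
    Comp 𝔇 N s u := by
  refine hs.2.1.comp ?_
  rw [hs.2.2]
  exact ⟨1, subset_Sat _ _ rfl, u, hu, (one_mul u).symm⟩

theorem up1 [NeZero p] (hA : AllStmt) {i : ℕ} (hT : Th 𝔇 (i + 1)) {s : St p}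
    (hs : IsBall 𝔇 i (𝔇 (i + 1)).θ s) (R : ℕ) :
    Reach 𝔇 (i + 1) s (IsBall 𝔇 (i + 1) R) (fun _ => False) :=
  (((hA p 𝔇 i).2.2.2.1 hT s hs).mono (fun _ _ _ h => h) fun _ _ _ h => h.elim).bind
    fun s' _ _ h => ((grow p 𝔇 (i + 1) hT (hA p 𝔇 (i + 1)).1 s' 0 h).1 R (Nat.zero_le R)).mono
      (fun _ _ _ h => h) fun _ _ _ h => h.elim

theorem chain [NeZero p] (hA : AllStmt) (hT : ∀ n, Th 𝔇 n) {i : ℕ} {s : St p}
    (hs : IsBall 𝔇 i (𝔇 (i + 1)).θ s) {t : ℕ} (ht : i < t) :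
    ∀ R, Reach 𝔇 t s (IsBall 𝔇 t R) (fun _ => False) := by
  induction ht with
  | refl => exact up1 hA (hT _) hs
  | @step t _ ih =>
    exact fun R => ((ih (𝔇 (t + 1)).θ).lift (Nat.le_succ t)).bind
      fun s' _ _ h => up1 hA (hT _) h R

theorem incomp_tr {a b : St p} (h : Incomp a b) (g : Gam p) : Incomp (tr g a) (tr g b) := by
  obtain ⟨x, κ, h1⟩ := h
  exact ⟨g * x, κ, by rwa [tr_apply, tr_apply]⟩

theorem shift [NeZero p] (h1 : FamStmt) (hA : AllStmt) {t : ℕ} (hT : Th 𝔇 t) {r R : ℕ}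
    {Φ : MS p → ℝ} (hΦ : LocA (t + 1) r Φ) (hR : 2 * r + (𝔇 t).δ + 1 ≤ R) {g : Gam p}
    (hg : len g ≤ 1) : EB 𝔇 t R (fun M => Φ (trM g M)) = EB 𝔇 t (R + 1) Φ := by
  obtain ⟨F, a1, -, a2, a3, -⟩ := h1 p 𝔇 t hT (hA p 𝔇 t).2.2.1 R
  obtain ⟨G, b1, -, -, b3, -⟩ := h1 p 𝔇 t hT (hA p 𝔇 t).2.2.1 (R + 1)
  rw [EB, EB, mem_famB a1, mem_famB b1]
  refine (refine_sum F G (tr g) (W 𝔇) _ _ (fun a ha b hb hab => incomp_tr (a2 a ha b hb hab) g)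
    a3 b3 (fun s hs => (W_pos hT.1 ((b1 s).1 hs).1).le) fun s hs => ?_).symm
  have hs' := (a1 s).1 hs
  obtain ⟨H, c1, -, c2, -⟩ := (grow p 𝔇 t hT (hA p 𝔇 t).1 s R hs').2 g hg
  refine ⟨H, fun o ho => ⟨(b1 o).2 (c1 o ho).2.2.1, (c1 o ho).2.1, ?_⟩, by rw [c2, W_tr hs'.1]⟩
  have e : trM g (s, Kall 𝔇 s) = (tr g s, Kall 𝔇 (tr g s)) := by rw [Kall_tr]; rfl
  rw [e]
  refine (hΦ _ _ (agree0 hT (hs'.1.tr g).1.1 (c1 o ho).1 (c1 o ho).2.1 fun u hu => ?_)).symm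
  have h2 := len_mul_le g⁻¹ u
  rw [len_inv] at h2
  have h3 := (Comp_tr (g := g)).2 (ball_comp hs' (u := g⁻¹ * u) (by omega))
  rwa [mul_inv_cancel_left] at h3

end Marg

theorem margS (h1 : FamStmt) (h2 : IRStmt) : MargStmt := by
  intro hA p _ 𝔇 hT i r Φ hΦ hr t R ht
  obtain ⟨F, a1, -, a2, a3, -⟩ := h1 p 𝔇 i (hT i) (hA p 𝔇 i).2.2.1 (𝔇 (i + 1)).θ
  obtain ⟨G, b1, -, -, b3, -⟩ := h1 p 𝔇 t (hT t) (hA p 𝔇 t).2.2.1 R
  rw [EB, EB, mem_famB a1, mem_famB b1]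
  refine Marg.refine_sum F G id (W 𝔇) _ _ a2 a3 b3
    (fun s hs => (W_pos (hT t).1 ((b1 s).1 hs).1).le) fun s hs => ?_
  have hs' := (a1 s).1 hs
  obtain ⟨H, c1, -, c2, -⟩ := Marg.chain hA hT hs' ht R
  refine ⟨H, fun o ho => ⟨(b1 o).2 (c1 o ho).2.2.1, (c1 o ho).2.1, ?_⟩, c2⟩
  refine (hΦ _ _ (Marg.agree h2 (hT t) ht.le hs'.1.1.1 (c1 o ho).1 (c1 o ho).2.1
    (fun u hu => Marg.ball_comp hs' (hu.trans hr)) fun _ => ?_)).symm
  have hO := (hT (i + 1)).ok (i := i + 1) (by omega) le_rfl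
  have d1 := hO.2.1.θ
  have d2 := hO.scale.2.2.1
  omega

theorem invB (h1 : FamStmt) : InvBStmt := by
  intro hA p _ 𝔇 t hT r R Φ g hΦ hR hg
  rw [Marg.shift h1 hA hT hΦ hR hg, ← Marg.shift h1 hA hT hΦ hR (g := 1) (by rw [len_one]; omega)]
  simp only [trM_one]

end Pool.Agent.MP_735563_an.H2
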