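import Pool.Agent.MP_735563_an.H34.Spec4

set_option autoImplicit false

/-! The recursion over the levels. -/

namespace Pool.Agent.MP_735563_an.H2

namespace Rec

variable {p : ℕ}

/-- the invariant of the recursion -/
def P (N : Fin 3 → Subgroup (Gam p)) (k : ℕ) (D : ℕ → Lev p) : Prop :=
  (D 0).δ = 2 ∧ (∀ i, 1 ≤ i → i ≤ k + 1 → OK D i) ∧ L1 D N ∧ ∀ j, k + 1 < j → 0 < (D j).nE

theorem l1_congr {N : Fin 3 → Subgroup (Gam p)} {D D' : ℕ → Lev p} (h : D 1 = D' 1)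
    (h1 : L1 D N) : L1 D' N := by
  unfold L1 at h1 ⊢
  rw [← h]
  exact h1

theorem step (h : CongStmt) {N : Fin 3 → Subgroup (Gam p)} {Q : ℕ → Lev p → Lev p → Prop}
    (hs : ∀ (𝔇 : ℕ → Lev p) (i : ℕ), 2 ≤ i → OKs 𝔇 (i - 1) → L1 𝔇 N →
      ∃ A : Lev p, OK (Function.update 𝔇 i A) i ∧ Q i (𝔇 (i - 1)) A)
    (k : ℕ) (D : ℕ → Lev p) (hD : P N k D) :
    ∃ D', P N (k + 1) D' ∧ Ag D (k + 1) D' ∧ Q (k + 2) (D (k + 1)) (D' (k + 2)) := by
  obtain ⟨A, hA, hQ⟩ := hs D (k + 2) (by omega)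
    ⟨hD.1, hD.2.1, hD.2.2.2 _ (by omega)⟩ hD.2.2.1
  have hag : Ag D (k + 1) (Function.update D (k + 2) A) := fun i hi => by
    rw [Function.update_of_ne (by omega)]
  refine ⟨Function.update D (k + 2) A, ⟨?_, fun i h1 h2 => ?_, ?_, fun j hj => ?_⟩, hag, ?_⟩
  · rw [← hag 0 (by omega)]
    exact hD.1
  · rcases Nat.lt_or_ge i (k + 2) with h3 | h3
    · exact (h p D _ (k + 1) hag).2.2.1 i h1 (by omega) (hD.2.1 i h1 (by omega))
    · obtain rfl : i = k + 2 := by omega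
      exact hA
  · exact l1_congr (hag 1 (by omega)) hD.2.2.1
  · rw [Function.update_of_ne (by omega)]
    exact hD.2.2.2 j (by omega)
  · rw [Function.update_self]
    exact hQ

/-- the default level -/
def A0 (p : ℕ) : Lev p where
  δ := 2
  κ := 0
  J := 0
  l := 0
  ρ := 0
  Δ := 0
  θ := 0
  n := 0
  g := 0
  D := 0
  nE := 1
  M := fun _ => 0
  Z := fun _ => ∅
  L := fun _ _ => ⊥
  τ := fun _ _ _ _ => 0
  φ := fun _ _ => 0
  cen := fun _ _ => True
  nb := fun _ _ => ∅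

end Rec

open Rec in
theorem recS (h : CongStmt) : RecStmt := by
  intro p _ N Q hb hs
  obtain ⟨A, hA⟩ := hb
  have h0 : P N 0 (Function.update (fun _ => A0 p) 1 A) := by
    have hd : (Function.update (fun _ : ℕ => A0 p) 1 A 0).δ = 2 := by
      rw [Function.update_of_ne (by omega)]
      rfl
    obtain ⟨h1, h2⟩ := hA _ hd (Function.update_self ..)
    refine ⟨hd, fun i a b => ?_, h2, fun j hj => ?_⟩
    · obtain rfl : i = 1 := by omega
      exact h1
    · rw [Function.update_of_ne (by omega)]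
      exact Nat.one_pos
  choose G hG1 hG2 hG3 using step h hs
  let F : (k : ℕ) → {D : ℕ → Lev p // P N k D} := fun k =>
    Nat.rec ⟨_, h0⟩ (fun k x => ⟨G k x.1 x.2, hG1 k x.1 x.2⟩) k
  have hF : ∀ k, (F (k + 1)).1 = G k (F k).1 (F k).2 := fun _ => rfl
  have hmono : ∀ k k' i, k ≤ k' → i ≤ k + 1 → (F k).1 i = (F k').1 i := by
    intro k k' i hk hi
    induction k', hk using Nat.le_induction with
    | base => rfl
    | succ m hm ih => rw [ih, hF]; exact hG2 m _ _ i (by omega)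
  have hlim : ∀ k i, i ≤ k + 1 → (F k).1 i = (F i).1 i := fun k i hi => by
    rw [hmono k (k + i) i (by omega) hi, hmono i (k + i) i (by omega) (by omega)]
  have hok : ∀ i, 1 ≤ i → OK (fun i => (F i).1 i) i := fun i hi =>
    (h p (F i).1 _ i fun j hj => hlim i j (by omega)).2.2.1 i hi le_rfl
      ((F i).2.2.1 i hi (by omega))
  refine ⟨fun i => (F i).1 i, fun n => ⟨(F 0).2.1, fun i hi _ => hok i hi,
    (hok (n + 1) (by omega)).1.nE_pos⟩, l1_congr rfl (F 1).2.2.2.1, fun i hi => ?_⟩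
  obtain ⟨k, rfl⟩ : ∃ k, i = k + 2 := ⟨i - 2, by omega⟩
  have h3 := hG3 k (F k).1 (F k).2
  rw [← hF, hlim k (k + 1) le_rfl, hlim (k + 1) (k + 2) le_rfl] at h3
  exact h3

end Pool.Agent.MP_735563_an.H2
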