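import Pool.Agent.MP_735563_an.H34.Spec4

set_option autoImplicit false

/-! Row Rel: the top marks of the canonical states are independent and uniform. -/

open scoped BigOperators

namespace Pool.Agent.MP_735563_an.H2

namespace Rel

variable {p : ℕ} [NeZero p]

instance (R : ℕ) : Nonempty (ball p R) := ⟨⟨1, mem_ball.2 (by rw [len_one]; exact R.zero_le)⟩⟩

/-- a representative of the class of `x` in the ball -/
noncomputable def rep (R : ℕ) (H : Subgroup (Gam p)) (x : Gam p) : ball p R :=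
  Classical.epsilon fun u : ball p R => (u : Gam p) * x⁻¹ ∈ H

variable {R : ℕ} {H : Subgroup (Gam p)}

theorem rep_congr {x x' : Gam p} (h : x' * x⁻¹ ∈ H) : rep R H x = rep R H x' := by
  unfold rep
  congr 1
  funext u
  refine propext ⟨fun a => ?_, fun a => ?_⟩
  · have := H.mul_mem a (H.inv_mem h)
    rwa [show (u : Gam p) * x⁻¹ * (x' * x⁻¹)⁻¹ = u * x'⁻¹ by group] at this
  · have := H.mul_mem a h
    rwa [show (u : Gam p) * x'⁻¹ * (x' * x⁻¹) = u * x⁻¹ by group] at this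

theorem rep_spec {x : Gam p} (h : x ∈ Nb R (Sat H {1})) : (rep R H x : Gam p) * x⁻¹ ∈ H := by
  obtain ⟨_, ⟨k, hk, _, rfl, rfl⟩, u, hu, rfl⟩ := h
  refine Classical.epsilon_spec (p := fun v : ball p R => (v : Gam p) * (k * 1 * u)⁻¹ ∈ H)
    ⟨⟨u, mem_ball.2 hu⟩, ?_⟩
  rw [show u * (k * 1 * u)⁻¹ = k⁻¹ by group]
  exact H.inv_mem hk

omit [NeZero p] in
theorem ball_mem {u : Gam p} (hu : len u ≤ R) : u ∈ Nb R (Sat H {1}) :=
  ⟨1, subset_Sat _ _ rfl, u, hu, (one_mul u).symm⟩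

theorem rep_eq_iff {u v : Gam p} (hu : len u ≤ R) (hv : len v ≤ R) :
    rep R H u = rep R H v ↔ v * u⁻¹ ∈ H := by
  refine ⟨fun h => ?_, rep_congr⟩
  have h1 := rep_spec (H := H) (ball_mem hu)
  have h2 := rep_spec (H := H) (ball_mem hv)
  rw [h] at h1
  have := H.mul_mem (H.inv_mem h2) h1
  rwa [show ((rep R H v : Gam p) * v⁻¹)⁻¹ * ((rep R H v : Gam p) * u⁻¹) = v * u⁻¹ by group] at this

variable (𝔇 : ℕ → Lev p) (i : ℕ) {n : ℕ}

open Classical in
/-- new top marks -/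
noncomputable def relab (s : St p) (β : ball p R → Fin n) : St p := fun x κ =>
  if κ = (i + 1, none) ∧ s x κ ≠ 0 then β (rep R (Kall 𝔇 s) x) + 1 else s x κ

open Classical in
/-- the exchange of the old and the new marks -/
noncomputable def swap (hn : 0 < n) (a : St p × (ball p R → Fin n)) :
    St p × (ball p R → Fin n) :=
  (relab 𝔇 i a.1 a.2, fun u => if rep R (Kall 𝔇 a.1) u = u then
    ⟨(a.1 u (i + 1, none) - 1) % n, Nat.mod_lt _ hn⟩ else a.2 u)

variable {𝔇 i}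

theorem relab_ne (s : St p) (β : ball p R → Fin n) (x : Gam p) {κ : Kind}
    (h : κ ≠ (i + 1, none)) : relab 𝔇 i s β x κ = s x κ := by simp [relab, h]

theorem relab_pos {s : St p} (β : ball p R → Fin n) {x : Gam p} (h : s x (i + 1, none) ≠ 0) :
    relab 𝔇 i s β x (i + 1, none) = β (rep R (Kall 𝔇 s) x) + 1 := by simp [relab, h]

theorem relab_zero {s : St p} (β : ball p R → Fin n) {x : Gam p} (h : s x (i + 1, none) = 0) :
    relab 𝔇 i s β x (i + 1, none) = 0 := by simp [relab, h]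

theorem relab_ball (h2 : RelabStmt) (hT : Th 𝔇 i) {s : St p} (hs : IsBall 𝔇 i R s)
    (β : ball p R → Fin (𝔇 (i + 1)).nE) : IsBall 𝔇 i R (relab 𝔇 i s β) ∧
      Kall 𝔇 (relab 𝔇 i s β) = Kall 𝔇 s ∧ W 𝔇 (relab 𝔇 i s β) = W 𝔇 s := by
  refine h2 p 𝔇 i R hT s _ hs (fun x κ h => relab_ne s β x h) (fun x => ?_) (fun x => ?_)
    fun k hk x => ?_
  · by_cases h : s x (i + 1, none) = 0
    · simp [relab_zero β h, h]
    · simp [relab_pos β h, h]
  · by_cases h : s x (i + 1, none) = 0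
    · simp [relab_zero β h]
    · rw [relab_pos β h]
      exact (β _).2
  · have e : s (k * x) = s x := apply_of_stab (hs.1.stab hk) x
    by_cases h : s x (i + 1, none) = 0
    · rw [relab_zero β h, relab_zero β (by rw [e]; exact h)]
    · rw [relab_pos β h, relab_pos β (by rw [e]; exact h),
        rep_congr (x := x) (x' := k * x) (by simpa using hk)]

omit [NeZero p] in
theorem mark_ne {s : St p} (hs : IsBall 𝔇 i R s) {u : Gam p} (hu : len u ≤ R) :
    s u (i + 1, none) ≠ 0 := by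
  have h : u ∈ Dm i s := by rw [hs.2.2]; exact ball_mem hu
  exact h

theorem swap_swap (h2 : RelabStmt) (hT : Th 𝔇 i) (hn : 0 < (𝔇 (i + 1)).nE) {s : St p}
    (hs : IsBall 𝔇 i R s) (β : ball p R → Fin (𝔇 (i + 1)).nE) :
    swap 𝔇 i hn (swap 𝔇 i hn (s, β)) = (s, β) := by
  have hK := (relab_ball h2 hT hs β).2.1
  refine Prod.ext ?_ ?_
  · funext x κ
    change relab 𝔇 i (relab 𝔇 i s β) (swap 𝔇 i hn (s, β)).2 x κ = s x κ
    by_cases hκ : κ = (i + 1, none)
    · subst hκ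
      by_cases h : s x (i + 1, none) = 0
      · rw [relab_zero _ (relab_zero β h), h]
      · have hx : x ∈ Nb R (Sat (Kall 𝔇 s) {1}) := by rw [← hs.2.2]; exact h
        have h3 := rep_spec hx
        have h4 : rep R (Kall 𝔇 s) (rep R (Kall 𝔇 s) x) = rep R (Kall 𝔇 s) x :=
          (rep_congr h3).symm
        have h5 : s (rep R (Kall 𝔇 s) x) = s x := by
          have := apply_of_stab (hs.1.stab h3) x
          rwa [inv_mul_cancel_right] at this
        have h6 := hs.1.1.2 (i + 1) (by omega) le_rfl x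
        rw [relab_pos _ (by rw [relab_pos β h]; omega), hK]
        simp only [swap, if_pos h4, h5]
        rw [Nat.mod_eq_of_lt (by omega)]
        omega
    · rw [relab_ne _ _ _ hκ, relab_ne _ _ _ hκ]
  · funext u
    simp only [swap, hK]
    split_ifs with h
    · ext
      simp only
      rw [relab_pos β (mark_ne hs (mem_ball.1 u.2)), h, Nat.add_sub_cancel,
        Nat.mod_eq_of_lt (β u).2]
    · rfl

theorem famM (h2 : RelabStmt) (hT : Th 𝔇 i) {s : St p} (hs : IsBall 𝔇 i R s) :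
    FamM (i + 1) (𝔇 (i + 1)).nE R (rep R (Kall 𝔇 s))
      (fun β => (relab 𝔇 i s β, Kall 𝔇 s)) (s, Kall 𝔇 s) where
  cls _ _ hu hv := rep_eq_iff hu hv
  inv β k hk := by
    obtain ⟨h3, h4, _⟩ := relab_ball h2 hT hs β
    exact h3.1.stab (by rw [h4]; exact hk)
  grp _ := rfl
  oth β u _ h := relab_ne s β u h
  mark β _ hu := relab_pos β (mark_ne hs hu)

end Rel

open _root_.Pool.Agent.MP_735563_an.H2.Rel in
theorem relS (h1 : FamStmt) (h2 : RelabStmt) : RelStmt := by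
  classical
  intro hA p _ N 𝔇 i R Φ c hT hB hC
  obtain ⟨ℱ, hℱ, -, -, hsum, -⟩ := h1 p 𝔇 i hT (hA p 𝔇 i).2.2.1 R
  have hn : 0 < (𝔇 (i + 1)).nE := hT.1.2.2
  have : Nonempty (Fin (𝔇 (i + 1)).nE) := ⟨⟨0, hn⟩⟩
  have key : ∑ s ∈ ℱ, ∑ β : ball p R → Fin (𝔇 (i + 1)).nE,
      (W 𝔇 s : ℝ) * Φ (relab 𝔇 i s β, Kall 𝔇 s) =
      ∑ s ∈ ℱ, ∑ _β : ball p R → Fin (𝔇 (i + 1)).nE, (W 𝔇 s : ℝ) * Φ (s, Kall 𝔇 s) := by
    rw [← Finset.sum_product', ← Finset.sum_product']
    refine Finset.sum_nbij' (swap 𝔇 i hn) (swap 𝔇 i hn) ?_ ?_ ?_ ?_ ?_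
    iterate 2
      rintro ⟨s, β⟩ h
      simp only [Finset.mem_product, Finset.mem_univ, and_true] at h ⊢
      exact (hℱ _).2 (relab_ball h2 hT ((hℱ s).1 h) β).1
    iterate 2
      rintro ⟨s, β⟩ h
      exact swap_swap h2 hT hn ((hℱ s).1 (Finset.mem_product.1 h).1) β
    rintro ⟨s, β⟩ h
    obtain ⟨-, h3, h4⟩ := relab_ball h2 hT ((hℱ s).1 (Finset.mem_product.1 h).1) β
    simp only [swap, h3, h4]
  have hc : (0 : ℝ) < Fintype.card (ball p R → Fin (𝔇 (i + 1)).nE) := by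
    exact_mod_cast Fintype.card_pos
  have key2 : EB 𝔇 i R Φ = ∑ s ∈ ℱ, (W 𝔇 s : ℝ) *
      𝔼 β : ball p R → Fin (𝔇 (i + 1)).nE, Φ (relab 𝔇 i s β, Kall 𝔇 s) := by
    simp only [Fintype.expect_eq_sum_div_card, ← mul_div_assoc, Finset.mul_sum]
    rw [← Finset.sum_div, key, EB, mem_famB hℱ, eq_div_iff hc.ne', Finset.sum_mul]
    refine Finset.sum_congr rfl fun s _ => ?_
    rw [Finset.sum_const, Finset.card_univ, nsmul_eq_mul, mul_comm]
  have hsum' : ∑ s ∈ ℱ, (W 𝔇 s : ℝ) = 1 := by exact_mod_cast hsum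
  rw [key2, ← one_mul c, ← hsum', Finset.sum_mul]
  refine Finset.sum_le_sum fun s hs => mul_le_mul_of_nonneg_left ?_ ?_
  · exact hC _ _ _ _ (hB s ((hℱ s).1 hs)) (famM h2 hT ((hℱ s).1 hs))
  · exact_mod_cast (W_pos hT.1 ((hℱ s).1 hs).1).le

end Pool.Agent.MP_735563_an.H2
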