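import Pool.Agent.MP_735563_an.H34.Spec4

set_option autoImplicit false

/-! The canonical states satisfy the closed conditions. -/

namespace Pool.Agent.MP_735563_an.H2

namespace Sup

variable {p : ℕ} {𝔇 : ℕ → Lev p}

theorem len_le_add (k a : Gam p) : len k ≤ len (k * a) + len a := by
  have := len_mul_le (k * a) a⁻¹
  rwa [len_inv, mul_inv_cancel_right] at this

theorem far_cl (j : ℕ) : IsCl (Far (p := p) j) := by
  classical
  intro M hM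
  obtain ⟨M', h1, y, hy⟩ := hM 0 (j + 1)
  have hex : ∃ m, ∃ k ∈ M'.2, len (k * y) = m := ⟨_, 1, one_mem _, rfl⟩
  obtain ⟨k₀, hk₀, e⟩ := Nat.find_spec hex
  have h2 := hy k₀ hk₀
  obtain ⟨a, b, e1, h3, h4⟩ := len_split (k₀ * y) (i := j + 1) h2
  refine ⟨a, fun k hk => ?_⟩
  by_contra h5
  have h6 := len_le_add k a
  have h7 := Nat.find_min' hex ⟨_, mul_mem ((h1.2 k (by omega)).1 hk) hk₀, rfl⟩
  have h8 := len_mul_le (k * a) b
  rw [mul_assoc, ← e1, ← mul_assoc] at h8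
  omega

theorem comp_cl {j : ℕ} (hR : RuleOK 𝔇 j) : IsCl (CompC (𝔇 j).cen (𝔇 j).nb (𝔇 j).D) := by
  intro M hM ξ n h0 hc
  obtain ⟨M', h1, h2⟩ :=
    hM j ((Finset.range (n + 1)).sup (fun t => len (ξ t)) + (𝔇 j).ρ + (𝔇 j).D)
  have hb : ∀ t ≤ n, len (ξ t) ≤ (Finset.range (n + 1)).sup fun t => len (ξ t) := fun t ht =>
    Finset.le_sup (f := fun t => len (ξ t)) (Finset.mem_range.2 (by omega))
  obtain ⟨k, hk, h3⟩ := h2 ξ n h0 fun t ht => by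
    have h3 := hR.loc _ _ 0 (h1.trM (x := ξ t) (r' := (𝔇 j).ρ) (by have := hb t ht.le; omega))
    obtain ⟨h4, w, hw, h5⟩ := hc t ht
    exact ⟨h3.1 h4, w, h3.2 hw, h5⟩
  have h4 := len_le_add k (ξ n)
  have h5 := hb n le_rfl
  exact ⟨k, (h1.2 k (by omega)).2 hk, h3⟩

theorem agree_all (h2 : IRStmt) {t j : ℕ} (hT : Th 𝔇 t) (h1 : 1 ≤ j) (hj : j ≤ t) {s : St p}
    (hs : Good 𝔇 t s) (x : Gam p) : Agree j (𝔇 j).ρ (trM x⁻¹ (s, Kall 𝔇 s)) (mk 𝔇 j s x) := by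
  refine ⟨fun _ _ _ _ _ => rfl, fun u hu => ?_⟩
  simp only [mk, trM, mem_cjs, inv_inv]
  refine ⟨fun h => ?_, fun h => K_le_Kall _ _ h⟩
  rw [Kall_eq hs.2.1] at h
  refine h2 p 𝔇 t j hT h1 hj s hs.1.1 x _ h ?_
  have h3 := dj_le_len (𝔇 := 𝔇) (j - 1) s x u
  have h4 := (hT.ok h1 hj).2.1.θ
  have h5 := (hT.ok h1 hj).2.1.g
  rw [inv_mul_cancel_right]
  omega

end Sup

open _root_.Pool.Agent.MP_735563_an.H2.Sup in
theorem supS (h1 : CPStmt) (h2 : IRStmt) : SupStmt := by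
  intro p _ N 𝔇
  refine ⟨fun j hR M hM => ⟨fun c n hn => ?_,
    far_cl j M fun i r => (hM i r).imp fun _ a => ⟨a.1, a.2.2.1⟩,
    fun hj => comp_cl (hR hj) M fun i r => (hM i r).imp fun _ a => ⟨a.1, a.2.2.2 hj⟩⟩, ?_⟩
  · obtain ⟨M', h3, h4⟩ := hM 0 (len n)
    exact (h3.2 n (by omega)).2 (h4.1 c hn)
  rintro t R s ht hT hL ⟨hs, hw, hD⟩ ⟨q, c₀, -, hq⟩
  have k1 : ∀ x ∈ Dm t s, ∀ c, s x (1, some c) ≠ 0 := fun x hx c =>
    ((hw.comp hx).down ht).lab le_rfl ((hL c).1 _)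
  have k3 : ∀ k ∈ Kall 𝔇 s, ∀ u, len u ≤ R → k * u ∈ Dm t s := fun k hk u hu => by
    rw [hD]
    exact mul_mem_Nb ⟨k, hk, 1, rfl, (mul_one k).symm⟩ hu
  have k4 : ∀ x, len x ≤ R → x ∈ Dm t s := fun x hx => by simpa using k3 1 (one_mem _) x hx
  have k2 : ∀ x, len x ≤ R → ∀ c, ∀ n ∈ N c, x * n * x⁻¹ ∈ Kall 𝔇 s := fun x hx c n hn => by
    have h3 := k1 x (k4 x hx) c
    refine K_le_Kall 1 s (mem_K le_rfl le_rfl h3 ?_)
    rwa [(hL c).2 _ (hs.1.1 1 le_rfl ht x c h3).1]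
  have far : ∀ k ∈ Kall 𝔇 s, R < len (k * q) := fun k hk => by
    by_contra h3
    have h4 := k3 _ (inv_mem hk) _ (not_lt.1 h3)
    rw [inv_mul_cancel_left] at h4
    exact k1 q h4 c₀ hq
  refine ⟨⟨k2, q, far⟩, fun k hk => hs.stab hk, fun x κ => ?_,
    fun j g hj hg => ⟨fun c n hn => ?_, ⟨g * q, fun k hk => ?_⟩, fun hj2 ξ n h0 hc => ?_⟩⟩
  · by_cases h0 : s x κ = 0
    · omega
    have h3 := hs.2.1 x κ h0
    obtain ⟨_ | i, _ | c⟩ := κ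
    · rw [rk_none] at h3; omega
    · rw [rk_some] at h3; omega
    · rw [rk_none] at h3
      exact hs.1.2 (i + 1) (by omega) (by omega) x
    · rw [rk_some] at h3
      exact Finset.le_sup (f := id) (hs.1.1 (i + 1) (by omega) (by omega) x c h0).1
  · simpa [trM, mem_cjs] using k2 g⁻¹ (by rw [len_inv]; omega) c n hn
  · have h3 := far _ (mem_cjs.1 hk)
    have h4 := len_mul_le g⁻¹ (k * (g * q))
    rw [len_inv, ← mul_assoc, ← mul_assoc] at h4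
    omega
  · rcases Nat.eq_zero_or_pos n with rfl | hn
    · exact ⟨1, one_mem _, by rw [h0, one_mul, len_one]; omega⟩
    have hj1 : 1 ≤ j := by omega
    have ok := hT.ok hj1 hj
    have adj : ∀ a < n, Adj 𝔇 j s 0 (g⁻¹ * ξ a) (g⁻¹ * ξ (a + 1)) := fun a ha => by
      obtain ⟨h3, w, hw', h4⟩ := hc a ha
      rw [← trM_mul, show (ξ a)⁻¹ * g = (g⁻¹ * ξ a)⁻¹ by simp] at h3 hw'
      have h5 := ok.1.loc _ _ 0 (agree_all h2 hT hj1 hj hs (g⁻¹ * ξ a))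
      exact ⟨h5.1 h3, w, h5.2 hw', by simp [h4, mul_assoc]⟩
    have h3 : s g⁻¹ (j, some 0) ≠ 0 := by
      refine ((hw.comp (k4 _ (by rw [len_inv]; omega))).down hj).lab hj1 ?_
      simpa [h0] using (adj 0 hn).1
    obtain ⟨h4, h5, -⟩ := (h1 p 𝔇 j hj1 ok (hT.2.1 _ (by omega)) s (hs.1.1.mono hj) 0).1 _ h3
    have h6 : ∀ a ≤ n, g⁻¹ * ξ a ∈ cp 𝔇 j s 0 g⁻¹ := by
      intro a
      induction a with
      | zero => intro _; rwa [h0, mul_one]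
      | succ a ih => intro ha; exact (h5 _ (ih (by omega))).2.2.2.2.2 _ (adj a ha)
    obtain ⟨h, hh, y, hy, e⟩ := h6 n le_rfl
    obtain ⟨l, hl, h7⟩ := (ok.2.2.at' 0 _ (hs.1.1 j hj1 hj _ 0 h3).1).diam _ hy
    refine ⟨l * g * h⁻¹ * g⁻¹, ?_, ?_⟩
    · have := mul_mem (K_le_Kall j s (mem_K hj1 le_rfl h3 hl)) (inv_mem (K_le_Kall _ s hh))
      simpa [trM, mem_cjs, mul_assoc] using this
    · rw [mul_assoc, e]
      simpa [mul_assoc] using h7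

end Pool.Agent.MP_735563_an.H2
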