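import Pool.Agent.MP_735563_an.H34.Spec4

set_option autoImplicit false

open MeasureTheory Filter Topology

namespace Pool.Agent.MP_735563_an.H2

namespace Task

section task

variable (p : ℕ)

/-- patterns -/
def Pat (r b : ℕ) : Type :=
  ({u : Gam p // len u ≤ r} → {κ : Kind // 2 ≤ rk κ ∧ rk κ ≤ 2 * r} → Fin (b + 1)) ×
    ({u : Gam p // len u ≤ 2 * r} → Prop)

instance [NeZero p] (r b : ℕ) : Finite (Pat p r b) := by
  have : ∀ r, Finite {u : Gam p // len u ≤ r} := fun r => (finite_len_le r).to_subtype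
  have : Finite {κ : Kind // 2 ≤ rk κ ∧ rk κ ≤ 2 * r} :=
    ((XS.finite_rk r).subset (t := {κ : Kind | 2 ≤ rk κ ∧ rk κ ≤ 2 * r})
      fun _ h => h.2).to_subtype
  unfold Pat
  infer_instance

variable {p}

/-- the pattern of a structure -/
def pat (r b : ℕ) (M : MS p) : Pat p r b :=
  (fun u κ => ⟨min (M.1 u.1 κ.1) b, by omega⟩, fun u => u.1 ∈ M.2)

theorem pat_loc (r b : ℕ) : LocA r r (pat (p := p) r b) := fun M M' h =>
  Prod.ext (funext fun u => funext fun κ => Fin.ext (by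
    simp only [pat, h.1 u.1 u.2 κ.1 κ.2.1 κ.2.2])) (funext fun u => propext (h.2 u.1 u.2))

theorem agree_of_pat {𝒳 : XD p} {r b : ℕ} (hb : ∀ κ, rk κ ≤ 2 * r → 𝒳.B κ ≤ b) {x y : XS 𝒳}
    (h : pat r b x.1 = pat r b y.1) : Agree r r x.1 y.1 := by
  refine ⟨fun u hu κ h1 h2 => ?_, fun u hu => ?_⟩
  · have := congrArg Fin.val (congrFun (congrFun (congrArg Prod.fst h) ⟨u, hu⟩) ⟨κ, h1, h2⟩)
    simp only [pat] at this
    have a1 := x.2.2.1 u κ
    have a2 := y.2.2.1 u κ
    have a3 := hb κ h2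
    omega
  · exact iff_of_eq (congrFun (congrArg Prod.snd h) ⟨u, hu⟩)

end task

/-- an invariant conull set -/
theorem exists_inv {X S : Type} [MeasurableSpace X] [Countable S] (ν : Measure X) (f : S → X → X)
    (hf : ∀ s, MeasurePreserving (f s) ν ν) {G : X → Prop} (hG : ∀ᵐ x ∂ν, G x) :
    ∃ N : Set X, MeasurableSet N ∧ ν Nᶜ = 0 ∧ (∀ x ∈ N, G x) ∧ ∀ s, ∀ x ∈ N, f s x ∈ N := by
  let app : List S → X → X := fun l => l.foldr (fun s g => g ∘ f s) id
  have ha : ∀ l, MeasurePreserving (app l) ν ν := fun l => by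
    induction l with
    | nil => exact MeasurePreserving.id ν
    | cons s l ih => exact ih.comp (hf s)
  have hm := measurableSet_toMeasurable ν {x | ¬G x}
  refine ⟨(⋃ l, app l ⁻¹' toMeasurable ν {x | ¬G x})ᶜ,
    (MeasurableSet.iUnion fun l => (ha l).measurable hm).compl, ?_, fun x hx => ?_,
    fun s x hx h => ?_⟩
  · rw [compl_compl]
    refine measure_iUnion_null fun l => ?_
    rw [(ha l).measure_preimage hm.nullMeasurableSet, measure_toMeasurable]
    exact hG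
  · by_contra c
    exact hx (Set.mem_iUnion.2 ⟨[], subset_toMeasurable ν _ c⟩)
  · obtain ⟨l, hl⟩ := Set.mem_iUnion.1 h
    exact hx (Set.mem_iUnion.2 ⟨s :: l, hl⟩)

end Task

open Pool.Agent.MP_735563_an.H2.Task

theorem taskS : TaskStmt := by
  intro p _
  classical
  obtain ⟨e, he⟩ := exists_surjective_nat (Σ q : ℕ × ℕ, (Pat p q.1 q.2 → Fin 4 → Gam p))
  have hb : ∀ n, ∃ L, ∀ y k, len ((e n).2 y k) ≤ L := fun n => by
    obtain ⟨L, hL⟩ := (Set.finite_range fun z : Pat p (e n).1.1 (e n).1.2 × Fin 4 =>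
      len ((e n).2 z.1 z.2)).bddAbove
    exact ⟨L, fun y k => hL ⟨(y, k), rfl⟩⟩
  choose L hL using hb
  refine ⟨fun i M => if (e i.unpair.1).1.1 ≤ i - 1 then (e i.unpair.1).2 (pat _ _ M) else 1,
    fun i => max (e i.unpair.1).1.1 (L i.unpair.1), fun i => ⟨?_, fun M k => ?_⟩,
    fun 𝒳 τ hτ => ?_⟩
  · by_cases h : (e i.unpair.1).1.1 ≤ i - 1
    · simp only [if_pos h]
      exact ((pat_loc _ _).comp _).mono h (le_max_left _ _)
    · simp only [if_neg h]
      exact fun _ _ _ => rfl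
  · beta_reduce
    split_ifs
    · exact (hL _ _ _).trans (le_max_right _ _)
    · rw [Pi.one_apply, len_one]; exact Nat.zero_le _
  · obtain ⟨r, hr⟩ := XS.exists_loc hτ
    obtain ⟨b, hb⟩ := ((XS.finite_rk r).image 𝒳.B).bddAbove
    obtain ⟨n, hn⟩ := he ⟨(r, b), Function.extend (fun x : XS 𝒳 => pat r b x.1) τ 1⟩
    have h1 := Nat.right_le_pair n (r + 2)
    refine ⟨n.pair (r + 2), by omega, fun x => ?_⟩
    beta_reduce
    rw [Nat.unpair_pair]
    dsimp only
    rw [hn, if_pos (by simp only []; omega)]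
    exact Function.FactorsThrough.extend_apply
      (fun x y h => hr x y (agree_of_pat (fun κ hκ => hb ⟨κ, hκ, rfl⟩) h)) _ x

theorem freeS : FreeStmt := by
  intro p _ 𝒳 ν _ hg hs hn η hη
  classical
  obtain ⟨a, a1, a2, a3, a4, a5⟩ := not_not.1 hn
  have hG : ∀ᵐ x ∂ν, (∀ u : Gam p, u • x = x → u ∈ x.1.2) ∧ a 1 x = x ∧
      (∀ g h, a (g * h) x = a g (a h x)) ∧ (∀ g, a g x = x → g = 1) ∧
      ∀ g, ∃ γ : Gam p, a g x = γ • x := by
    refine hs.and (a2.and ((ae_all_iff.2 fun g => ae_all_iff.2 (a3 g)).and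
      ((ae_all_iff.2 fun g => ?_).and (ae_all_iff.2 a5))))
    by_cases h : g = 1
    · exact Eventually.of_forall fun _ _ => h
    · exact (a4 g h).mono fun x hx e => absurd e hx
  obtain ⟨N, n1, n2, n3, n4⟩ := exists_inv ν
    (Sum.elim (fun (g : Gam p) (x : XS 𝒳) => g • x) a) (by rintro (g | g); exacts [hg g, a1 g]) hG
  obtain ⟨e, he⟩ := exists_surjective_nat (Gam p)
  have hm : ∀ k n, MeasurableSet {x : XS 𝒳 | a (fg k) x = (e n)⁻¹ • x} := fun k n =>
    measurableSet_eq_fun (a1 _).measurable (hg _).measurable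
  have hex : ∀ k x, ∃ n, a (fg k) x = (e n)⁻¹ • x ∨ x ∉ N := fun k x => by
    by_cases h : x ∈ N
    · obtain ⟨γ, hγ⟩ := (n3 x h).2.2.2.2 (fg k)
      obtain ⟨n, hn⟩ := he γ⁻¹
      exact ⟨n, Or.inl (by rw [hn, inv_inv, hγ])⟩
    · exact ⟨0, Or.inr h⟩
  have hf : ∀ k, Measurable fun x => Nat.find (hex k x) := fun k =>
    measurable_find _ fun n => (hm k n).union n1.compl
  obtain ⟨τ, t1, t2⟩ := Gen1.approx ν (fun x k => e (Nat.find (hex k x))) (fun g => by
    have : (fun x k => e (Nat.find (hex k x))) ⁻¹' {g}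
        = ⋂ k, (fun x => Nat.find (hex k x)) ⁻¹' {n | e n = g k} := by
      ext x
      simp only [Set.mem_preimage, Set.mem_singleton_iff, Set.mem_iInter, Set.mem_ofPred_eq,
        funext_iff]
    rw [this]
    exact MeasurableSet.iInter fun k => hf k (MeasurableSet.of_discrete))
    (ε := ENNReal.ofReal η) (by simpa using hη)
  refine ⟨N, a, τ, ⟨n1, n2, a1, fun g => n4 (.inl g), fun g => n4 (.inr g),
    fun x hx => (n3 x hx).2.1, fun g h x hx => (n3 x hx).2.2.1 g h,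
    fun g x hx => (n3 x hx).2.2.2.1 g, fun x hx => (n3 x hx).1⟩, t1, ?_⟩
  refine ENNReal.toReal_le_of_le_ofReal hη.le (le_trans ?_ t2)
  refine measure_mono_ae ?_
  filter_upwards [show ∀ᵐ x ∂ν, x ∈ N from n2] with x hx h c
  obtain ⟨k, hk⟩ := h
  refine hk ?_
  rw [c]
  exact (Nat.find_spec (hex k x)).resolve_right fun d => d hx

end Pool.Agent.MP_735563_an.H2
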