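import Pool.Agent.MP_735563_an.H34.Spec4

set_option autoImplicit false

/-! Concentration along the random walk. -/

open Finset Filter Topology
open scoped BigOperators

namespace Pool.Agent.MP_735563_an.H2

namespace Var

variable {p i n r R : ℕ} {V : Type} {ι : Gam p → V} {y : (V → Fin n) → MS p} {M : MS p}

theorem famTr (h : FamM i n R ι y M) (g : Gam p) (hg : len g + r ≤ R) :
    FamM i n r (fun u => ι (g * u)) (fun β => trM g⁻¹ (y β)) (trM g⁻¹ M) where
  cls u v hu hv := by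
    have h1 := len_mul_le g u
    have h2 := len_mul_le g v
    rw [h.cls (g * u) (g * v) (by omega) (by omega)]
    change _ ↔ v * u⁻¹ ∈ cjs g⁻¹ M.2
    rw [mem_cjs, show g⁻¹⁻¹ * (v * u⁻¹) * g⁻¹ = g * v * (g * u)⁻¹ by group]
  inv β := (h.inv β).trM _
  grp β := by
    change cjs g⁻¹ (y β).2 = cjs g⁻¹ M.2
    rw [h.grp]
  oth β u κ hκ := h.oth β _ κ hκ
  mark β u hu := by
    have h1 := len_mul_le g u
    change (y β).1 (g⁻¹⁻¹ * u) _ = _
    rw [inv_inv]
    exact h.mark β _ (by omega)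

theorem agree (h : FamM i n r ι y M) {β β' : V → Fin n}
    (hβ : ∀ u, len u ≤ r → β (ι u) = β' (ι u)) : Agree i r (y β) (y β') := by
  refine ⟨fun u hu κ _ _ => ?_, fun u _ => by rw [h.grp, h.grp]⟩
  by_cases hκ : κ = (i, none)
  · subst hκ
    rw [h.mark β u hu, h.mark β' u hu, hβ u hu]
  · rw [h.oth β u κ hκ, h.oth β' u κ hκ]

theorem small {δ : ℝ} (hδ : 0 < δ) : ∃ m : ℕ, 12 * (2 * (m : ℝ) + 1) ^ 2 * (5 / 6) ^ m ≤ δ ^ 2 := by
  have h := tendsto_pow_const_mul_const_pow_of_abs_lt_one 2 (r := 5 / 6)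
    (by rw [abs_of_pos] <;> norm_num)
  obtain ⟨m, h1, h2⟩ := ((h.eventually (gt_mem_nhds (show (0 : ℝ) < δ ^ 2 / 108 by positivity))).and
    (eventually_ge_atTop 1)).exists
  refine ⟨m, ?_⟩
  have h3 : (1 : ℝ) ≤ m := by exact_mod_cast h2
  have h4 : (2 * (m : ℝ) + 1) ^ 2 ≤ 9 * (m : ℝ) ^ 2 := by nlinarith
  have h5 := mul_le_mul_of_nonneg_right h4 (show (0 : ℝ) ≤ (5 / 6) ^ m by positivity)
  linarith

variable [NeZero p]

theorem len_wprod {m : ℕ} (w : Fin m → Fin 3 × ZMod p) : len (wprod w) ≤ m := by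
  classical
  exact mem_ball.1 (Finset.mem_image_of_mem _ (Finset.mem_univ w))

open Classical in
theorem count {m : ℕ} {δ : ℝ} (h : FamM i n R ι y M) (hm : m + r ≤ R)
    (hs : ∀ x : Gam p, ((univ.filter fun w : Fin m → Fin 3 × ZMod p =>
      wprod w * x⁻¹ ∈ M.2).card : ℝ) ≤ δ * (3 * p) ^ m) (w : Fin m → Fin 3 × ZMod p) :
    (𝔼 w' : Fin m → Fin 3 × ZMod p,
      if Disjoint ((fun u => ι (wprod w * u)) '' {u | len u ≤ r})
        ((fun u => ι (wprod w' * u)) '' {u | len u ≤ r}) then (0 : ℝ) else 1) ≤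
      ((ball p r).card : ℝ) ^ 2 * δ := by
  have hp : (0 : ℝ) < (3 * p) ^ m := by
    have := NeZero.pos p
    positivity
  have h1 : ∀ w' : Fin m → Fin 3 × ZMod p,
      (if Disjoint ((fun u => ι (wprod w * u)) '' {u | len u ≤ r})
        ((fun u => ι (wprod w' * u)) '' {u | len u ≤ r}) then (0 : ℝ) else 1) ≤
      ∑ q ∈ ball p r ×ˢ ball p r,
        if wprod w' * (wprod w * q.1 * q.2⁻¹)⁻¹ ∈ M.2 then (1 : ℝ) else 0 := by
    intro w'
    split_ifs with hd
    · exact sum_nonneg fun q _ => by split_ifs <;> norm_num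
    · obtain ⟨v, ⟨u, hu, rfl⟩, u', hu', he⟩ := Set.not_disjoint_iff.1 hd
      have a1 := len_mul_le (wprod w) u
      have a2 := len_mul_le (wprod w') u'
      have a3 := len_wprod w
      have a4 := len_wprod w'
      have hu1 : len u ≤ r := hu
      have hu2 : len u' ≤ r := hu'
      have a5 := (h.cls (wprod w * u) (wprod w' * u') (by omega) (by omega)).1 he.symm
      refine le_trans ?_ (single_le_sum (a := (u, u')) (fun q _ => by split_ifs <;> norm_num)
        (mem_product.2 ⟨mem_ball.2 hu1, mem_ball.2 hu2⟩))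
      rw [if_pos (by convert a5 using 1; group)]
  refine (expect_le_expect fun w' _ => h1 w').trans ?_
  rw [expect_sum_comm, pow_two, ← Nat.cast_mul, ← card_product, ← nsmul_eq_mul]
  refine sum_le_card_nsmul _ _ _ fun q _ => ?_
  rw [Fintype.expect_eq_sum_div_card, sum_boole, div_le_iff₀ (by exact_mod_cast Fintype.card_pos)]
  simpa using hs (wprod w * q.1 * q.2⁻¹)

end Var

theorem varS (h : SpreadStmt) : VarStmt := by
  classical
  intro p _ N g hN r b ε hε
  set B : ℝ := ((ball p r).card : ℝ) ^ 2 with hB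
  have hB0 : 0 ≤ 4 * b ^ 2 * B := by positivity
  have hδ : 0 < ε / (4 * b ^ 2 * B + 1) := by positivity
  obtain ⟨m, hm⟩ := Var.small hδ
  refine ⟨m, fun i n R ψ hn hψ hb hc hR V _ _ ι y M hM hF => ?_⟩
  have : Nonempty (Fin n) := ⟨⟨0, hn⟩⟩
  have hf := fun w : Fin m → Fin 3 × ZMod p =>
    Var.famTr (r := r) hF (wprod w) (by have := Var.len_wprod w; omega)
  have h1 := Gen1.var_le (W := Fin m → Fin 3 × ZMod p)
    (fun w => (fun u => ι (wprod w * u)) '' {u | len u ≤ r})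
    (fun w β => ψ (trM (wprod w)⁻¹ (y β))) b 0
    (fun w β β' hβ => hψ _ _ (Var.agree (hf w) fun u hu => hβ _ ⟨u, hu, rfl⟩))
    (fun w β => hb _) (fun w => hc V _ _ _ (hf w))
  simp only [sub_zero] at h1
  refine h1.trans ?_
  have h2 : ∀ x : Gam p, ((univ.filter fun w : Fin m → Fin 3 × ZMod p =>
      wprod w * x⁻¹ ∈ M.2).card : ℝ) ≤ ε / (4 * b ^ 2 * B + 1) * (3 * p) ^ m := fun x => by
    have a1 := h p N g hN M.2 R m hM.1 hM.2 (by omega) x
    refine le_of_sq_le_sq (a1.trans ?_) (by positivity)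
    rw [mul_pow (ε / _)]
    exact mul_le_mul_of_nonneg_right hm (by positivity)
  refine (mul_le_mul_of_nonneg_left (expect_le univ_nonempty fun w _ => Var.count hF hR h2 w)
    (by positivity)).trans ?_
  rw [← hB, ← mul_assoc, ← mul_div_assoc, div_le_iff₀ (by positivity)]
  nlinarith

end Pool.Agent.MP_735563_an.H2
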