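import Mathlib

set_option autoImplicit false

/-! Generic measure and probability lemmas. -/

open MeasureTheory Filter Topology Finset
open scoped BigOperators

namespace Pool.Agent.MP_735563_an.H2

namespace Gen1

section Var

variable {V Λ : Type} [Fintype V] [DecidableEq V] [Fintype Λ] [Nonempty Λ]

/-- functions of disjoint sets of coordinates are independent -/
theorem expect_indep (A : Set V) (f g : (V → Λ) → ℝ)
    (hf : ∀ β β', (∀ v ∈ A, β v = β' v) → f β = f β')
    (hg : ∀ β β', (∀ v, v ∉ A → β v = β' v) → g β = g β') :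
    𝔼 β, f β * g β = (𝔼 β, f β) * 𝔼 β, g β := by
  classical
  let σ : (V → Λ) × (V → Λ) → (V → Λ) × (V → Λ) := fun q =>
    (A.piecewise q.1 q.2, A.piecewise q.2 q.1)
  have hσ : Function.Involutive σ := fun q => by
    ext v <;> by_cases h : v ∈ A <;> simp [σ, h]
  have h1 : 𝔼 q : (V → Λ) × (V → Λ), f q.1 * g q.1 = 𝔼 β, f β * g β := by
    rw [← univ_product_univ, expect_product]
    simp
  rw [Fintype.expect_mul_expect, ← expect_product', univ_product_univ, ← h1]
  refine (Fintype.expect_bijective σ hσ.bijective _ _ fun q => ?_).symm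
  rw [hf (σ q).1 q.1 fun v hv => by simp [σ, hv], hg (σ q).1 q.2 fun v hv => by simp [σ, hv]]

open Classical in
/-- one sided variance bound for averages of local functions -/
theorem var_le {W : Type} [Fintype W] [Nonempty W] (A : W → Set V) (φ : W → (V → Λ) → ℝ)
    (b η : ℝ) (hdep : ∀ w β β', (∀ v ∈ A w, β v = β' v) → φ w β = φ w β')
    (hb : ∀ w β, |φ w β| ≤ b) (hE : ∀ w, 𝔼 β, φ w β ≤ η) :
    𝔼 β, (max ((𝔼 w, φ w β) - η) 0) ^ 2 ≤
      4 * b ^ 2 * 𝔼 w, 𝔼 w', if Disjoint (A w) (A w') then (0 : ℝ) else 1 := by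
  let ψ : W → (V → Λ) → ℝ := fun w β => φ w β - 𝔼 β, φ w β
  have h1 : ∀ w β, |ψ w β| ≤ 2 * b := fun w β => by
    have a1 : 𝔼 β, φ w β ≤ b := expect_le univ_nonempty fun β _ => (abs_le.1 (hb w β)).2
    have a2 : -b ≤ 𝔼 β, φ w β := le_expect univ_nonempty fun β _ => (abs_le.1 (hb w β)).1
    have := abs_le.1 (hb w β)
    exact abs_le.2 ⟨by simp only [ψ]; linarith, by simp only [ψ]; linarith⟩
  have h2 : ∀ w, 𝔼 β, ψ w β = 0 := fun w => by
    simp only [ψ, expect_sub_distrib, Fintype.expect_const, sub_self]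
  have h3 : ∀ β, (max ((𝔼 w, φ w β) - η) 0) ^ 2 ≤ 𝔼 w, 𝔼 w', ψ w β * ψ w' β := fun β => by
    rw [← Fintype.expect_mul_expect, ← pow_two]
    have a1 : 𝔼 w, 𝔼 β, φ w β ≤ η := expect_le univ_nonempty fun w _ => hE w
    have a2 : (𝔼 w, φ w β) - η ≤ 𝔼 w, ψ w β := by
      simp only [ψ, expect_sub_distrib]
      linarith
    rcases le_total ((𝔼 w, φ w β) - η) 0 with h | h
    · rw [max_eq_right h]
      simpa using sq_nonneg (𝔼 w, ψ w β)
    · rw [max_eq_left h]
      exact pow_le_pow_left₀ h a2 2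
  refine (expect_le_expect fun β _ => h3 β).trans ?_
  rw [expect_comm, mul_expect]
  refine expect_le_expect fun w _ => ?_
  rw [expect_comm, mul_expect]
  refine expect_le_expect fun w' _ => ?_
  split_ifs with h
  · rw [expect_indep (A w) (ψ w) (ψ w') (fun β β' hβ => by simp only [ψ, hdep w β β' hβ])
      (fun β β' hβ => by
        simp only [ψ, hdep w' β β' fun v hv => hβ v fun hv' => Set.disjoint_left.1 h hv' hv]),
      h2, zero_mul, mul_zero]
  · refine expect_le univ_nonempty fun β _ => ?_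
    have a1 := abs_mul (ψ w β) (ψ w' β)
    have a2 := mul_le_mul (h1 w β) (h1 w' β) (abs_nonneg _) ((abs_nonneg _).trans (h1 w β))
    have a3 := le_abs_self (ψ w β * ψ w' β)
    nlinarith

end Var

section Lim

variable {X : Type} [TopologicalSpace X] [CompactSpace X] [MeasurableSpace X] [BorelSpace X]

theorem integ {f : X → ℝ} (hf : Continuous f) (ν : Measure X) [IsFiniteMeasure ν] :
    Integrable f ν :=
  (BoundedContinuousFunction.mkOfCompact ⟨f, hf⟩).integrable ν

/-- a cluster point of a sequence of probability measures -/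
theorem exists_lim [TopologicalSpace.MetrizableSpace X] (μs : ℕ → Measure X)
    [∀ n, IsProbabilityMeasure (μs n)] : ∃ μ : Measure X, IsProbabilityMeasure μ ∧
      ∀ (f : X → ℝ) (c : ℝ), Continuous f → (∀ᶠ n in atTop, ∫ x, f x ∂μs n ≤ c) →
        ∫ x, f x ∂μ ≤ c := by
  let P : ℕ → ProbabilityMeasure X := fun n => ⟨μs n, inferInstance⟩
  obtain ⟨μ, hμ⟩ := exists_clusterPt_of_compactSpace (map P atTop)
  refine ⟨μ, inferInstance, fun f c hf h => ?_⟩
  have hc : IsClosed {ν : ProbabilityMeasure X | ∫ x, f x ∂(ν : Measure X) ≤ c} :=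
    isClosed_le (ProbabilityMeasure.continuous_integral_boundedContinuousFunction
      (BoundedContinuousFunction.mkOfCompact ⟨f, hf⟩)) continuous_const
  exact hc.closure_subset (mem_closure_iff_clusterPt.2 (hμ.mono (le_principal_iff.2 h)))

/-- measures on a profinite space are determined by clopen sets -/
theorem ext_clopen [T2Space X] [TotallyDisconnectedSpace X] [SecondCountableTopology X]
    (μ ν : Measure X) [IsProbabilityMeasure μ] [IsProbabilityMeasure ν]
    (h : ∀ C, IsClopen C → μ C = ν C) : μ = ν := by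
  refine ext_of_generate_finite {C | IsClopen C} ?_ (fun a ha b hb _ => ha.inter hb) h (by simp)
  rw [BorelSpace.measurable_eq (α := X)]
  exact isTopologicalBasis_isClopen.borel_eq_generateFrom

omit [CompactSpace X] [MeasurableSpace X] [BorelSpace X] in
theorem cont_ind {C : Set X} (hC : IsClopen C) : Continuous (C.indicator fun _ => (1 : ℝ)) :=
  hC.continuous_indicator continuous_const

/-- invariance from equality of integrals of indicators of clopen sets -/
theorem mp_of_clopen [T2Space X] [TotallyDisconnectedSpace X] [SecondCountableTopology X]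
    (μ : Measure X) [IsProbabilityMeasure μ] {T : X → X} (hT : Continuous T)
    (h : ∀ C, IsClopen C → ∫ x, (C.indicator (fun _ => (1 : ℝ)) (T x) -
      C.indicator (fun _ => (1 : ℝ)) x) ∂μ ≤ 0) : MeasurePreserving T μ μ := by
  have key : ∀ C, IsClopen C → μ (T ⁻¹' C) ≤ μ C := fun C hC => by
    have h1 := h C hC
    rw [integral_sub (f := fun x => C.indicator (fun _ => (1 : ℝ)) (T x))
      (integ ((cont_ind hC).comp hT) μ) (integ (cont_ind hC) μ)] at h1
    have h2 : (fun x => C.indicator (fun _ => (1 : ℝ)) (T x)) =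
        (T ⁻¹' C).indicator fun _ => (1 : ℝ) := rfl
    rw [h2, integral_indicator_const _ (hC.preimage hT).isOpen.measurableSet,
      integral_indicator_const _ hC.isOpen.measurableSet] at h1
    simp only [smul_eq_mul, mul_one, sub_nonpos] at h1
    exact (ENNReal.toReal_le_toReal (measure_ne_top _ _) (measure_ne_top _ _)).1 h1
  have := Measure.isProbabilityMeasure_map (μ := μ) hT.measurable.aemeasurable
  refine ⟨hT.measurable, ext_clopen _ _ fun C hC => ?_⟩
  rw [Measure.map_apply hT.measurable hC.isOpen.measurableSet]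
  refine le_antisymm (key C hC) ?_
  have h1 := key Cᶜ hC.compl
  rw [Set.preimage_compl, prob_compl_eq_one_sub (hC.preimage hT).isOpen.measurableSet,
    prob_compl_eq_one_sub hC.isOpen.measurableSet] at h1
  exact (ENNReal.sub_le_sub_iff_left prob_le_one ENNReal.one_ne_top).1 h1

/-- a measurable map to a countable set is close to a locally constant map -/
theorem approx [T2Space X] [TotallyDisconnectedSpace X] [SecondCountableTopology X]
    (μ : Measure X) [IsProbabilityMeasure μ] {Γ : Type} [Countable Γ] [Nonempty Γ] (c : X → Γ)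
    (hc : ∀ g, MeasurableSet (c ⁻¹' {g})) {ε : ENNReal} (hε : ε ≠ 0) :
    ∃ τ : X → Γ, IsLocallyConstant τ ∧ μ {x | τ x ≠ c x} ≤ ε := by
  classical
  have : TopologicalSpace.MetrizableSpace X :=
    TopologicalSpace.metrizableSpace_of_t3_secondCountable X
  obtain ⟨e, he⟩ := exists_surjective_nat Γ
  let T : ℕ → Set X := disjointed fun n => c ⁻¹' {e n}
  have hT : ∀ n, MeasurableSet (T n) := MeasurableSet.disjointed fun n => hc _
  obtain ⟨δ, hδ0, hδ⟩ := ENNReal.exists_pos_sum_of_countable (ENNReal.half_pos hε).ne' ℕ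
  have h1 : ∀ n, ∃ K ⊆ T n, IsCompact K ∧ μ (T n \ K) < δ n := fun n =>
    (hT n).exists_isCompact_sdiff_lt (measure_ne_top _ _) (by simpa using (hδ0 n).ne')
  choose K hK1 hK2 hK3 using h1
  have h2 : Tendsto (fun N => μ (⋃ n ∈ Finset.range N, T n)ᶜ) atTop (𝓝 0) := by
    have := tendsto_measure_iInter_atTop (μ := μ) (s := fun N => (⋃ n ∈ Finset.range N, T n)ᶜ)
      (fun N => (Finset.measurableSet_biUnion _ fun n _ => hT n).compl.nullMeasurableSet)
      (fun a b hab => Set.compl_subset_compl.2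
        (Set.biUnion_subset_biUnion_left (by simpa using Finset.range_mono hab)))
      ⟨0, measure_ne_top _ _⟩
    rwa [show (⋂ N, (⋃ n ∈ Finset.range N, T n)ᶜ) = ∅ from ?_, measure_empty] at this
    refine Set.eq_empty_of_forall_notMem fun x hx => ?_
    obtain ⟨n, hn⟩ := he (c x)
    have : x ∈ ⋃ n, T n := by
      rw [iUnion_disjointed]
      exact Set.mem_iUnion.2 ⟨n, hn.symm⟩
    obtain ⟨k, hk⟩ := Set.mem_iUnion.1 this
    exact Set.mem_iInter.1 hx (k + 1) (Set.mem_biUnion (Finset.self_mem_range_succ k) hk)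
  obtain ⟨N, hN⟩ := (h2.eventually (gt_mem_nhds (ENNReal.half_pos hε))).exists
  have h3 : ∀ n, ∃ C, IsClopen C ∧ K n ⊆ C ∧ C ⊆ (⋃ k ∈ (Finset.range N).erase n, K k)ᶜ := by
    intro n
    refine exists_clopen_of_closed_subset_open (hK2 n).isClosed
      (isClosed_biUnion_finset fun k _ => (hK2 k).isClosed).isOpen_compl fun x hx hx' => ?_
    obtain ⟨k, hk, hx''⟩ := Set.mem_iUnion₂.1 hx'
    exact Set.disjoint_left.1 (disjoint_disjointed (fun n => c ⁻¹' {e n})
      (Finset.ne_of_mem_erase hk)) (hK1 k hx'') (hK1 n hx)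
  choose C hC1 hC2 hC3 using h3
  let σ : X → (Fin N → Bool) := fun x n => decide (x ∈ C n)
  have hσ : IsLocallyConstant σ := by
    rw [IsLocallyConstant.iff_continuous]
    refine continuous_pi fun n => ?_
    exact (continuous_bool_rng true).2 (by simpa [σ, Set.preimage] using hC1 n)
  let ρ : (Fin N → Bool) → Γ := fun s =>
    if h : ∃ n, s n = true then e (h.choose : Fin N) else Classical.arbitrary Γ
  refine ⟨ρ ∘ σ, hσ.comp ρ, ?_⟩
  have h4 : {x | (ρ ∘ σ) x ≠ c x} ⊆ (⋃ n ∈ Finset.range N, T n)ᶜ ∪ ⋃ n, T n \ K n := by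
    intro x hx
    by_contra h
    rw [Set.mem_union, not_or, Set.mem_compl_iff, not_not] at h
    obtain ⟨n, hn, hx1⟩ := Set.mem_iUnion₂.1 h.1
    rw [Finset.mem_range] at hn
    have hx3 : x ∈ K n := by
      by_contra h'
      exact h.2 (Set.mem_iUnion.2 ⟨n, hx1, h'⟩)
    have hex : ∃ k : Fin N, σ x k = true := ⟨⟨n, hn⟩, by simpa [σ] using hC2 n hx3⟩
    have hk : x ∈ C hex.choose := by simpa [σ] using hex.choose_spec
    have hkn : (hex.choose : ℕ) = n := by
      by_contra hne
      exact hC3 _ hk (Set.mem_biUnion (Finset.mem_erase.2 ⟨Ne.symm hne, Finset.mem_range.2 hn⟩) hx3)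
    apply hx
    have h5 : c x = e n := disjointed_subset (fun n => c ⁻¹' {e n}) n hx1
    simp only [Function.comp, ρ, dif_pos hex, hkn, h5]
  calc μ _ ≤ μ (⋃ n ∈ Finset.range N, T n)ᶜ + μ (⋃ n, T n \ K n) :=
        (measure_mono h4).trans (measure_union_le _ _)
    _ ≤ ε / 2 + ε / 2 := add_le_add hN.le ((measure_iUnion_le _).trans
        ((ENNReal.tsum_le_tsum fun n => (hK3 n).le).trans hδ.le))
    _ = ε := ENNReal.add_halves ε

end Lim

end Gen1

end Pool.Agent.MP_735563_an.H2
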