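import Pool.Agent.MP_735563_an.H2.BasicC
import Pool.Agent.MP_735563_an.H34.Gen1

set_option autoImplicit false

/-! The compact space of invariant marked structures. -/

open MeasureTheory Filter Topology

namespace Pool.Agent.MP_735563_an.H2

variable {p : ℕ}

/-- the labels are invariant under the subgroup -/
def Inv (M : MS p) : Prop := ∀ k ∈ M.2, tr k M.1 = M.1

/-- local functions -/
def LocA {α : Type} (i r : ℕ) (f : MS p → α) : Prop := ∀ M M', Agree i r M M' → f M = f M'

/-- closed conditions -/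
def IsCl (C : MS p → Prop) : Prop := ∀ M, (∀ i r, ∃ M', Agree i r M M' ∧ C M') → C M

theorem Inv.fix {M : MS p} (h : Inv M) {k : Gam p} (hk : k ∈ M.2) : trM k M = M :=
  Prod.ext (h k hk) (cjs_of_mem hk)

theorem Inv.trM {M : MS p} (h : Inv M) (g : Gam p) : Inv (trM g M) := by
  intro k hk
  have h1 := h _ (mem_cjs.1 hk)
  change tr k (tr g M.1) = tr g M.1
  rw [← tr_mul, show k * g = g * (g⁻¹ * k * g) by group, tr_mul, h1]

theorem Agree.refl (i r : ℕ) (M : MS p) : Agree i r M M := ⟨fun _ _ _ _ _ => rfl, fun _ _ => Iff.rfl⟩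

theorem Agree.trans {i r : ℕ} {M M' M'' : MS p} (h : Agree i r M M') (h' : Agree i r M' M'') :
    Agree i r M M'' :=
  ⟨fun u hu κ a b => (h.1 u hu κ a b).trans (h'.1 u hu κ a b),
    fun u hu => (h.2 u hu).trans (h'.2 u hu)⟩

theorem Agree.down {i i' r : ℕ} {M M' : MS p} (h : Agree i r M M') (hi : i' ≤ i) :
    Agree i' r M M' := ⟨fun u hu κ a b => h.1 u hu κ a (by omega), h.2⟩

theorem LocA.mono {α : Type} {i r i' r' : ℕ} {f : MS p → α} (h : LocA i r f) (hi : i ≤ i')
    (hr : r ≤ r') : LocA i' r' f := fun M M' a => h M M' ((a.down hi).mono hr)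

theorem LocA.comp {α β : Type} {i r : ℕ} {f : MS p → α} (h : LocA i r f) (g : α → β) :
    LocA i r fun M => g (f M) := fun M M' a => congrArg g (h M M' a)

theorem LocA.trM {α : Type} {i r : ℕ} {f : MS p → α} (h : LocA i r f) (g : Gam p) :
    LocA i (len g + r) fun M => f (trM g M) := fun M M' a => by
  have := a.trM (x := g⁻¹) (r' := r) (by rw [len_inv])
  rw [inv_inv] at this
  exact h _ _ this

theorem LocA.isCl {i r : ℕ} {C : MS p → Prop} (h : LocA i r C) : IsCl C := fun M hM => by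
  obtain ⟨M', h1, h2⟩ := hM i r
  rwa [h M M' h1]

theorem isCl_forall {ι : Type} {C : ι → MS p → Prop} (h : ∀ j, IsCl (C j)) :
    IsCl fun M => ∀ j, C j M := fun M hM j => h j M fun i r => by
  obtain ⟨M', h1, h2⟩ := hM i r
  exact ⟨M', h1, h2 j⟩

theorem IsCl.and {C C' : MS p → Prop} (h : IsCl C) (h' : IsCl C') : IsCl fun M => C M ∧ C' M :=
  fun M hM => ⟨h M fun i r => (hM i r).imp fun _ a => ⟨a.1, a.2.1⟩,
    h' M fun i r => (hM i r).imp fun _ a => ⟨a.1, a.2.2⟩⟩

theorem IsCl.trM {C : MS p → Prop} (h : IsCl C) (g : Gam p) : IsCl fun M => C (trM g M) :=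
  fun M hM => h _ fun i r => by
    obtain ⟨M', h1, h2⟩ := hM i (len g + r)
    have := h1.trM (x := g⁻¹) (r' := r) (by rw [len_inv])
    rw [inv_inv] at this
    exact ⟨_, this, h2⟩

/-- data of a space of marked structures -/
structure XD (p : ℕ) where
  B : Kind → ℕ
  C : MS p → Prop
  low : ∀ κ, rk κ < 2 → B κ = 0
  cl : IsCl C

/-- the space -/
def XS (𝒳 : XD p) : Type :=
  {M : MS p // Inv M ∧ (∀ x κ, M.1 x κ ≤ 𝒳.B κ) ∧ ∀ g, 𝒳.C (trM g M)}

namespace XS

variable {𝒳 : XD p}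

open Classical in
/-- coordinates -/
noncomputable def emb (M : MS p) : Gam p → (Kind → ℕ) × Bool := fun u => (M.1 u, decide (u ∈ M.2))

theorem emb_inj : Function.Injective (emb (p := p)) := fun M M' h => by
  refine Prod.ext (funext fun u => congrArg Prod.fst (congrFun h u)) (Subgroup.ext fun u => ?_)
  simpa [emb] using congrArg Prod.snd (congrFun h u)

noncomputable instance : TopologicalSpace (XS 𝒳) :=
  TopologicalSpace.induced (fun x => emb x.1) inferInstance

theorem isEmb : IsEmbedding fun x : XS 𝒳 => emb x.1 :=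
  ⟨⟨rfl⟩, fun _ _ h => Subtype.ext (emb_inj h)⟩

instance : MulAction (Gam p) (XS 𝒳) where
  smul g x := ⟨trM g x.1, x.2.1.trM g, fun u κ => x.2.2.1 _ κ,
    fun h => by rw [← trM_mul]; exact x.2.2.2 _⟩
  one_smul x := Subtype.ext (trM_one _)
  mul_smul g h x := Subtype.ext (trM_mul g h _)

theorem smul_val (g : Gam p) (x : XS 𝒳) : (g • x).1 = trM g x.1 := rfl

theorem prop (x : XS 𝒳) : 𝒳.C x.1 := by simpa [trM_one] using x.2.2.2 1

theorem smul_of_mem {x : XS 𝒳} {k : Gam p} (hk : k ∈ x.1.2) : k • x = x :=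
  Subtype.ext (x.2.1.fix hk)

theorem cont_lab (u : Gam p) (κ : Kind) : Continuous fun x : XS 𝒳 => x.1.1 u κ :=
  (continuous_apply κ).comp (continuous_fst.comp ((continuous_apply u).comp isEmb.continuous))

theorem clopen_mem (u : Gam p) : IsClopen {x : XS 𝒳 | u ∈ x.1.2} := by
  have h : Continuous fun x : XS 𝒳 => (emb x.1 u).2 :=
    continuous_snd.comp ((continuous_apply u).comp isEmb.continuous)
  simpa [emb, Set.preimage] using (isClopen_discrete {true}).preimage h

theorem cont_smul (g : Gam p) : Continuous fun x : XS 𝒳 => g • x := by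
  classical
  refine isEmb.continuous_iff.2 (continuous_pi fun u => Continuous.prodMk
    (continuous_pi fun κ => cont_lab (g⁻¹ * u) κ) ?_)
  refine (continuous_bool_rng true).2 ?_
  simpa [emb, smul_val, trM, mem_cjs, Set.preimage] using clopen_mem (𝒳 := 𝒳) (g⁻¹ * u * g)

theorem finite_rk (i : ℕ) : {κ : Kind | rk κ ≤ 2 * i}.Finite := by
  refine ((Set.finite_Iic i).prod (Set.finite_univ (α := Option (Fin 3)))).subset ?_
  rintro ⟨j, c⟩ h
  simp only [Set.mem_ofPred_eq, rk] at h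
  exact ⟨by simp only [Set.mem_Iic]; omega, trivial⟩

variable [NeZero p]

theorem agree_nhds (i r : ℕ) (x : XS 𝒳) : ∀ᶠ y : XS 𝒳 in 𝓝 x, Agree i r x.1 y.1 := by
  have h1 : ∀ᶠ y : XS 𝒳 in 𝓝 x, ∀ u ∈ {u : Gam p | len u ≤ r}, ∀ κ ∈ {κ : Kind | rk κ ≤ 2 * i},
      y.1.1 u κ = x.1.1 u κ :=
    (eventually_all_finite (finite_len_le r)).2 fun u _ =>
      (eventually_all_finite (finite_rk i)).2 fun κ _ =>
        ((cont_lab u κ).tendsto x).eventually (p := fun n => n = x.1.1 u κ) (by simp)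
  have h2 : ∀ᶠ y : XS 𝒳 in 𝓝 x, ∀ u ∈ {u : Gam p | len u ≤ 2 * r}, (u ∈ x.1.2 ↔ u ∈ y.1.2) :=
    (eventually_all_finite (finite_len_le _)).2 fun u _ => by
      by_cases h : u ∈ x.1.2
      · exact mem_of_superset ((clopen_mem u).isOpen.mem_nhds h) fun y hy => iff_of_true h hy
      · exact mem_of_superset ((clopen_mem u).compl.isOpen.mem_nhds h) fun y hy => iff_of_false h hy
  filter_upwards [h1, h2] with y a b
  exact ⟨fun u hu κ _ hκ => (a u hu κ hκ).symm, b⟩

theorem locConst {α : Type} {i r : ℕ} {f : MS p → α} (h : LocA i r f) :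
    IsLocallyConstant fun x : XS 𝒳 => f x.1 :=
  (IsLocallyConstant.iff_eventually_eq _).2 fun x =>
    (agree_nhds i r x).mono fun _ hy => (h _ _ hy).symm

theorem cont {α : Type} [TopologicalSpace α] {i r : ℕ} {f : MS p → α} (h : LocA i r f) :
    Continuous fun x : XS 𝒳 => f x.1 := (locConst h).continuous

theorem clopen {i r : ℕ} {C : MS p → Prop} (h : LocA i r C) : IsClopen {x : XS 𝒳 | C x.1} := by
  simpa [Set.preimage] using (locConst (𝒳 := 𝒳) h).isClopen_fiber True

theorem isClosed_range : IsClosed (Set.range fun x : XS 𝒳 => emb x.1) := by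
  classical
  refine isClosed_of_closure_subset fun y hy => ?_
  have key : ∀ i r, ∃ x : XS 𝒳, (∀ u, len u ≤ r → ∀ κ, rk κ ≤ 2 * i → x.1.1 u κ = (y u).1 κ) ∧
      ∀ u, len u ≤ r → (u ∈ x.1.2 ↔ (y u).2 = true) := by
    intro i r
    have h1 : ∀ᶠ z in 𝓝 y, ∀ u ∈ {u : Gam p | len u ≤ r},
        (∀ κ ∈ {κ : Kind | rk κ ≤ 2 * i}, (z u).1 κ = (y u).1 κ) ∧ (z u).2 = (y u).2 :=
      (eventually_all_finite (finite_len_le r)).2 fun u _ => Eventually.and
        ((eventually_all_finite (finite_rk i)).2 fun κ _ =>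
          (((continuous_apply κ).comp (continuous_fst.comp (continuous_apply u))).tendsto
            y).eventually (p := fun n => n = (y u).1 κ) (by simp))
        (((continuous_snd.comp (continuous_apply u)).tendsto y).eventually
          (p := fun n => n = (y u).2) (by simp))
    obtain ⟨z, h2, x, rfl⟩ := mem_closure_iff_nhds.1 hy _ h1
    exact ⟨x, fun u hu => (h2 u hu).1, fun u hu => by rw [← (h2 u hu).2]; simp [emb]⟩
  let K : Subgroup (Gam p) :=
    { carrier := {u | (y u).2 = true}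
      one_mem' := by
        obtain ⟨x, -, h⟩ := key 0 0
        exact (h 1 len_one.le).1 (one_mem _)
      mul_mem' := fun {a b} ha hb => by
        obtain ⟨x, -, h⟩ := key 0 (len a + len b)
        exact (h _ (len_mul_le a b)).1 (mul_mem ((h a (by omega)).2 ha) ((h b (by omega)).2 hb))
      inv_mem' := fun {a} ha => by
        obtain ⟨x, -, h⟩ := key 0 (len a)
        exact (h _ (len_inv a).le).1 (inv_mem ((h a le_rfl).2 ha)) }
  have hrk : ∀ κ : Kind, rk κ ≤ 2 * (κ.1 + 1) := fun κ => by unfold rk; split_ifs <;> omega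
  refine ⟨⟨(fun u => (y u).1, K), fun k hk => ?_, fun u κ => ?_, fun g => ?_⟩, ?_⟩
  · funext u κ
    obtain ⟨x, h1, h2⟩ := key (κ.1 + 1) (len k + len u)
    have h3 := len_mul_le k⁻¹ u
    rw [len_inv] at h3
    change (y (k⁻¹ * u)).1 κ = (y u).1 κ
    rw [← h1 _ h3 κ (hrk κ), ← h1 u (by omega) κ (hrk κ)]
    exact congrFun (congrFun (x.2.1 k ((h2 k (by omega)).2 hk)) u) κ
  · obtain ⟨x, h1, -⟩ := key (κ.1 + 1) (len u)
    change (y u).1 κ ≤ _
    rw [← h1 u le_rfl κ (hrk κ)]
    exact x.2.2.1 u κ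
  · refine 𝒳.cl.trM g _ fun i r => ?_
    obtain ⟨x, h1, h2⟩ := key i (2 * r)
    exact ⟨x.1, ⟨fun u hu κ _ hκ => (h1 u (by omega) κ hκ).symm, fun u hu => (h2 u hu).symm⟩,
      x.2.2.2 g⟩
  · funext u
    refine Prod.ext rfl ?_
    have : u ∈ K ↔ (y u).2 = true := Iff.rfl
    simp [emb, this]

theorem isClosedEmb : IsClosedEmbedding fun x : XS 𝒳 => emb x.1 := ⟨isEmb, isClosed_range⟩

instance : CompactSpace (XS 𝒳) := by
  have h : IsCompact {y : Gam p → (Kind → ℕ) × Bool | ∀ u, y u ∈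
      {a : Kind → ℕ | ∀ κ, a κ ∈ Set.Iic (𝒳.B κ)} ×ˢ (Set.univ : Set Bool)} :=
    isCompact_pi_infinite fun _ =>
      (isCompact_pi_infinite fun κ => (Set.finite_Iic _).isCompact).prod isCompact_univ
  refine ⟨(isClosedEmb.isCompact_preimage h).of_isClosed_subset isClosed_univ fun x _ u => ?_⟩
  exact ⟨fun κ => x.2.2.1 u κ, trivial⟩

instance : PolishSpace (XS 𝒳) := isClosedEmb.polishSpace

omit [NeZero p] in
instance : TotallyDisconnectedSpace (XS 𝒳) :=
  ⟨isEmb.isTotallyDisconnected (isTotallyDisconnected_of_totallyDisconnectedSpace _)⟩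

omit [NeZero p] in
noncomputable instance : MeasurableSpace (XS 𝒳) := borel _

omit [NeZero p] in
instance : BorelSpace (XS 𝒳) := ⟨rfl⟩

/-- locally constant functions are local -/
theorem exists_loc {α : Type} {τ : XS 𝒳 → α} (h : IsLocallyConstant τ) :
    ∃ r, ∀ x y : XS 𝒳, Agree r r x.1 y.1 → τ x = τ y := by
  have h1 : ∀ x : XS 𝒳, ∃ r, ∀ y : XS 𝒳, Agree r r x.1 y.1 → τ y = τ x := by
    intro x
    by_contra hc
    push Not at hc
    choose y hy1 hy2 using hc
    have h2 : Tendsto y atTop (𝓝 x) := by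
      refine isEmb.tendsto_nhds_iff.2 (tendsto_pi_nhds.2 fun u => Tendsto.prodMk_nhds
        (tendsto_pi_nhds.2 fun κ => tendsto_const_nhds.congr' ?_) (tendsto_const_nhds.congr' ?_))
      · filter_upwards [eventually_ge_atTop (len u + rk κ)] with r hr
        by_cases h0 : rk κ < 2
        · have a1 := x.2.2.1 u κ
          have a2 := (y r).2.2.1 u κ
          rw [𝒳.low κ h0] at a1 a2
          change x.1.1 u κ = (y r).1.1 u κ
          omega
        · exact (hy1 r).1 u (by omega) κ (by omega) (by omega)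
      · filter_upwards [eventually_ge_atTop (len u)] with r hr
        simpa [emb] using (hy1 r).2 u (by omega)
    obtain ⟨r, hr⟩ := (h2.eventually (h.eventually_eq x)).exists
    exact hy2 r hr
  choose ρ hρ using h1
  obtain ⟨t, -, ht⟩ := isCompact_univ.elim_nhds_subcover
    (fun x : XS 𝒳 => {y : XS 𝒳 | Agree (ρ x) (ρ x) x.1 y.1}) fun x _ => agree_nhds _ _ x
  refine ⟨t.sup ρ, fun x y hxy => ?_⟩
  obtain ⟨z, hz, h2⟩ := Set.mem_iUnion₂.1 (ht (Set.mem_univ x))
  have h3 := Finset.le_sup (f := ρ) hz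
  rw [hρ z x h2, hρ z y (Agree.trans h2 ((hxy.down h3).mono h3))]

end XS

end Pool.Agent.MP_735563_an.H2
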