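import Pool.Agent.MP_735563_an.H2.En
import Pool.Agent.MP_735563_an.H2.T

set_option autoImplicit false

/-! The final statement from an ergodic action of the Kazhdan quotient. -/

open MeasureTheory Filter Topology

namespace Pool.Agent.MP_735563_an.H2

/-- no free action of the free group inside the orbits -/
def NoF2 {Γ X : Type} [SMul Γ X] [MeasurableSpace X] (ν : Measure X) : Prop :=
  ¬ ∃ a : FreeGroup (Fin 2) → X → X, (∀ g, MeasurePreserving (a g) ν ν) ∧
    (∀ᵐ x ∂ν, a 1 x = x) ∧ (∀ g h, ∀ᵐ x ∂ν, a (g * h) x = a g (a h x)) ∧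
    (∀ g, g ≠ 1 → ∀ᵐ x ∂ν, a g x ≠ x) ∧ ∀ g, ∀ᵐ x ∂ν, ∃ γ : Γ, a g x = γ • x

/-- the final statement -/
def Final : Prop :=
  ∃ (X : Type) (_ : MeasurableSpace X) (_ : StandardBorelSpace X) (μ : Measure X)
    (_ : IsProbabilityMeasure μ) (E : Set (X × X)),
    (∀ x, μ {x} = 0) ∧ MeasurableSet E ∧ Equivalence (fun x y => (x, y) ∈ E) ∧
    (∀ x, {y | (x, y) ∈ E}.Countable) ∧
    (∀ φ : X ≃ᵐ X, (∀ᵐ x ∂μ, (x, φ x) ∈ E) → MeasurePreserving φ μ μ) ∧
    (∀ B : Set X, MeasurableSet B → (∀ x y, (x, y) ∈ E → x ∈ B → y ∈ B) →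
      μ B = 0 ∨ μ B = 1) ∧
    (∃ (F : Finset (X ≃ᵐ X)) (ε : ℝ), 0 < ε ∧ (∀ φ ∈ F, ∀ x, (x, φ x) ∈ E) ∧
      ∀ ξ : X → ℂ, MemLp ξ 2 μ → ∫ x, ξ x ∂μ = 0 →
        ∃ φ ∈ F, ENNReal.ofReal ε * eLpNorm ξ 2 μ ≤
          eLpNorm (fun x => ξ (φ.symm x) - ξ x) 2 μ) ∧
    PropT μ E ∧
    ¬ ∃ a : FreeGroup (Fin 2) → X → X, (∀ g, MeasurePreserving (a g) μ μ) ∧
      (∀ᵐ x ∂μ, a 1 x = x) ∧ (∀ g h, ∀ᵐ x ∂μ, a (g * h) x = a g (a h x)) ∧
      (∀ g, g ≠ 1 → ∀ᵐ x ∂μ, a g x ≠ x) ∧ ∀ g, ∀ᵐ x ∂μ, (x, a g x) ∈ E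

namespace Fin1

variable {p : ℕ} [NeZero p]

/-- Kazhdan constant for an orthogonal representation -/
theorem kazhdan {N : Fin 3 → Subgroup (Gam p)} (hp : PairIneq p N) {V : Type}
    [NormedAddCommGroup V] [InnerProductSpace ℝ V] [CompleteSpace V] (U : Gam p → V →ₗᵢ[ℝ] V)
    (h1 : ∀ v, U 1 v = v) (hm : ∀ g k v, U g (U k v) = U (g * k) v)
    (hN : ∀ c, ∀ n ∈ N c, ∀ v, U n v = v) (v : V)
    (hv : ∀ w, (∀ g, U g w = w) → inner ℝ w v = 0) :
    ∃ i a, ‖v‖ ≤ 13 * ‖U (gen i a) v - v‖ := by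
  have hp0 : (p : ℝ) ≠ 0 := NeZero.ne _
  let P : Fin 3 → V →L[ℝ] V := fun i =>
    (1 / p : ℝ) • ∑ a : ZMod p, (U (gen i a)).toContinuousLinearMap
  have hP : ∀ i w, P i w = (1 / p : ℝ) • ∑ a : ZMod p, U (gen i a) w := fun i w => by
    simp [P]
  have UP : ∀ i a w, U (gen i a) (P i w) = P i w := fun i a w => by
    simp only [hP, map_smul, map_sum, hm, ← gen_add]
    exact congrArg _ (Equiv.sum_comp (Equiv.addLeft a) fun b => U (gen i b) w)
  have PP : ∀ i w, P i (P i w) = P i w := fun i w => by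
    rw [hP i (P i w)]
    simp only [UP, Finset.sum_const, Finset.card_univ, ZMod.card, ← Nat.cast_smul_eq_nsmul ℝ,
      smul_smul]
    rw [one_div, inv_mul_cancel₀ hp0, one_smul]
  have adj : ∀ i x y, inner ℝ (P i x) y = inner ℝ x (P i y) := fun i x y => by
    simp only [hP, real_inner_smul_left, real_inner_smul_right, sum_inner, inner_sum]
    rw [← Equiv.sum_comp (Equiv.neg (ZMod p))]
    refine congrArg _ (Finset.sum_congr rfl fun a _ => ?_)
    rw [← (U (gen i a)).inner_map_map, hm, ← gen_add, Equiv.neg_apply, add_neg_cancel, gen_zero, h1]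
  have pair : ∀ (w : V) i j, i ≠ j → 0 ≤ 2 * inner ℝ (w - P i w) (w - P j w) +
      (1 / 4) * (inner ℝ (w - P i w) (w - P i w) + inner ℝ (w - P j w) (w - P j w)) := by
    intro w i j hij
    obtain ⟨c, c1, c2⟩ : ∃ c, i ≠ c ∧ j ≠ c := by
      revert i j
      decide
    obtain ⟨Tr, t1, -, t3⟩ := hp c
    have e : ∀ g l, Qv l (fun g : Gam p => U g w) g = U g (w - P l w) := by
      intro g l
      simp only [Qv, hP, map_sub, map_smul, map_sum, hm]
    have k := t3 V (fun g => U g w) (fun y _ n hn => by rw [← hm, hN c n hn]) i j c1 c2 hij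
    simp only [e, ← real_inner_self_eq_norm_sq, LinearIsometry.inner_map_map, Finset.sum_const,
      nsmul_eq_mul] at k
    exact (mul_nonneg_iff_of_pos_left (Nat.cast_pos.2 t1.card_pos)).1 k
  let it : ℕ → V := fun m => Nat.rec v (fun _ w => (1 / 3 : ℝ) • ∑ i, P i w) m
  have it0 : it 0 = v := rfl
  have its : ∀ m, it (m + 1) = (1 / 3 : ℝ) • ∑ i, P i (it m) := fun _ => rfl
  let En : V → ℝ := fun w => ∑ i, inner ℝ (w - P i w) (w - P i w)
  have k : ∀ m, En (it (m + 1)) ≤ (5 / 6) * En (it m) ∧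
      inner ℝ (it (m + 1) - it m) (it (m + 1) - it m) ≤ (1 / 3) * En (it m) := fun m =>
    enAbs V (innerₗ V) (fun i => (P i : V →ₗ[ℝ] V)) (fun x y => real_inner_comm y x)
      (fun x => real_inner_self_nonneg) adj (fun i x y => congrArg (inner ℝ · y) (PP i x))
      (it m) (pair _) _ rfl
  obtain ⟨q, -, hq⟩ := Finset.exists_max_image (Finset.univ : Finset (Fin 3 × ZMod p))
    (fun q => ‖U (gen q.1 q.2) v - v‖) Finset.univ_nonempty
  set b := ‖U (gen q.1 q.2) v - v‖ with hb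
  have b0 : 0 ≤ b := norm_nonneg _
  have e0 : ∀ i, ‖v - P i v‖ ≤ b := fun i => by
    have : v - P i v = (1 / p : ℝ) • ∑ a : ZMod p, (v - U (gen i a) v) := by
      rw [hP, Finset.sum_sub_distrib, smul_sub, T.avg]
    rw [this]
    exact T.avg_le _ fun a => by rw [norm_sub_rev]; exact hq (i, a) (Finset.mem_univ _)
  have e1 : ∀ m, En (it m) ≤ 3 * (b * (23 / 25) ^ m) ^ 2 := fun m => by
    induction m with
    | zero =>
      have := fun i => pow_le_pow_left₀ (norm_nonneg _) (e0 i) 2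
      simp only [En, it0, real_inner_self_eq_norm_sq, Fin.sum_univ_three]
      linarith [this 0, this 1, this 2]
    | succ m ih =>
      have := sq_nonneg (b * (23 / 25) ^ m)
      rw [pow_succ (23 / 25 : ℝ) m, ← mul_assoc, mul_pow]
      linarith [(k m).1]
  have e2 : ∀ m, dist (it m) (it (m + 1)) ≤ b * (23 / 25) ^ m := fun m => by
    rw [dist_comm, dist_eq_norm]
    refine abs_le_of_sq_le_sq' ?_ (by positivity) |>.2
    rw [← real_inner_self_eq_norm_sq]
    linarith [(k m).2, e1 m]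
  obtain ⟨w, hw⟩ := cauchySeq_tendsto_of_complete
    (cauchySeq_of_le_geometric (23 / 25) b (by norm_num) e2)
  have e3 := dist_le_of_le_geometric_of_tendsto₀ (23 / 25) b (by norm_num) e2 hw
  have e4 : ∀ i, P i w = w := fun i => by
    have a1 : Tendsto (fun m => it m - P i (it m)) atTop (𝓝 (w - P i w)) :=
      hw.sub (((P i).continuous.tendsto w).comp hw)
    have a2 : Tendsto (fun m => it m - P i (it m)) atTop (𝓝 0) := by
      refine squeeze_zero_norm (a := fun m => 2 * b * (23 / 25) ^ m) (fun m => ?_) ?_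
      · refine abs_le_of_sq_le_sq' ?_ (by positivity) |>.2
        have := Finset.single_le_sum (f := fun i => inner ℝ (it m - P i (it m)) (it m - P i (it m)))
          (fun i _ => real_inner_self_nonneg) (Finset.mem_univ i)
        have a3 := e1 m
        have := sq_nonneg (b * (23 / 25) ^ m)
        rw [← real_inner_self_eq_norm_sq, mul_assoc, mul_pow]
        simp only [En] at a3
        linarith
      · simpa using (tendsto_pow_atTop_nhds_zero_of_lt_one (r := (23 / 25 : ℝ)) (by norm_num)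
          (by norm_num)).const_mul (2 * b)
    exact (sub_eq_zero.1 (tendsto_nhds_unique a1 a2)).symm
  have e5 : ∀ g, U g w = w := fun g => by
    obtain ⟨l, rfl⟩ := exists_lprod g
    induction l with
    | nil => exact h1 w
    | cons a l ih => rw [lprod_cons, ← hm, ih, ← e4 a.1, UP]
  have e6 : ∀ m, inner ℝ w (it m) = 0 := fun m => by
    induction m with
    | zero => exact hv w e5
    | succ m ih =>
      rw [its, real_inner_smul_right, inner_sum]
      simp only [← adj, e4, ih, Finset.sum_const_zero, mul_zero]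
  have e7 : w = 0 := by
    have a1 : Tendsto (fun m => inner ℝ w (it m)) atTop (𝓝 (inner ℝ w w)) :=
      tendsto_const_nhds.inner hw
    simp only [e6] at a1
    exact inner_self_eq_zero.1 (tendsto_nhds_unique a1 tendsto_const_nhds)
  refine ⟨q.1, q.2, ?_⟩
  rw [e7, it0, dist_zero_right] at e3
  rw [← hb]
  norm_num at e3
  linarith

variable {X : Type} [MeasurableSpace X] [MulAction (Gam p) X] {ν : Measure X}

omit [NeZero p] in
theorem erg_ae [IsProbabilityMeasure ν]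
    (hmp : ∀ g : Gam p, MeasurePreserving (fun x : X => g • x) ν ν)
    (herg : ∀ B : Set X, MeasurableSet B → (∀ (g : Gam p) x, x ∈ B → g • x ∈ B) →
      ν B = 0 ∨ ν B = 1) {f : X → ℂ} (hf : Measurable f)
    (hi : ∀ g : Gam p, ∀ᵐ x ∂ν, f (g • x) = f x) : ∃ c, f =ᵐ[ν] fun _ => c := by
  refine exists_eventuallyEq_const_of_forall_separating MeasurableSet fun U hU => ?_
  have hB : MeasurableSet {x | ∀ g : Gam p, f (g • x) ∈ U} := by
    rw [Set.ofPred_forall]
    exact MeasurableSet.iInter fun g => (hf.comp (hmp g).measurable) hU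
  have hi' := ae_all_iff.2 hi
  rcases herg _ hB (fun g x hx h => by rw [← mul_smul]; exact hx _) with h | h
  · right
    filter_upwards [measure_eq_zero_iff_ae_notMem.1 h, hi'] with x k1 k2 k3
    exact k1 fun g => by rwa [k2]
  · left
    filter_upwards [(mem_ae_iff_prob_eq_one hB).2 h] with x hx
    simpa using hx 1

omit [NeZero p] in
theorem pmp_ae [StandardBorelSpace X] [IsProbabilityMeasure ν]
    (hmp : ∀ g : Gam p, MeasurePreserving (fun x : X => g • x) ν ν)
    (φ : X ≃ᵐ X) (hE : ∀ᵐ x ∂ν, ∃ g : Gam p, φ x = g • x) : MeasurePreserving φ ν ν := by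
  have hT0 : ∀ g : Gam p, MeasurableSet {x | φ x = g • x} := fun g =>
    measurableSet_eq_fun φ.measurable (hmp g).measurable
  obtain ⟨e, he⟩ := exists_surjective_nat (Gam p)
  let T : ℕ → Set X := disjointed fun n => {x | φ x = e n • x}
  have hT : ∀ n, MeasurableSet (T n) := MeasurableSet.disjointed fun n => hT0 _
  have hT1 : ∀ n, ∀ x ∈ T n, φ x = e n • x := fun n x hx => disjointed_subset _ n hx
  have key : ∀ B, MeasurableSet B → ν (φ ⁻¹' B) ≤ ν B := by
    intro B hB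
    let D : ℕ → Set X := fun n => (fun y => (e n)⁻¹ • y) ⁻¹' (φ ⁻¹' B ∩ T n)
    have hD0 : ∀ n, MeasurableSet (φ ⁻¹' B ∩ T n) := fun n => (φ.measurable hB).inter (hT n)
    have hD : ∀ n, MeasurableSet (D n) := fun n => (hmp _).measurable (hD0 n)
    calc ν (φ ⁻¹' B) ≤ ν (⋃ n, φ ⁻¹' B ∩ T n) := by
          refine measure_mono_ae (hE.mono fun x hx hxB => ?_)
          obtain ⟨g, hg⟩ := hx
          obtain ⟨n, rfl⟩ := he g
          have : x ∈ ⋃ n, T n := by
            rw [iUnion_disjointed]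
            exact Set.mem_iUnion.2 ⟨n, hg⟩
          obtain ⟨k, hk⟩ := Set.mem_iUnion.1 this
          exact Set.mem_iUnion.2 ⟨k, hxB, hk⟩
      _ ≤ ∑' n, ν (φ ⁻¹' B ∩ T n) := measure_iUnion_le _
      _ = ∑' n, ν (D n) := tsum_congr fun n =>
          ((hmp _).measure_preimage (hD0 n).nullMeasurableSet).symm
      _ = ν (⋃ n, D n) := by
          refine (measure_iUnion (fun n n' hn => ?_) hD).symm
          refine Set.disjoint_left.2 fun y h1 h2 => ?_
          have b1 := hT1 _ _ h1.2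
          have b2 := hT1 _ _ h2.2
          rw [smul_inv_smul] at b1 b2
          have b3 := h2.2
          rw [← φ.injective (b1.trans b2.symm)] at b3
          exact Set.disjoint_left.1 (disjoint_disjointed _ hn) h1.2 b3
      _ ≤ ν B := by
          refine measure_mono (Set.iUnion_subset fun n y hy => ?_)
          have b0 : φ ((e n)⁻¹ • y) ∈ B := hy.1
          rwa [hT1 _ _ hy.2, smul_inv_smul] at b0
  refine ⟨φ.measurable, ?_⟩
  ext B hB
  rw [Measure.map_apply φ.measurable hB]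
  refine le_antisymm (key B hB) ?_
  have h1 := key Bᶜ hB.compl
  rw [Set.preimage_compl, prob_compl_eq_one_sub (φ.measurable hB), prob_compl_eq_one_sub hB] at h1
  exact (ENNReal.sub_le_sub_iff_left prob_le_one ENNReal.one_ne_top).1 h1

theorem gap [IsProbabilityMeasure ν] {N : Fin 3 → Subgroup (Gam p)} (hp : PairIneq p N)
    (hmp : ∀ g : Gam p, MeasurePreserving (fun x : X => g • x) ν ν)
    (hN : ∀ c, ∀ n ∈ N c, ∀ x : X, n • x = x)
    (herg : ∀ B : Set X, MeasurableSet B → (∀ (g : Gam p) x, x ∈ B → g • x ∈ B) →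
      ν B = 0 ∨ ν B = 1) (ξ : X → ℂ) (hξ : MemLp ξ 2 ν) (h0 : ∫ x, ξ x ∂ν = 0) :
    ∃ i a, ENNReal.ofReal (1 / 13) * eLpNorm ξ 2 ν ≤
      eLpNorm (fun x => ξ ((gen i a : Gam p)⁻¹ • x) - ξ x) 2 ν := by
  let U : Gam p → Lp ℂ 2 ν →ₗᵢ[ℝ] Lp ℂ 2 ν := fun g =>
    Lp.compMeasurePreservingₗᵢ ℝ (fun x => g⁻¹ • x) (hmp g⁻¹)
  have hU : ∀ g v, ∀ᵐ x ∂ν, U g v x = v (g⁻¹ • x) := fun g v =>
    Lp.coeFn_compMeasurePreserving v (hmp g⁻¹)
  obtain ⟨i, a, h⟩ := kazhdan hp U
    (fun v => Lp.ext ((hU 1 v).mono fun x hx => by rw [hx, inv_one, one_smul]))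
    (fun g k v => Lp.ext (by
      filter_upwards [hU g (U k v), hU (g * k) v,
        (hmp g⁻¹).quasiMeasurePreserving.ae (hU k v)] with x k1 k2 k3
      rw [k1, k2, k3, mul_inv_rev, mul_smul]))
    (fun c n hn v => Lp.ext ((hU n v).mono fun x hx => by rw [hx, hN c _ (inv_mem hn)]))
    (hξ.toLp ξ) (fun w hw => by
      obtain ⟨c, hc⟩ := erg_ae hmp herg (Lp.stronglyMeasurable w).measurable fun g => by
        have := hU g⁻¹ w
        rw [hw] at this
        exact this.mono fun x hx => by rw [hx, inv_inv]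
      rw [L2.inner_def, integral_congr_ae (g := fun x => inner ℝ c (ξ x))
        (by filter_upwards [hc, hξ.coeFn_toLp] with x k1 k2 using by rw [k1, k2]),
        integral_inner (hξ.integrable one_le_two), h0, inner_zero_right])
  refine ⟨i, a, ?_⟩
  have e : (U (gen i a) (hξ.toLp ξ) - hξ.toLp ξ : Lp ℂ 2 ν) =ᵐ[ν]
      fun x => ξ ((gen i a : Gam p)⁻¹ • x) - ξ x := by
    filter_upwards [Lp.coeFn_sub (U (gen i a) (hξ.toLp ξ)) (hξ.toLp ξ), hU (gen i a) (hξ.toLp ξ),
      hξ.coeFn_toLp, (hmp (gen i a)⁻¹).quasiMeasurePreserving.ae hξ.coeFn_toLp] with x k1 k2 k3 k4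
    rw [k1, Pi.sub_apply, k2, k3, k4]
  rw [← eLpNorm_congr_ae e, ← eLpNorm_congr_ae hξ.coeFn_toLp, ← Lp.enorm_def, ← Lp.enorm_def,
    ← ofReal_norm, ← ofReal_norm, ← ENNReal.ofReal_mul (by norm_num)]
  exact ENNReal.ofReal_le_ofReal (by linarith)

end Fin1

open Fin1 in
/-- the final statement from a suitable action -/
theorem final_of (p : ℕ) [NeZero p] (N : Fin 3 → Subgroup (Gam p)) (hp : PairIneq p N) (X : Type)
    [MeasurableSpace X] [StandardBorelSpace X] [MulAction (Gam p) X] (ν : Measure X)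
    [IsProbabilityMeasure ν] (hmp : ∀ g : Gam p, MeasurePreserving (fun x : X => g • x) ν ν)
    (hN : ∀ c, ∀ n ∈ N c, ∀ x : X, n • x = x)
    (herg : ∀ B : Set X, MeasurableSet B → (∀ (g : Gam p) x, x ∈ B → g • x ∈ B) →
      ν B = 0 ∨ ν B = 1) (hat : ∀ x, ν {x} = 0) (hF : NoF2 (Γ := Gam p) ν) : Final := by
  classical
  let φ : Fin 3 × ZMod p → X ≃ᵐ X := fun q =>
    { toEquiv := MulAction.toPerm (gen q.1 q.2 : Gam p)
      measurable_toFun := (hmp _).measurable
      measurable_invFun := (hmp _).measurable }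
  refine ⟨X, inferInstance, inferInstance, ν, inferInstance, {q | ∃ g : Gam p, q.2 = g • q.1},
    hat, ?_, ⟨?_, ?_, ?_⟩, ?_, fun φ h => pmp_ae hmp φ h, ?_,
    ⟨Finset.univ.image φ, 1 / 13, by norm_num, ?_, fun ξ h1 h2 => ?_⟩,
    propT enAbs p N hp X ν hmp hN herg, hF⟩
  · rw [Set.ofPred_exists]
    exact MeasurableSet.iUnion fun g =>
      measurableSet_eq_fun measurable_snd ((hmp g).measurable.comp measurable_fst)
  · exact fun x => ⟨1, (one_smul _ _).symm⟩
  · rintro x y ⟨g, hg⟩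
    exact ⟨g⁻¹, by simp only at hg ⊢; rw [hg, inv_smul_smul]⟩
  · rintro x y z ⟨g, hg⟩ ⟨k, hk⟩
    exact ⟨k * g, by simp only at hg hk ⊢; rw [hk, hg, mul_smul]⟩
  · intro x
    refine (Set.countable_range fun g : Gam p => g • x).mono ?_
    rintro y ⟨g, hg⟩
    exact ⟨g, hg.symm⟩
  · exact fun B hB hinv => herg B hB fun g x hx => hinv x _ ⟨g, rfl⟩ hx
  · intro ψ hψ x
    obtain ⟨q, -, rfl⟩ := Finset.mem_image.1 hψ
    exact ⟨gen q.1 q.2, rfl⟩
  · obtain ⟨i, a, h⟩ := gap hp hmp hN herg ξ h1 h2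
    exact ⟨φ (i, a), Finset.mem_image_of_mem _ (Finset.mem_univ _), h⟩

end Pool.Agent.MP_735563_an.H2
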