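import Pool.Agent.MP_735563_an.H2.Spec3
import Pool.Agent.MP_735563_an.H34.Space
import Pool.Agent.MP_735563_an.H34.Fin

set_option autoImplicit false

/-! Interface between the rule of a level and the measure layer, and the measure rows. -/

open MeasureTheory Filter Topology
open scoped BigOperators

namespace Pool.Agent.MP_735563_an.H2

section defs

variable {p : ℕ}

open Classical in
/-- indicator function -/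
noncomputable def ind (C : MS p → Prop) (M : MS p) : ℝ := if C M then 1 else 0

/-- `y β` is `M` with the marks of level `i` on the ball of radius `r` given by `β`; the index
`ι u` only records the class of `u` -/
structure FamM (i n r : ℕ) {V : Type} (ι : Gam p → V) (y : (V → Fin n) → MS p) (M : MS p) :
    Prop where
  cls : ∀ u v, len u ≤ r → len v ≤ r → (ι u = ι v ↔ v * u⁻¹ ∈ M.2)
  inv : ∀ β, Inv (y β)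
  grp : ∀ β, (y β).2 = M.2
  oth : ∀ β u κ, κ ≠ (i, none) → (y β).1 u κ = M.1 u κ
  mark : ∀ β u, len u ≤ r → (y β).1 u (i, none) = β (ι u) + 1

/-- the average of `Φ` over independent uniform marks of level `i` is at most `c` -/
def Cond (i n r : ℕ) (Φ : MS p → ℝ) (c : ℝ) : Prop :=
  ∀ (V : Type) [Fintype V] [DecidableEq V] (ι : Gam p → V) (y : (V → Fin n) → MS p) (M : MS p),
    FamM i n r ι y M → 𝔼 β, Φ (y β) ≤ c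

/-- some class is far from the base point -/
def Far (R : ℕ) (M : MS p) : Prop := ∃ y, ∀ k ∈ M.2, R < len (k * y)

/-- the hypotheses of the spreading lemma -/
def BaseR (N : Fin 3 → Subgroup (Gam p)) (R : ℕ) (M : MS p) : Prop :=
  (∀ x, len x ≤ R → ∀ c, ∀ n ∈ N c, x * n * x⁻¹ ∈ M.2) ∧ Far R M

/-- the same for structures that satisfy `BaseR` -/
def CondB (N : Fin 3 → Subgroup (Gam p)) (i n r : ℕ) (Φ : MS p → ℝ) (c : ℝ) : Prop :=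
  ∀ (V : Type) [Fintype V] [DecidableEq V] (ι : Gam p → V) (y : (V → Fin n) → MS p) (M : MS p),
    BaseR N r M → FamM i n r ι y M → 𝔼 β, Φ (y β) ≤ c

/-- chains of rule steps from the base point stay within distance `D` -/
def CompC (cen : MS p → Fin 3 → Prop) (nb : MS p → Fin 3 → Set (Gam p)) (D : ℕ) (M : MS p) :
    Prop :=
  ∀ (ξ : ℕ → Gam p) (n : ℕ), ξ 0 = 1 → (∀ t < n, cen (trM (ξ t)⁻¹ M) 0 ∧
    ∃ w ∈ nb (trM (ξ t)⁻¹ M) 0, ξ (t + 1) = ξ t * w) → ∃ k ∈ M.2, len (k * ξ n) ≤ D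

/-- a free action of the free group on a conull invariant set where stabilisers are the marked
subgroups -/
structure FreeOn {𝒳 : XD p} [NeZero p] (ν : Measure (XS 𝒳)) (N₀ : Set (XS 𝒳))
    (a : FreeGroup (Fin 2) → XS 𝒳 → XS 𝒳) : Prop where
  meas : MeasurableSet N₀
  full : ν N₀ᶜ = 0
  mp : ∀ g, MeasurePreserving (a g) ν ν
  smul : ∀ g : Gam p, ∀ x ∈ N₀, g • x ∈ N₀
  inv : ∀ g, ∀ x ∈ N₀, a g x ∈ N₀
  one : ∀ x ∈ N₀, a 1 x = x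
  mul : ∀ g h, ∀ x ∈ N₀, a (g * h) x = a g (a h x)
  free : ∀ g, ∀ x ∈ N₀, a g x = x → g = 1
  stab : ∀ x ∈ N₀, ∀ u : Gam p, u • x = x → u ∈ x.1.2

/-- observables of a level -/
structure Obs (p : ℕ) where
  ψ : MS p → ℝ
  Cl : MS p → Prop
  r : ℕ
  b : ℝ
  n : ℕ

structure ObsOK (i : ℕ) (ε : ℝ) (O : Obs p) : Prop where
  locψ : LocA i O.r O.ψ
  locC : LocA i O.r O.Cl
  bd : ∀ M, |O.ψ M| ≤ O.b
  exp : Cond i O.n O.r O.ψ 0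
  col : Cond i O.n O.r (ind O.Cl) ε
  sep : ∀ M u, len u ≤ i → trM u⁻¹ M = M → ¬ O.Cl M → u ∈ M.2

/-- a free action close to the task forces a large average of the observable -/
def Kill [NeZero p] (cen : MS p → Fin 3 → Prop) (nb : MS p → Fin 3 → Set (Gam p)) (O : Obs p)
    (τ : MS p → Fin 4 → Gam p) (η : ℝ) : Prop :=
  ∀ (𝒳 : XD p) (ν : Measure (XS 𝒳)) [IsProbabilityMeasure ν],
    (∀ g : Gam p, MeasurePreserving (fun x : XS 𝒳 => g • x) ν ν) →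
    ∀ D, (∀ x : XS 𝒳, CompC cen nb D x.1) → ∀ N₀ a, FreeOn ν N₀ a →
    ν.real {x | ∃ k, a (fg k) x ≠ (τ x.1 k)⁻¹ • x} ≤ η → ν.real {x | O.Cl x.1} ≤ η →
    η < ∫ x, O.ψ x.1 ∂ν

open Classical in
/-- the canonical states over a ball -/
noncomputable def famB (𝔇 : ℕ → Lev p) (N r : ℕ) : Finset (St p) :=
  if h : {s | IsBall 𝔇 N r s}.Finite then h.toFinset else ∅

/-- expectation over the canonical states -/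
noncomputable def EB (𝔇 : ℕ → Lev p) (N r : ℕ) (Φ : MS p → ℝ) : ℝ :=
  ∑ s ∈ famB 𝔇 N r, (W 𝔇 s : ℝ) * Φ (s, Kall 𝔇 s)

/-- average along the random walk -/
noncomputable def PwM [NeZero p] (m : ℕ) (ψ : MS p → ℝ) (M : MS p) : ℝ :=
  𝔼 w : Fin m → Fin 3 × ZMod p, ψ (trM (wprod w)⁻¹ M)

/-- bounds for the labels -/
def Bd (𝔇 : ℕ → Lev p) : Kind → ℕ
  | (0, _) => 0
  | (i + 1, none) => (𝔇 (i + 1)).nE
  | (i + 1, some c) => ((𝔇 (i + 1)).Z c).sup id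

/-- closed conditions that hold in the limit -/
def CW (N : Fin 3 → Subgroup (Gam p)) (𝔇 : ℕ → Lev p) (j : ℕ) (M : MS p) : Prop :=
  (∀ c, N c ≤ M.2) ∧ Far j M ∧ (2 ≤ j → CompC (𝔇 j).cen (𝔇 j).nb (𝔇 j).D M)

theorem mem_famB {𝔇 : ℕ → Lev p} {N r : ℕ} {ℱ : Finset (St p)}
    (h : ∀ s, s ∈ ℱ ↔ IsBall 𝔇 N r s) : famB 𝔇 N r = ℱ := by
  have hf : {s | IsBall 𝔇 N r s}.Finite := ℱ.finite_toSet.subset fun s hs => (h s).2 hs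
  ext s
  rw [famB, dif_pos hf, Set.Finite.mem_toFinset, h]
  rfl

end defs

/-- the rule of one level -/
def StageStmt : Prop := ∀ (p : ℕ) [NeZero p], ∃ η : ℝ, 0 < η ∧
  ∀ (𝔇 : ℕ → Lev p) (i : ℕ) (τ : MS p → Fin 4 → Gam p) (l : ℕ) (ε : ℝ), 2 ≤ i →
  Th 𝔇 (i - 1) → LocA (i - 1) l τ → (∀ M k, len (τ M k) ≤ l) → 0 < ε →
  ∃ O : Obs p, ObsOK i ε O ∧ ∀ θ₀, ∃ A : Lev p, A.nE = O.n ∧ θ₀ ≤ A.θ ∧
    Ctx (Function.update 𝔇 i A) i ∧ Kill A.cen A.nb O τ η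

/-- row Marg: consistency of the marginals -/
def MargStmt : Prop := AllStmt → ∀ (p : ℕ) [NeZero p] (𝔇 : ℕ → Lev p), (∀ n, Th 𝔇 n) →
  ∀ (i r : ℕ) (Φ : MS p → ℝ), LocA (i + 1) r Φ → 2 * r + (𝔇 i).δ ≤ (𝔇 (i + 1)).θ →
  ∀ t R, i < t → EB 𝔇 t R Φ = EB 𝔇 i (𝔇 (i + 1)).θ Φ

/-- row InvB: approximate invariance -/
def InvBStmt : Prop := AllStmt → ∀ (p : ℕ) [NeZero p] (𝔇 : ℕ → Lev p) (t : ℕ), Th 𝔇 t →
  ∀ (r R : ℕ) (Φ : MS p → ℝ) (g : Gam p), LocA (t + 1) r Φ → 2 * r + (𝔇 t).δ + 1 ≤ R →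
  len g ≤ 1 → EB 𝔇 t R (fun M => Φ (trM g M)) = EB 𝔇 t R Φ

/-- row Sup: the canonical states satisfy the closed conditions -/
def SupStmt : Prop := ∀ (p : ℕ) [NeZero p] (N : Fin 3 → Subgroup (Gam p)) (𝔇 : ℕ → Lev p),
  (∀ j, (2 ≤ j → RuleOK 𝔇 j) → IsCl (CW N 𝔇 j)) ∧
  ∀ t R s, 1 ≤ t → Th 𝔇 t → L1 𝔇 N → IsBall 𝔇 t R s → Inc s →
    BaseR N R (s, Kall 𝔇 s) ∧ Inv (s, Kall 𝔇 s) ∧ (∀ x κ, s x κ ≤ Bd 𝔇 κ) ∧
    ∀ j g, j ≤ t → j + len g ≤ R → CW N 𝔇 j (trM g (s, Kall 𝔇 s))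

/-- row Rel: the top marks are independent and uniform -/
def RelStmt : Prop := AllStmt → ∀ (p : ℕ) [NeZero p] (N : Fin 3 → Subgroup (Gam p))
  (𝔇 : ℕ → Lev p) (i R : ℕ) (Φ : MS p → ℝ) (c : ℝ), Th 𝔇 i →
  (∀ s, IsBall 𝔇 i R s → BaseR N R (s, Kall 𝔇 s)) →
  CondB N (i + 1) (𝔇 (i + 1)).nE R Φ c → EB 𝔇 i R Φ ≤ c

/-- row Var: concentration along the random walk -/
def VarStmt : Prop := ∀ (p : ℕ) [NeZero p] (N : Fin 3 → Subgroup (Gam p)) (g : ℕ), NData p N g →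
  ∀ (r : ℕ) (b ε : ℝ), 0 < ε → ∃ m : ℕ, ∀ (i n R : ℕ) (ψ : MS p → ℝ), 0 < n → LocA i r ψ →
  (∀ M, |ψ M| ≤ b) → Cond i n r ψ 0 → m + r ≤ R →
  CondB N i n R (fun M => max (PwM m ψ M) 0 ^ 2) ε

/-- row Lim: the limit measure -/
def LimStmt : Prop := ∀ (p : ℕ) [NeZero p] (𝒳 : XD p) (C : ℕ → MS p → Prop) (S : Type)
  (ℱ : ℕ → Finset S) (w : S → ℝ) (e : S → MS p), (∀ j, IsCl (C j)) →
  (∀ M, (∀ j, C j M) → 𝒳.C M) →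
  (∀ t, ∀ s ∈ ℱ t, 0 ≤ w s ∧ Inv (e s) ∧ ∀ x κ, (e s).1 x κ ≤ 𝒳.B κ) →
  (∀ t, ∑ s ∈ ℱ t, w s = 1) → (∀ j g, ∀ᶠ t in atTop, ∀ s ∈ ℱ t, C j (trM g (e s))) →
  (∀ (i r : ℕ) (Φ : MS p → ℝ) (g : Gam p), LocA i r Φ → len g ≤ 1 → ∀ᶠ t in atTop,
    ∑ s ∈ ℱ t, w s * Φ (trM g (e s)) = ∑ s ∈ ℱ t, w s * Φ (e s)) →
  ∃ μ : Measure (XS 𝒳), IsProbabilityMeasure μ ∧
    (∀ g : Gam p, MeasurePreserving (fun x : XS 𝒳 => g • x) μ μ) ∧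
    ∀ (i r : ℕ) (Φ : MS p → ℝ) (c : ℝ), LocA i r Φ →
      (∀ᶠ t in atTop, ∑ s ∈ ℱ t, w s * Φ (e s) ≤ c) → ∫ x, Φ x.1 ∂μ ≤ c

/-- row Erg: an ergodic measure with small averages -/
def ErgStmt : Prop := ∀ (p : ℕ) [NeZero p] (𝒳 : XD p) (μ : Measure (XS 𝒳))
  [IsProbabilityMeasure μ], (∀ g : Gam p, MeasurePreserving (fun x : XS 𝒳 => g • x) μ μ) →
  ∀ (O : ℕ → Obs p) (m : ℕ → ℕ) (η : ℝ), 0 < η →
  (∀ j, 2 ≤ j → LocA j (O j).r (O j).ψ ∧ LocA j (O j).r (O j).Cl ∧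
    ∫ x, max (PwM (m j) (O j).ψ x.1) 0 ^ 2 ∂μ ≤ η ^ 2 / 2 ^ (j + 2) ∧
    ∫ x, ind (O j).Cl x.1 ∂μ ≤ η / (j + 1) / 2 ^ (j + 2)) →
  ∃ ν : Measure (XS 𝒳), IsProbabilityMeasure ν ∧
    (∀ g : Gam p, MeasurePreserving (fun x : XS 𝒳 => g • x) ν ν) ∧
    (∀ B : Set (XS 𝒳), MeasurableSet B → (∀ (g : Gam p) x, x ∈ B → g • x ∈ B) →
      ν B = 0 ∨ ν B = 1) ∧
    ∀ j, 2 ≤ j → ∫ x, (O j).ψ x.1 ∂ν ≤ η ∧ ν.real {x | (O j).Cl x.1} ≤ η / (j + 1)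

/-- row Atom: stabilisers and atoms -/
def AtomStmt : Prop := ∀ (p : ℕ) [NeZero p] (𝒳 : XD p) (ν : Measure (XS 𝒳))
  [IsProbabilityMeasure ν], (∀ g : Gam p, MeasurePreserving (fun x : XS 𝒳 => g • x) ν ν) →
  ∀ (Cl : ℕ → MS p → Prop) (η : ℝ), (∀ (x : XS 𝒳) R, Far R x.1) →
  (∀ j, 2 ≤ j → ν.real {x | Cl j x.1} ≤ η / (j + 1) ∧
    ∀ M u, len u ≤ j → trM u⁻¹ M = M → ¬ Cl j M → u ∈ M.2) →
  (∀ᵐ x ∂ν, ∀ u : Gam p, u • x = x → u ∈ x.1.2) ∧ ∀ x, ν {x} = 0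

/-- row Task, part 1: a sequence of tasks that contains every locally constant map at
arbitrarily high levels -/
def TaskStmt : Prop := ∀ (p : ℕ) [NeZero p], ∃ (T : ℕ → MS p → Fin 4 → Gam p) (l : ℕ → ℕ),
  (∀ i, LocA (i - 1) (l i) (T i) ∧ ∀ M k, len (T i M k) ≤ l i) ∧
  ∀ (𝒳 : XD p) (τ : XS 𝒳 → Fin 4 → Gam p), IsLocallyConstant τ →
    ∃ i, 2 ≤ i ∧ ∀ x, T i x.1 = τ x

/-- row Task, part 2: a genuine free action and a locally constant approximation -/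
def FreeStmt : Prop := ∀ (p : ℕ) [NeZero p] (𝒳 : XD p) (ν : Measure (XS 𝒳))
  [IsProbabilityMeasure ν], (∀ g : Gam p, MeasurePreserving (fun x : XS 𝒳 => g • x) ν ν) →
  (∀ᵐ x ∂ν, ∀ u : Gam p, u • x = x → u ∈ x.1.2) → ¬ NoF2 (Γ := Gam p) ν → ∀ η : ℝ, 0 < η →
  ∃ (N₀ : Set (XS 𝒳)) (a : FreeGroup (Fin 2) → XS 𝒳 → XS 𝒳) (τ : XS 𝒳 → Fin 4 → Gam p),
    FreeOn ν N₀ a ∧ IsLocallyConstant τ ∧ ν.real {x | ∃ k, a (fg k) x ≠ (τ x k)⁻¹ • x} ≤ η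

/-- row Rec: the recursion over the levels -/
def RecStmt : Prop := ∀ (p : ℕ) [NeZero p] (N : Fin 3 → Subgroup (Gam p))
  (Q : ℕ → Lev p → Lev p → Prop),
  (∃ A : Lev p, ∀ 𝔇 : ℕ → Lev p, (𝔇 0).δ = 2 → 𝔇 1 = A → OK 𝔇 1 ∧ L1 𝔇 N) →
  (∀ (𝔇 : ℕ → Lev p) (i : ℕ), 2 ≤ i → OKs 𝔇 (i - 1) → L1 𝔇 N →
    ∃ A : Lev p, OK (Function.update 𝔇 i A) i ∧ Q i (𝔇 (i - 1)) A) →
  ∃ 𝔇 : ℕ → Lev p, (∀ n, OKs 𝔇 n) ∧ L1 𝔇 N ∧ ∀ i, 2 ≤ i → Q i (𝔇 (i - 1)) (𝔇 i)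

end Pool.Agent.MP_735563_an.H2
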