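import Pool.Agent.MP_735563_an.H2.Spec2

set_option autoImplicit false

/-! Row FGa: the dichotomy for the fold. -/

namespace Pool.Agent.MP_735563_an.H2

namespace FGa2

variable {p : ℕ} {𝔇 : ℕ → Lev p}

theorem qc_tr {j : ℕ} {s : St p} {P : Set (Gam p)} {κ : ℕ} (h : QC (dj 𝔇 j s) P κ) (g : Gam p) :
    QC (dj 𝔇 j (tr g s)) (lm g P) κ := by
  intro a ha b hb m hm
  have e : ∀ y y', dj 𝔇 j (tr g s) y y' = dj 𝔇 j s (g⁻¹ * y) (g⁻¹ * y') := fun y y' => by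
    rw [← dj_tr j g s, mul_inv_cancel_left, mul_inv_cancel_left]
  obtain ⟨c, hc, h1⟩ := h _ ha _ hb (g⁻¹ * m) (by unfold Btw at hm ⊢; rwa [e, e, e] at hm)
  exact ⟨g * c, mul_mem_lm.2 hc, by rwa [e, inv_mul_cancel_left]⟩

theorem shape_tr {j : ℕ} {s : St p} {F : Set (Gam p)} {k : ℕ} (h : Shape 𝔇 j s F k)
    (g : Gam p) : Shape 𝔇 j (tr g s) (lm g F) k := by
  obtain ⟨⟨y, hy⟩, h1, h2, h3⟩ := h
  refine ⟨⟨g * y, mul_mem_lm.2 hy⟩, ?_, ?_, ?_⟩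
  · rw [Kall_tr, Sat_lm, Nb_lm, Dm_tr]
    exact fun _ hq => h1 hq
  · rw [Kall_tr, Sat_lm, Nb_lm, Dm_tr]
    exact fun _ hq => h2 hq
  · rcases h3 with ⟨x₀, rfl, h4⟩ | ⟨κ, h4, h5, h6⟩
    · refine Or.inl ⟨g * x₀, lm_singleton g x₀, ?_⟩
      rw [Kall_tr, K_tr]
      exact fun u hu => mem_cjs.2 (h4 (mem_cjs.1 hu))
    · refine Or.inr ⟨κ, h4, ?_, ?_⟩
      · rw [Kall_tr, Sat_lm]
        exact qc_tr h5 g
      · rw [Kall_tr, Sat_lm, Nb_lm]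
        intro y hy
        rw [← mul_inv_cancel_left g y]
        exact Comp_tr.2 (h6 _ hy)

/-- core points near the centre lie in the saturation of the view -/
theorem key (h2 : CPStmt) {i : ℕ} {c : Fin 3} {z : ℕ} (hi : 1 ≤ i) (hO : OK 𝔇 i)
    (hG : GEOp 𝔇 (i - 1)) (hM : ModelAt 𝔇 i c z) (x : Gam p) {y : Gam p}
    (hy : y ∈ lm x (core 𝔇 i c z))
    (hd : dj 𝔇 (i - 1) (tr x ((𝔇 i).τ c z)) x y ≤ 500 * (𝔇 i).θ) :
    y ∈ Sat (K 𝔇 (i - 1) (tr x ((𝔇 i).τ c z)))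
      (Tn 𝔇 i (tr x ((𝔇 i).τ c z)) c x (𝔇 i).n) := by
  have vm : ValZ 𝔇 i (tr x ((𝔇 i).τ c z)) := hM.good.1.1.tr x
  have vm' := vm.mono (Nat.sub_le i 1)
  have e : tr x ((𝔇 i).τ c z) x (i, some c) = z := by
    rw [tr, inv_mul_cancel, hM.root]
  obtain ⟨a1, -, -, a2⟩ := (h2 p 𝔇 i hi hO hG _ vm c).1 x (by rw [e]; exact hM.ne)
  obtain ⟨ξ, n, b1, b2, b3, -⟩ := a2 x a1 y (by
    rw [cp, e]
    exact subset_Sat _ _ hy)
  have b4 := (hO.1.qg _ vm' c ξ n b1).1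
  have b5 := dj_mul_right b3 x y
  rw [inv_mul_cancel_right] at b5
  rw [b2, b5] at b4
  have b6 := path_mem_Tn vm' b1.1.2 n le_rfl
  rw [b2] at b6
  have b7 : n ≤ (𝔇 i).n := by
    have := hO.2.1.n
    omega
  have b8 := mul_mem_Sat (inv_mem b3) (Sat_mono le_rfl (Tn_mono x b7) b6)
  simpa using b8

end FGa2

open FGa2 in
theorem fga2 (h1 : DichStmt) (h2 : CPStmt) (h3 : QCTStmt) (h4 : InjBStmt) (h5 : TowStmt)
    (h6 : VUStmt) : FGaStmt := by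
  intro p 𝔇 N i hT hi hN s F k x c σ z hC hσ hl hz hστ b hb
  have hO := hT.ok hi hN
  have hM := hO.2.2.at' c z hz
  have hG := hT.2.1 (i - 1) (by omega)
  have hT' : Th 𝔇 (i - 1) := hT.mono (by omega)
  have hD1 := h1 p 𝔇 N i hT hi hN s F k x c hC
  obtain ⟨gs, -, -, -, -, -, -, -, hx0, hD, -⟩ := hC
  obtain ⟨shσ, rcσ, -⟩ := h6 p 𝔇 i hi hT' hO.1 hO.2.1 c σ hσ
  have hkey := fun y => key h2 hi hO hG hM x (y := y)
  have hDm : Dm (i - 1) (tr x ((𝔇 i).τ c z)) = Nb (𝔇 i).θ (lm x (core 𝔇 i c z)) := by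
    rw [Dm_tr, hM.dm, Nb_lm]
  have vm : ValZ 𝔇 (i - 1) (tr x ((𝔇 i).τ c z)) := (hM.good.1.1.tr x).mono (Nat.sub_le i 1)
  have lm' : Le (tr x σ) (tr x ((𝔇 i).τ c z)) := hστ.tr x
  have gB : Good 𝔇 (i - 1) (tr x σ) := hσ.1.tr x
  have tB : Tow 𝔇 (i - 1) (tr x σ) := hσ.2.1.tr x
  have shB := shape_tr shσ x
  have e1 : Tn 𝔇 i (tr x σ) c x (𝔇 i).n = lm x (Tn 𝔇 i σ c 1 (𝔇 i).n) := by
    rw [← Tn_tr, mul_one]
  have rcB : ∀ y ∈ Tn 𝔇 i (tr x σ) c x (𝔇 i).n, RC 𝔇 i (tr x σ) y := fun y hy => by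
    rw [e1] at hy
    rw [← mul_inv_cancel_left x y]
    exact RC_tr.2 (rcσ _ hy)
  have hDB : Dm (i - 1) (tr x σ) =
      Nb (𝔇 i).θ (Sat (K 𝔇 (i - 1) (tr x σ)) (Tn 𝔇 i (tr x σ) c x (𝔇 i).n)) := by
    rw [← Kall_eq gB.2.1, Dm_tr, hσ.2.2.2, e1, Kall_tr, Sat_lm, Nb_lm]
  generalize tr x σ = B at *
  generalize tr x ((𝔇 i).τ c z) = m at *
  have vB := gB.1.1
  have vs : ValZ 𝔇 (i - 1) s := gs.1.1.mono (by omega)
  have Ts := Tn_stable hi hO.1 hG vB vs hl rcB _ (Nat.le_succ _)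
  have Tm := Tn_stable hi hO.1 hG vB vm lm' rcB _ (Nat.le_succ _)
  rw [Tm] at hkey
  rw [Ts] at hD hD1
  have hTB : ∀ y ∈ Tn 𝔇 i B c x (𝔇 i).n, ∀ v, len v ≤ (𝔇 i).θ → y * v ∈ Dm (i - 1) B :=
    fun y hy v hv => hDB.ge (mul_mem_Nb (subset_Sat _ _ hy) hv)
  have hθ := hO.2.1.θ
  have hb' := Nb_mono le_rfl (h5 p 𝔇 (i - 1) (i - 1) hT' le_rfl B gB tB).1 hb
  rw [hDB, Nb_Nb, Nb_Nb] at hb'
  obtain ⟨_, ⟨h, hh, y, hy, rfl⟩, u, hu, hbe⟩ := hb'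
  have hyb : ∀ t, Le B t → dj 𝔇 (i - 1) t y b ≤ (𝔇 i).θ + ((𝔇 (i - 1)).δ + 20) := fun t ht => by
    refine le_trans (dj_le (w := u) (K_mono le_rfl ht ?_)) hu
    rw [hbe]
    simpa [mul_assoc] using inv_mem hh
  have Ms := hG.1 s vs
  have Mm := hG.1 m vm
  by_cases hα : ∃ q ∈ Dm i s ∪ Cen i s, dj 𝔇 (i - 1) s y q ≤ 3 * (𝔇 i).θ
  · obtain ⟨q, hq, hq'⟩ := hα
    have d1 := hD1 y hy q hq hq'
    have d2 := (h3 p 𝔇 (i - 1) hG.2.2.2 B s _ _ vB vs hl (fun _ hk _ hy => mul_mem_Sat hk hy)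
      (Tn_qc hO.1 hG.1 vB rcB) fun y hy => tB.comp (hDB.ge (Nb_mono (by
        generalize (𝔇 (i - 1)).δ = a at hθ ⊢
        norm_num at hθ
        omega) subset_rfl hy))).2.1 x (subset_Sat _ _ (mem_Tn_self x _)) y (subset_Sat _ _ hy)
    have d3 := dj_anti (𝔇 := 𝔇) (le_refl (i - 1)) lm' x y
    have d4 := Mm.tri x y b
    have d5 := hyb m lm'
    have d6 : dj 𝔇 (i - 1) m x b ≤ 303 * (𝔇 i).θ := by
      generalize (𝔇 (i - 1)).δ = a at hθ d5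
      norm_num at hθ
      omega
    refine Or.inr ⟨fun u' hu' hm => ?_, d6, fun hbc => ?_⟩
    · rw [hDm] at hm
      obtain ⟨y', hy', v, hv, e⟩ := hm
      have d7 := dj_le_len (𝔇 := 𝔇) (i - 1) m b (u' * v⁻¹)
      have d8 := len_mul_le u' v⁻¹
      rw [← mul_assoc, e, mul_inv_cancel_right] at d7
      rw [len_inv] at d8
      have d9 := Mm.tri x b y'
      obtain ⟨k', hk', y'', hy'', rfl⟩ := hkey y' hy' (by
        generalize (𝔇 (i - 1)).δ = a at hθ hu'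
        norm_num at hθ
        omega)
      exact ⟨k', K_le_Kall _ _ hk', _, hTB y'' hy'' v hv, by rw [e, mul_assoc]⟩
    · obtain ⟨k', hk', y'', hy'', e⟩ := hkey b hbc (by omega)
      have i1 : y'' ∈ Dm 0 B := tB.Dm_anti (Nat.zero_le _) (by
        simpa using hTB y'' hy'' 1 (by rw [len_one]; omega))
      have i2 := h4 p 𝔇 (i - 1) (i - 1) hT' le_rfl B m _ _ gB tB shB vm lm' y''
        (subset_Nb _ _ i1) k' hk' (e ▸ Nb_mono (by omega) subset_rfl hb)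
      rw [e, apply_of_stab (vs.stab (K_mono le_rfl hl i2))]
      by_contra hne
      obtain ⟨ξ, n, c1, c2, c3, c4, c5⟩ := Tn_path (Ts.ge hy'')
      refine (h2 p 𝔇 i hi hO hG s (gs.1.1.mono hN) c).2 ξ n ⟨fun t ht => ?_, c5⟩ (c3 ▸ hne)
        (c2 ▸ hx0)
      exact (rcB _ (Ts.le (Tn_mono x (ht.trans c1) (c4 t ht)))).mono hG vB vs hl
  · have d5 := hyb s hl
    refine Or.inl ⟨fun u' hu' hm => ?_, fun hbc => hα ⟨b, Or.inr hbc, ?_⟩⟩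
    · rw [hD] at hm
      obtain ⟨_, ⟨k', hk', q, hq | hq, rfl⟩, v, hv, e⟩ := hm
      · refine (hα ⟨k' * q, hq.imp (Dm_stab (gs.stab hk')).2 (Cen_stab (gs.stab hk')).2, ?_⟩).elim
        have d7 := dj_le_len (𝔇 := 𝔇) (i - 1) s b (u' * v⁻¹)
        have d8 := len_mul_le u' v⁻¹
        rw [← mul_assoc, e, mul_inv_cancel_right] at d7
        rw [len_inv] at d8
        have d9 := Ms.tri y b (k' * q)
        generalize (𝔇 (i - 1)).δ = a at hθ hu' d5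
        norm_num at hθ
        omega
      · exact ⟨k', hk', _, hTB q hq v hv, by rw [e, mul_assoc]⟩
    · generalize (𝔇 (i - 1)).δ = a at hθ d5
      norm_num at hθ
      omega

end Pool.Agent.MP_735563_an.H2
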