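import Pool.Agent.MP_735563_an.H2.Spec5
import Pool.Agent.MP_735563_an.H34.Spec4

set_option autoImplicit false

/-! Statements of the rows that exclude a free action. -/

open MeasureTheory

namespace Pool.Agent.MP_735563_an.H2

/-- the element of the free group read along a word -/
def fw : List (Fin 4) → FreeGroup (Fin 2)
  | [] => 1
  | i :: w => fw w * fg i

/-- row KPack: few points are packed -/
def KPackStmt : Prop := ∀ (p : ℕ) [NeZero p] (P : RP p), P.Bas → ∀ (𝒳 : XD p)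
  (ν : Measure (XS 𝒳)) [IsProbabilityMeasure ν],
  (∀ g : Gam p, MeasurePreserving (fun x : XS 𝒳 => g • x) ν ν) → ∀ N₀ a, FreeOn ν N₀ a →
  ν.real {x | P.Pack x.1} ≤ 4 * ν.real {x | ∃ k, a (fg k) x ≠ (P.τ x.1 k)⁻¹ • x}

/-- row KGood: most points follow the free action for `m` steps -/
def KGoodStmt : Prop := ∀ (p : ℕ) [NeZero p] (P : RP p), P.Bas → ∀ (𝒳 : XD p)
  (ν : Measure (XS 𝒳)) [IsProbabilityMeasure ν], ∀ N₀ a, FreeOn ν N₀ a →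
  ∃ G : Set (XS 𝒳), MeasurableSet G ∧
    ν.real Gᶜ ≤ 5 ^ P.m * (ν.real {x | ∃ k, a (fg k) x ≠ (P.τ x.1 k)⁻¹ • x} +
      ν.real {x | P.Coll x.1} + ν.real {x | P.Pack x.1}) ∧
    ∀ x ∈ G, P.Full x.1 ∧ ∀ w : List (Fin 4), w.length ≤ P.m → (P.pos x.1 w)⁻¹ • x = a (fw w) x

/-- row KAvg: averaging over a finite subrelation -/
def KAvgStmt : Prop := ∀ (p : ℕ) [NeZero p] (X : Type) [MeasurableSpace X] [MulAction (Gam p) X]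
  (ν : Measure X) [IsProbabilityMeasure ν],
  (∀ g : Gam p, MeasurePreserving (fun x : X => g • x) ν ν) →
  ∀ 𝒦 : X → Subgroup (Gam p), (∀ (g : Gam p) x, 𝒦 (g • x) = cjs g (𝒦 x)) →
  (∀ u, MeasurableSet {x | u ∈ 𝒦 x}) → (∀ x, ∀ k ∈ 𝒦 x, k • x = x) →
  ∀ (R : X → Set (Gam p)) (D : ℕ), (∀ u, MeasurableSet {x | u ∈ R x}) → (∀ x, 1 ∈ R x) →
  (∀ x, ∀ k ∈ 𝒦 x, ∀ u ∈ R x, k * u ∈ R x) →
  (∀ x, ∀ u ∈ R x, ∀ v, v ∈ R (u⁻¹ • x) ↔ u * v ∈ R x) →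
  (∀ x, ∀ u ∈ R x, ∃ k ∈ 𝒦 x, len (k * u) ≤ D) →
  ∀ (f : X → ℝ) (b : ℝ), Measurable f → (∀ x, |f x| ≤ b) →
  (∀ᵐ x ∂ν, ∀ T : Finset (Gam p), (∀ t ∈ T, t ∈ R x) →
    (∀ t ∈ T, ∀ t' ∈ T, t' * t⁻¹ ∈ 𝒦 x → t = t') → (∀ u ∈ R x, ∃ t ∈ T, t * u⁻¹ ∈ 𝒦 x) →
    ∑ t ∈ T, f (t⁻¹ • x) ≤ 0) → ∫ x, f x ∂ν ≤ 0

/-- row KFor: final edges that follow a free action form a forest -/
def KForStmt : Prop := ∀ (V Y : Type) (n L m k₁ k₂ : ℕ) (st : V → Fin 4 → Option V)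
  (β : V → Cnt.Lab n L m) (Tg : ℕ → V → V → Prop) (Cl : V → V → Prop)
  (a : FreeGroup (Fin 2) → Y → Y) (N₀ : Set Y) (j : V → Y), 3 ≤ k₂ →
  (∀ g, ∀ y ∈ N₀, a g y ∈ N₀) → (∀ y ∈ N₀, a 1 y = y) →
  (∀ g h, ∀ y ∈ N₀, a (g * h) y = a g (a h y)) → (∀ g, ∀ y ∈ N₀, a g y = y → g = 1) →
  Function.Injective j → (∀ v, j v ∈ N₀) → ∀ (C : Finset V) (E : Finset (V × Fin L)),
  (∀ e ∈ E, e.1 ∈ C ∧ (∃ y ∈ C, Cnt.Fe st β Tg Cl k₁ k₂ e y) ∧ ∀ w : List (Fin 4),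
    w.length ≤ m → ∀ z, run st e.1 w = some z → j z = a (fw w) (j e.1)) → E.card ≤ C.card

/-- row KComp: the mean number of clean final edges is at most the density of flags -/
def KCompStmt : Prop := ∀ (p : ℕ) [NeZero p] (P : RP p) (ρ : ℕ), P.Bas → P.TrP ρ → 3 ≤ P.k₂ →
  ∀ (𝒳 : XD p) (ν : Measure (XS 𝒳)) [IsProbabilityMeasure ν],
  (∀ g : Gam p, MeasurePreserving (fun x : XS 𝒳 => g • x) ν ν) →
  ∀ D, (∀ x : XS 𝒳, CompC P.cen (P.nb ρ) D x.1) → ∀ N₀ a, FreeOn ν N₀ a →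
  ∀ G : Set (XS 𝒳), MeasurableSet G →
  (∀ x ∈ G, ∀ w : List (Fin 4), w.length ≤ P.m → (P.pos x.1 w)⁻¹ • x = a (fw w) x) →
  ∫ x, (G.indicator (fun x => P.nfo ρ x.1) x - ind P.fl x.1) ∂ν ≤ 0

end Pool.Agent.MP_735563_an.H2
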