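import Pool.Agent.MP_735563_an.H2.Spec6
import Pool.Agent.MP_735563_an.H34.Spec7
import Pool.Agent.MP_735563_an.H34.Erg

set_option autoImplicit false

/-! The rule excludes free actions close to its task. -/

open MeasureTheory

namespace Pool.Agent.MP_735563_an.H2

theorem killS (h0 : RLocStmt) (h1 : KPackStmt) (h2 : KGoodStmt) (h3 : KCompStmt) : KillStmt := by
  intro p _ P ρ r hB hT hk 𝒳 ν _ hν D hD N₀ a hF hb hc
  obtain ⟨⟨r₁, -, -, -, -, -, -, lF, -⟩, -, -, h4⟩ := h0 p P hB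
  obtain ⟨-, ln, lc, -⟩ := h4 ρ
  have lf : LocA P.i ρ P.fl := fun M M' h => by
    have := congrFun (lc M M' h) 0
    simpa [RP.cen] using this
  have k1 := h1 p P hB 𝒳 ν hν N₀ a hF
  obtain ⟨G, hG, k2, k3⟩ := h2 p P hB 𝒳 ν N₀ a hF
  have k4 := h3 p P ρ hB hT hk 𝒳 ν hν D hD N₀ a hF G hG fun x hx => (k3 x hx).2
  change ν.real {x | P.Coll x.1} ≤ _ at hc
  set η := eta0 P.n P.L P.m with hη
  have hn : (1 : ℝ) ≤ P.n := by exact_mod_cast P.hn
  have hL : (0 : ℝ) ≤ P.L := Nat.cast_nonneg _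
  have cn : Continuous fun x : XS 𝒳 => P.nfo ρ x.1 := XS.cont ln
  have cf := Erg.ind_cont (𝒳 := 𝒳) lf
  have n0 : ∀ M, 0 ≤ P.nfo ρ M ∧ P.nfo ρ M ≤ P.L := fun M => by
    refine ⟨Nat.cast_nonneg _, ?_⟩
    unfold RP.nfo
    exact_mod_cast (Finset.card_le_univ _).trans (by simp)
  have i1 : Integrable (fun x : XS 𝒳 => G.indicator (fun x => P.nfo ρ x.1) x - ind P.fl x.1) ν :=
    ((Gen1.integ cn ν).indicator hG).sub (Gen1.integ cf ν)
  have i2 : Integrable (Gᶜ.indicator fun _ : XS 𝒳 => (1 : ℝ)) ν :=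
    (integrable_const _).indicator hG.compl
  have i3 : Integrable (fun x : XS 𝒳 => P.psi ρ x.1) ν := by
    refine Gen1.integ ?_ ν
    unfold RP.psi
    have := Erg.ind_cont (𝒳 := 𝒳) lF
    fun_prop
  have hp : ∀ x : XS 𝒳, 1 / (P.n : ℝ) - (2 + P.L) * Gᶜ.indicator (fun _ => (1 : ℝ)) x -
      (G.indicator (fun x => P.nfo ρ x.1) x - ind P.fl x.1) ≤ P.psi ρ x.1 := fun x => by
    unfold RP.psi
    by_cases hx : x ∈ G
    · rw [Set.indicator_of_mem hx, Set.indicator_of_notMem (by simpa using hx),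
        show ind P.Full x.1 = 1 from if_pos (k3 x hx).1]
      refine le_of_eq ?_
      ring
    · rw [Set.indicator_of_notMem hx, Set.indicator_of_mem (by simpa using hx)]
      have a1 := (n0 x.1).2
      have a2 : 0 ≤ 2 / (P.n : ℝ) * ind P.Full x.1 := mul_nonneg (by positivity) (Erg.ind_nonneg _ _)
      have a3 : 1 / (P.n : ℝ) ≤ 1 := by rw [div_le_one (by linarith)]; exact hn
      linarith
  have i4 : Integrable (fun x : XS 𝒳 => (2 + P.L) * Gᶜ.indicator (fun _ => (1 : ℝ)) x) ν :=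
    i2.const_mul _
  have i5 : Integrable (fun x : XS 𝒳 => 1 / (P.n : ℝ) -
      (2 + P.L) * Gᶜ.indicator (fun _ => (1 : ℝ)) x) ν := (integrable_const _).sub i4
  have k5 := integral_mono (f := fun x : XS 𝒳 => 1 / (P.n : ℝ) -
      (2 + P.L) * Gᶜ.indicator (fun _ => (1 : ℝ)) x -
      (G.indicator (fun x => P.nfo ρ x.1) x - ind P.fl x.1)) (i5.sub i1) i3 hp
  rw [integral_sub i5 i1, integral_sub (integrable_const _) i4, integral_const_mul,
    integral_indicator_const _ hG.compl] at k5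
  simp only [integral_const, probReal_univ, smul_eq_mul, one_mul, mul_one] at k5
  have e : η * (100 * 5 ^ (P.m + 1) * (P.L + 3)) = 1 / P.n := by
    rw [hη, eta0]
    field_simp
  have h5 : (1 : ℝ) ≤ 5 ^ P.m := one_le_pow₀ (by norm_num)
  have hη0 : 0 < η := by rw [hη, eta0]; positivity
  have k6 : ν.real Gᶜ ≤ 5 ^ P.m * (6 * η) :=
    k2.trans (mul_le_mul_of_nonneg_left (by linarith) (by positivity))
  have k7 : (2 + P.L) * ν.real Gᶜ ≤ (2 + P.L) * (5 ^ P.m * (6 * η)) :=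
    mul_le_mul_of_nonneg_left k6 (by linarith)
  have k8 : η * 1 ≤ η * (5 ^ P.m * (P.L + 3)) :=
    mul_le_mul_of_nonneg_left (by nlinarith) hη0.le
  have k9 : 0 ≤ η * 5 ^ P.m := by positivity
  change η < ∫ x, P.psi ρ x.1 ∂ν
  rw [pow_succ] at e
  nlinarith

end Pool.Agent.MP_735563_an.H2
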